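import Pool.Agent.KarpGP.Choices

/-!
Counting the choices for which some small set has small outside degrees.
-/

set_option autoImplicit false

set_option linter.unusedSectionVars false

open scoped ENNReal
open Classical

namespace Pool.Agent.KarpGP

universe u

variable {α : Type u} [Fintype α] {K : ℕ}

theorem card_B (J : Finset α) (I : Finset (Fin K)) :
    (Finset.univ.filter (fun g : Fin K → α => ∀ i, g i ∈ J ∪ I.image g)).card
      ≤ (J.card + I.card) ^ (K - I.card) * (Fintype.card α) ^ I.card := by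
  set B := Finset.univ.filter (fun g : Fin K → α => ∀ i, g i ∈ J ∪ I.image g) with hB
  have h1 := Finset.card_le_mul_card_image (f := fun (g : Fin K → α) (i : {i // i ∈ I}) => g i.1)
    B ((J.card + I.card) ^ (K - I.card)) (by
      intro h _
      have hsub : B.filter (fun g => (fun (i : {i // i ∈ I}) => g i.1) = h) ⊆
          Fintype.piFinset (fun i => if hi : i ∈ I then {h ⟨i, hi⟩} else
            J ∪ Finset.univ.image h) := by
        intro g hg
        rw [Finset.mem_filter, hB, Finset.mem_filter] at hg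
        rw [Fintype.mem_piFinset]
        intro i
        by_cases hi : i ∈ I
        · simp only [hi, dif_pos, Finset.mem_singleton]
          rw [← hg.2]
        · simp only [hi, dif_neg, not_false_eq_true]
          have h2 := hg.1.2 i
          rw [Finset.mem_union] at h2 ⊢
          rcases h2 with h2 | h2
          · exact Or.inl h2
          · right
            rw [Finset.mem_image] at h2 ⊢
            obtain ⟨i', hi', h3⟩ := h2
            refine ⟨⟨i', hi'⟩, Finset.mem_univ _, ?_⟩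
            rw [← hg.2]; exact h3
      refine (Finset.card_le_card hsub).trans ?_
      rw [Fintype.card_piFinset]
      have h4 : ∀ i ∈ (Finset.univ : Finset (Fin K)), (if hi : i ∈ I then {h ⟨i, hi⟩} else
            J ∪ Finset.univ.image h : Finset α).card ≤ if i ∈ I then 1 else J.card + I.card := by
        intro i _
        by_cases hi : i ∈ I
        · simp [hi]
        · simp only [hi, dif_neg, not_false_eq_true, if_false]
          refine (Finset.card_union_le _ _).trans (Nat.add_le_add_left ?_ _)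
          refine Finset.card_image_le.trans ?_
          simp
      refine (Finset.prod_le_prod' h4).trans ?_
      rw [Finset.prod_ite, Finset.prod_const_one, one_mul, Finset.prod_const]
      refine le_of_eq ?_
      congr 1
      rw [Finset.filter_not, Finset.card_sdiff_of_subset (Finset.filter_subset _ _),
        Finset.card_univ, Fintype.card_fin]
      congr 2
      ext i; simp)
  refine h1.trans (Nat.mul_le_mul_left _ ?_)
  refine (Finset.card_le_univ _).trans ?_
  rw [Fintype.card_fun, Fintype.card_coe]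

/-- The choices at a vertex with few different values outside `J`. -/
noncomputable def EJ (K δ : ℕ) (J : Finset α) : Finset (Fin K → α) :=
  Finset.univ.filter (fun g => ((Finset.univ.image g) \ J).card < δ)

theorem card_EJ (δ : ℕ) (hδ : 1 ≤ δ) (hK : δ - 1 ≤ K) (J : Finset α) :
    (EJ K δ J).card ≤ 2 ^ K * ((J.card + (δ - 1)) ^ (K - (δ - 1)) *
      (Fintype.card α) ^ (δ - 1)) := by
  have hsub : EJ K δ J ⊆ ((Finset.univ : Finset (Fin K)).powersetCard (δ - 1)).biUnion
      (fun I => Finset.univ.filter (fun g : Fin K → α => ∀ i, g i ∈ J ∪ I.image g)) := by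
    intro g hg
    rw [EJ, Finset.mem_filter] at hg
    set D := (Finset.univ.image g) \ J with hD
    have hp : ∀ d ∈ D, ∃ i, g i = d := by
      intro d hd
      rw [hD, Finset.mem_sdiff, Finset.mem_image] at hd
      obtain ⟨⟨i, -, hi⟩, -⟩ := hd
      exact ⟨i, hi⟩
    choose p hp using hp
    set I₀ : Finset (Fin K) := D.attach.image (fun d => p d.1 d.2) with hI₀
    have hI₀c : I₀.card ≤ δ - 1 := by
      refine Finset.card_image_le.trans ?_
      rw [Finset.card_attach]
      omega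
    obtain ⟨I, hI1, hI2⟩ := Finset.exists_superset_card_eq hI₀c (by simpa using hK)
    rw [Finset.mem_biUnion]
    refine ⟨I, Finset.mem_powersetCard.2 ⟨Finset.subset_univ _, hI2⟩, ?_⟩
    rw [Finset.mem_filter]
    refine ⟨Finset.mem_univ _, fun i => ?_⟩
    rw [Finset.mem_union]
    by_cases hi : g i ∈ J
    · exact Or.inl hi
    · right
      have hiD : g i ∈ D := by
        rw [hD, Finset.mem_sdiff]
        exact ⟨Finset.mem_image_of_mem _ (Finset.mem_univ _), hi⟩
      rw [Finset.mem_image]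
      refine ⟨p (g i) hiD, hI1 ?_, hp _ hiD⟩
      rw [hI₀, Finset.mem_image]
      exact ⟨⟨g i, hiD⟩, Finset.mem_attach _ _, rfl⟩
  refine (Finset.card_le_card hsub).trans (Finset.card_biUnion_le.trans ?_)
  refine (Finset.sum_le_card_nsmul _ _ ((J.card + (δ - 1)) ^ (K - (δ - 1)) *
      (Fintype.card α) ^ (δ - 1)) fun I hI => ?_).trans ?_
  · have := card_B J I
    rw [(Finset.mem_powersetCard.1 hI).2] at this
    exact this
  · rw [smul_eq_mul, Finset.card_powersetCard, Finset.card_univ, Fintype.card_fin]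
    exact Nat.mul_le_mul_right _ (Nat.choose_le_two_pow _ _)

theorem numeric_bad (m j δ : ℕ) (hj : 1 ≤ j) (hδ : 1 ≤ δ) (hm : 0 < m)
    (ha : 8 * (j + (δ - 1)) ≤ m) :
    (m.choose j : ℝ) * (2 ^ (8 * δ) * (((j + (δ - 1) : ℕ) : ℝ) / m) ^ (7 * δ + 1)) ^ j
      ≤ (1 / 8) ^ j := by
  set a : ℕ := j + (δ - 1) with hadef
  have hmR : (0 : ℝ) < m := by exact_mod_cast hm
  have haR : 8 * (a : ℝ) ≤ m := by exact_mod_cast ha
  have ha0 : (0 : ℝ) ≤ a := Nat.cast_nonneg _
  have hajd : a ≤ j * δ := by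
    obtain ⟨j', rfl⟩ : ∃ j', j = j' + 1 := ⟨j - 1, by omega⟩
    obtain ⟨δ', rfl⟩ : ∃ δ', δ = δ' + 1 := ⟨δ - 1, by omega⟩
    have : (j' + 1) * (δ' + 1) = j' * δ' + j' + δ' + 1 := by ring
    rw [this]
    have h2 : 0 ≤ j' * δ' := Nat.zero_le _
    omega
  have h1 : (m.choose j : ℝ) * ((a : ℝ) / m) ^ j ≤ (4 ^ δ) ^ j := by
    have h2 : (m.choose j : ℝ) ≤ (m : ℝ) ^ j / (j.factorial : ℝ) := Nat.choose_le_pow_div j m
    have h3 : (a : ℝ) ^ j / (j.factorial : ℝ) ≤ Real.exp a :=
      Real.pow_div_factorial_le_exp (a : ℝ) ha0 j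
    have hfac : (0 : ℝ) < (j.factorial : ℝ) := by exact_mod_cast Nat.factorial_pos j
    calc (m.choose j : ℝ) * ((a : ℝ) / m) ^ j
        ≤ ((m : ℝ) ^ j / (j.factorial : ℝ)) * ((a : ℝ) / m) ^ j := by gcongr
      _ = (a : ℝ) ^ j / (j.factorial : ℝ) := by rw [div_pow]; field_simp
      _ ≤ Real.exp a := h3
      _ ≤ Real.exp ((j * δ : ℕ) : ℝ) := Real.exp_le_exp.2 (by exact_mod_cast hajd)
      _ = (Real.exp 1) ^ (j * δ) := by rw [← Real.exp_nat_mul]; ring_nf
      _ ≤ 4 ^ (j * δ) := by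
          have := Real.exp_one_lt_d9
          have h4 : Real.exp 1 ≤ 4 := by linarith
          gcongr
      _ = (4 ^ δ) ^ j := by rw [← pow_mul]; congr 1; ring
  have h5 : (2 : ℝ) ^ (8 * δ) * ((a : ℝ) / m) ^ (7 * δ) ≤ (1 / 2) ^ (13 * δ) := by
    have h6 : (a : ℝ) / m ≤ 1 / 8 := by
      rw [div_le_div_iff₀ hmR (by norm_num)]; linarith
    have h7 : 0 ≤ (a : ℝ) / m := by positivity
    calc (2 : ℝ) ^ (8 * δ) * ((a : ℝ) / m) ^ (7 * δ) ≤ (2 : ℝ) ^ (8 * δ) * (1 / 8) ^ (7 * δ) := by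
          gcongr
      _ = (1 / 2) ^ (13 * δ) := by
          rw [pow_mul, pow_mul, pow_mul, ← mul_pow]; congr 1; norm_num
  have h8 : (m.choose j : ℝ) * (2 ^ (8 * δ) * ((a : ℝ) / m) ^ (7 * δ + 1)) ^ j
      = ((m.choose j : ℝ) * ((a : ℝ) / m) ^ j) *
        ((2 : ℝ) ^ (8 * δ) * ((a : ℝ) / m) ^ (7 * δ)) ^ j := by
    rw [pow_succ, ← mul_assoc, mul_pow, mul_pow]
    ring
  rw [h8]
  have h9 : 0 ≤ (2 : ℝ) ^ (8 * δ) * ((a : ℝ) / m) ^ (7 * δ) := by positivity
  calc ((m.choose j : ℝ) * ((a : ℝ) / m) ^ j) *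
        ((2 : ℝ) ^ (8 * δ) * ((a : ℝ) / m) ^ (7 * δ)) ^ j
      ≤ (4 ^ δ) ^ j * ((1 / 2) ^ (13 * δ)) ^ j := by gcongr
    _ = (4 ^ δ * (1 / 2) ^ (13 * δ)) ^ j := by rw [mul_pow]
    _ = ((1 / 2) ^ (11 * δ)) ^ j := by
        congr 1
        rw [pow_mul (1 / 2 : ℝ) 13 δ, pow_mul (1 / 2 : ℝ) 11 δ, ← mul_pow]
        norm_num
    _ ≤ ((1 / 2) ^ 3) ^ j := by
        have h10 : ((1 : ℝ) / 2) ^ (11 * δ) ≤ (1 / 2) ^ 3 :=
          pow_le_pow_of_le_one (by norm_num) (by norm_num) (by omega)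
        gcongr
    _ = (1 / 8) ^ j := by norm_num

/-- The proportion of bad choices is at most one seventh. -/
theorem bad_count (t δ : ℕ) (hδ : 1 ≤ δ) (hm : 0 < Fintype.card α)
    (hsmall : 8 * (t + δ) ≤ Fintype.card α) :
    ((Finset.univ.filter (fun f : α → Fin (8 * δ) → α => ∃ J : Finset α, J.Nonempty ∧ J.card ≤ t ∧
      ∀ x ∈ J, f x ∈ EJ (8 * δ) δ J)).card : ℝ)
      ≤ (Fintype.card (α → Fin (8 * δ) → α) : ℝ) / 7 := by
  set m : ℕ := Fintype.card α with hmdef
  set K : ℕ := 8 * δ with hK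
  have hmR : (0 : ℝ) < m := by exact_mod_cast hm
  have hΩ : Fintype.card (α → Fin K → α) = (m ^ K) ^ m := by
    rw [Fintype.card_fun, Fintype.card_fun, Fintype.card_fin]
  -- the bad choices for a fixed set
  let bad : Finset α → Finset (α → Fin K → α) := fun J =>
    Fintype.piFinset (fun x => if x ∈ J then EJ K δ J else Finset.univ)
  have hbad : ∀ j ∈ Finset.Icc 1 t, ∀ J ∈ (Finset.univ : Finset α).powersetCard j,
      ((bad J).card : ℝ) ≤ (2 ^ (8 * δ) * (((j + (δ - 1) : ℕ) : ℝ) / m) ^ (7 * δ + 1)) ^ j *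
        ((m : ℝ) ^ K) ^ m := by
    intro j hj J hJ
    rw [Finset.mem_Icc] at hj
    have hJc := (Finset.mem_powersetCard.1 hJ).2
    have h1 : (bad J).card = (EJ K δ J).card ^ j * (m ^ K) ^ (m - j) := by
      rw [Fintype.card_piFinset]
      rw [← Finset.prod_filter_mul_prod_filter_not Finset.univ (fun x => x ∈ J)]
      congr 1
      · rw [Finset.prod_congr rfl (fun x hx => by
          rw [if_pos (Finset.mem_filter.1 hx).2]), Finset.prod_const]
        congr 1
        rw [← hJc]; congr 1; ext x; simp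
      · rw [Finset.prod_congr rfl (fun x hx => by
          rw [if_neg (Finset.mem_filter.1 hx).2]), Finset.prod_const]
        have h2 : (Finset.univ : Finset (Fin K → α)).card = m ^ K := by
          rw [Finset.card_univ, Fintype.card_fun, Fintype.card_fin]
        rw [h2]
        congr 1
        rw [Finset.filter_not, Finset.card_sdiff_of_subset (Finset.filter_subset _ _),
          Finset.card_univ, ← hJc]
        congr 2
        ext x; simp
    have hjm : j ≤ m := by rw [← hJc]; exact Finset.card_le_univ J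
    have h2 := card_EJ (K := K) δ hδ (by omega) J
    rw [hJc, ← hmdef] at h2
    have hK2 : K - (δ - 1) = 7 * δ + 1 := by omega
    rw [hK2] at h2
    have h3 : ((EJ K δ J).card : ℝ) ≤ (2 ^ (8 * δ) *
        (((j + (δ - 1) : ℕ) : ℝ) / m) ^ (7 * δ + 1)) * (m : ℝ) ^ K := by
      have h4 : ((EJ K δ J).card : ℝ) ≤ 2 ^ K * (((j + (δ - 1) : ℕ) : ℝ) ^ (7 * δ + 1) *
          (m : ℝ) ^ (δ - 1)) := by exact_mod_cast h2
      refine h4.trans (le_of_eq ?_)
      have h5 : K = (7 * δ + 1) + (δ - 1) := by omega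
      rw [div_pow]
      have h6 : (m : ℝ) ^ K = (m : ℝ) ^ (7 * δ + 1) * (m : ℝ) ^ (δ - 1) := by
        rw [← pow_add, ← h5]
      rw [h6, hK]
      field_simp
    rw [h1]
    push_cast
    calc ((EJ K δ J).card : ℝ) ^ j * ((m : ℝ) ^ K) ^ (m - j)
        ≤ ((2 ^ (8 * δ) * (((j + (δ - 1) : ℕ) : ℝ) / m) ^ (7 * δ + 1)) * (m : ℝ) ^ K) ^ j *
          ((m : ℝ) ^ K) ^ (m - j) := by gcongr
      _ = (2 ^ (8 * δ) * (((j + (δ - 1) : ℕ) : ℝ) / m) ^ (7 * δ + 1)) ^ j *
          (((m : ℝ) ^ K) ^ j * ((m : ℝ) ^ K) ^ (m - j)) := by rw [mul_pow]; ring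
      _ = _ := by
          rw [← pow_add, Nat.add_sub_cancel' hjm]
          push_cast
          ring
  have hsub : Finset.univ.filter (fun f : α → Fin K → α => ∃ J : Finset α, J.Nonempty ∧
      J.card ≤ t ∧ ∀ x ∈ J, f x ∈ EJ K δ J) ⊆ (Finset.Icc 1 t).biUnion (fun j =>
        ((Finset.univ : Finset α).powersetCard j).biUnion bad) := by
    intro f hf
    rw [Finset.mem_filter] at hf
    obtain ⟨-, J, hJ1, hJ2, hJ3⟩ := hf
    rw [Finset.mem_biUnion]
    refine ⟨J.card, Finset.mem_Icc.2 ⟨Finset.card_pos.2 hJ1, hJ2⟩, ?_⟩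
    rw [Finset.mem_biUnion]
    refine ⟨J, Finset.mem_powersetCard.2 ⟨Finset.subset_univ _, rfl⟩, ?_⟩
    rw [Fintype.mem_piFinset]
    intro x
    by_cases hx : x ∈ J
    · simp only [hx, if_true]; exact hJ3 x hx
    · simp [hx]
  have h1 : ((Finset.univ.filter (fun f : α → Fin K → α => ∃ J : Finset α, J.Nonempty ∧
      J.card ≤ t ∧ ∀ x ∈ J, f x ∈ EJ K δ J)).card : ℝ) ≤
      ∑ j ∈ Finset.Icc 1 t, ∑ J ∈ (Finset.univ : Finset α).powersetCard j, ((bad J).card : ℝ) := by
    have h2 := Finset.card_le_card hsub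
    have h3 : ((Finset.Icc 1 t).biUnion (fun j =>
        ((Finset.univ : Finset α).powersetCard j).biUnion bad)).card ≤
        ∑ j ∈ Finset.Icc 1 t, ∑ J ∈ (Finset.univ : Finset α).powersetCard j, (bad J).card :=
      Finset.card_biUnion_le.trans (Finset.sum_le_sum fun j _ => Finset.card_biUnion_le)
    exact_mod_cast h2.trans h3
  refine h1.trans ?_
  have h4 : ∑ j ∈ Finset.Icc 1 t, ∑ J ∈ (Finset.univ : Finset α).powersetCard j,
      ((bad J).card : ℝ) ≤ ∑ j ∈ Finset.Icc 1 t, (1 / 8 : ℝ) ^ j * ((m : ℝ) ^ K) ^ m := by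
    refine Finset.sum_le_sum fun j hj => ?_
    refine (Finset.sum_le_card_nsmul _ _ _ (hbad j hj)).trans ?_
    rw [nsmul_eq_mul, Finset.card_powersetCard, Finset.card_univ, ← hmdef, ← mul_assoc]
    rw [Finset.mem_Icc] at hj
    have h5 := numeric_bad m j δ hj.1 hδ hm (by omega)
    gcongr
  refine h4.trans ?_
  rw [← Finset.sum_mul, hΩ]
  push_cast
  have h6 := geom_le t
  have h7 : (0 : ℝ) ≤ ((m : ℝ) ^ K) ^ m := by positivity
  nlinarith

end Pool.Agent.KarpGP
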