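import Mathlib

/-!
Deterministic query algorithms for graph properties, and the zero-error randomized query
complexity.
-/

set_option autoImplicit false

open scoped ENNReal
open Classical

namespace Pool.Agent.KarpGP

universe u

/-- A deterministic query algorithm (decision tree) on graphs with vertex set `V`: at an inner
node it asks whether `u v` is an edge of the input graph and continues with the first subtree
if the answer is no and with the second subtree if the answer is yes; at a leaf it stops and
outputs a bit. -/
inductive DTree (V : Type u) : Type u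
  | leaf (b : Bool) : DTree V
  | query (u v : V) (ifNo ifYes : DTree V) : DTree V

namespace DTree

variable {V : Type u}

/-- The output of the algorithm on the input graph `G`. -/
noncomputable def eval : DTree V → SimpleGraph V → Bool
  | leaf b, _ => b
  | query u v t₀ t₁, G => if G.Adj u v then t₁.eval G else t₀.eval G

/-- The number of queries that the algorithm makes on the input graph `G`. -/
noncomputable def cost : DTree V → SimpleGraph V → ℕ
  | leaf _, _ => 0
  | query u v t₀ t₁, G => if G.Adj u v then t₁.cost G + 1 else t₀.cost G + 1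

/-- The set of pairs that are asked on the input graph `G`. -/
noncomputable def asked : DTree V → SimpleGraph V → Finset (Sym2 V)
  | leaf _, _ => ∅
  | query u v t₀ t₁, G =>
      if G.Adj u v then insert s(u, v) (t₁.asked G) else insert s(u, v) (t₀.asked G)

theorem card_asked_le (T : DTree V) (G : SimpleGraph V) : (T.asked G).card ≤ T.cost G := by
  induction T with
  | leaf b => simp [asked, cost]
  | query u v t₀ t₁ ih₀ ih₁ =>
    by_cases h : G.Adj u v
    · simp only [asked, cost, h, if_true]
      exact (Finset.card_insert_le _ _).trans (Nat.add_le_add_right ih₁ 1)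
    · simp only [asked, cost, h, if_false]
      exact (Finset.card_insert_le _ _).trans (Nat.add_le_add_right ih₀ 1)

/-- If `G'` agrees with `G` on all pairs asked on `G`, then the run on `G'` is the same. -/
theorem agree (T : DTree V) (G G' : SimpleGraph V)
    (h : ∀ e ∈ T.asked G, (e ∈ G.edgeSet ↔ e ∈ G'.edgeSet)) :
    T.asked G' = T.asked G ∧ T.eval G' = T.eval G ∧ T.cost G' = T.cost G := by
  induction T with
  | leaf b => simp [asked, eval, cost]
  | query u v t₀ t₁ ih₀ ih₁ =>
    by_cases huv : G.Adj u v
    · have hs : s(u, v) ∈ (query u v t₀ t₁).asked G := by simp [asked, huv]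
      have h' : G'.Adj u v := by
        have := (h _ hs).1 (by simpa using huv)
        simpa using this
      have ih := ih₁ (fun e he => h e (by simp [asked, huv, he]))
      simp [asked, eval, cost, huv, h', ih]
    · have hs : s(u, v) ∈ (query u v t₀ t₁).asked G := by simp [asked, huv]
      have h' : ¬ G'.Adj u v := by
        intro hc
        have := (h _ hs).2 (by simpa using hc)
        exact huv (by simpa using this)
      have ih := ih₀ (fun e he => h e (by simp [asked, huv, he]))
      simp [asked, eval, cost, huv, h', ih]

end DTree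

variable {V : Type u}

/-- `T` computes the property `P`: on every input graph it outputs whether the graph has `P`. -/
def Computes (T : DTree V) (P : SimpleGraph V → Prop) : Prop :=
  ∀ G : SimpleGraph V, T.eval G = true ↔ P G

/-- The expected number of queries made on the input graph `G` by the randomized algorithm `μ`,
a probability distribution over deterministic query algorithms. -/
noncomputable def expCost (μ : PMF (DTree V)) (G : SimpleGraph V) : ℝ≥0∞ :=
  ∑' T : DTree V, μ T * (T.cost G : ℝ≥0∞)

/-- The zero-error randomized query complexity of the property `P`: the infimum over all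
probability distributions on deterministic query algorithms computing `P`, of the maximum over
all input graphs of the expected number of queries. -/
noncomputable def R (P : SimpleGraph V → Prop) : ℝ≥0∞ :=
  ⨅ μ : PMF (DTree V), ⨅ _ : (∀ T ∈ μ.support, Computes T P), ⨆ G : SimpleGraph V, expCost μ G

/-- Lower bounds from a distribution on inputs (the easy direction of the minimax principle). -/
theorem le_R_of_distribution {P : SimpleGraph V → Prop} {ι : Type*} (s : Finset ι)
    (w : ι → ℝ≥0∞) (g : ι → SimpleGraph V) (hw : ∑ i ∈ s, w i = 1) (B : ℝ≥0∞)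
    (hB : ∀ T : DTree V, Computes T P → B ≤ ∑ i ∈ s, w i * (T.cost (g i) : ℝ≥0∞)) :
    B ≤ R P := by
  refine le_iInf fun μ => le_iInf fun hμ => ?_
  have h1 : ∑ i ∈ s, w i * expCost μ (g i) ≤ ⨆ G : SimpleGraph V, expCost μ G := by
    calc ∑ i ∈ s, w i * expCost μ (g i)
        ≤ ∑ i ∈ s, w i * (⨆ G : SimpleGraph V, expCost μ G) :=
          Finset.sum_le_sum fun i _ => mul_le_mul_right (le_iSup (fun G => expCost μ G) (g i)) _
      _ = (⨆ G : SimpleGraph V, expCost μ G) := by
          rw [← Finset.sum_mul, hw, one_mul]
  refine le_trans ?_ h1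
  have h2 : ∑ i ∈ s, w i * expCost μ (g i)
      = ∑' T : DTree V, μ T * ∑ i ∈ s, w i * (T.cost (g i) : ℝ≥0∞) := by
    have : ∀ i ∈ s, w i * expCost μ (g i) = ∑' T : DTree V, w i * (μ T * (T.cost (g i) : ℝ≥0∞)) := by
      intro i _
      rw [expCost, ENNReal.tsum_mul_left]
    rw [Finset.sum_congr rfl this, ← Summable.tsum_finsetSum (fun i _ => ENNReal.summable)]
    refine tsum_congr fun T => ?_
    rw [Finset.mul_sum]
    refine Finset.sum_congr rfl fun i _ => ?_
    ring
  rw [h2]
  calc B = (∑' T : DTree V, μ T) * B := by rw [PMF.tsum_coe, one_mul]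
    _ = ∑' T : DTree V, μ T * B := by rw [ENNReal.tsum_mul_right]
    _ ≤ ∑' T : DTree V, μ T * ∑ i ∈ s, w i * (T.cost (g i) : ℝ≥0∞) := by
        refine ENNReal.tsum_le_tsum fun T => ?_
        by_cases hT : μ T = 0
        · simp [hT]
        · exact mul_le_mul_right (hB T (hμ T ((PMF.mem_support_iff _ _).2 hT))) _

/-- The same with real weights. -/
theorem le_R_of_distribution_real {P : SimpleGraph V → Prop} {ι : Type*} (s : Finset ι)
    (w : ι → ℝ) (g : ι → SimpleGraph V) (hw0 : ∀ i ∈ s, 0 ≤ w i) (hw : ∑ i ∈ s, w i = 1) (B : ℝ)
    (hB : ∀ T : DTree V, Computes T P → B ≤ ∑ i ∈ s, w i * (T.cost (g i) : ℝ)) :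
    ENNReal.ofReal B ≤ R P := by
  refine le_R_of_distribution s (fun i => ENNReal.ofReal (w i)) g ?_ _ ?_
  · rw [← ENNReal.ofReal_sum_of_nonneg hw0, hw, ENNReal.ofReal_one]
  · intro T hT
    have h1 : ∑ i ∈ s, ENNReal.ofReal (w i) * (T.cost (g i) : ℝ≥0∞)
        = ENNReal.ofReal (∑ i ∈ s, w i * (T.cost (g i) : ℝ)) := by
      rw [ENNReal.ofReal_sum_of_nonneg (fun i hi => mul_nonneg (hw0 i hi) (Nat.cast_nonneg _))]
      refine Finset.sum_congr rfl fun i hi => ?_
      rw [ENNReal.ofReal_mul (hw0 i hi), ENNReal.ofReal_natCast]
    rw [h1]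
    exact ENNReal.ofReal_le_ofReal (hB T hT)

end Pool.Agent.KarpGP
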