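import Pool.Agent.KarpGP.Choice

/-!
Certificate bounds in terms of complete split graphs.
-/

set_option autoImplicit false

set_option linter.unusedSectionVars false

open scoped ENNReal
open Classical

namespace Pool.Agent.KarpGP

universe u

variable {V : Type u} [Fintype V]

/-- Two colourings with equal class sizes differ by a permutation. -/
theorem exists_perm_of_fibers (c c' : V → ℕ)
    (h : ∀ i, (Finset.univ.filter (fun v => c v = i)).card =
      (Finset.univ.filter (fun v => c' v = i)).card) :
    ∃ π : Equiv.Perm V, ∀ v, c' (π v) = c v := by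
  have e : ∀ i, {v // c v = i} ≃ {v // c' v = i} := by
    intro i
    refine Fintype.equivOfCardEq ?_
    rw [Fintype.card_subtype, Fintype.card_subtype, h i]
  refine ⟨(Equiv.sigmaFiberEquiv c).symm.trans
    ((Equiv.sigmaCongrRight e).trans (Equiv.sigmaFiberEquiv c')), fun v => ?_⟩
  exact (e (c v) ⟨v, rfl⟩).2

/-- The class function of a set, a vertex and a further set. -/
noncomputable def cls (Z : Finset V) (w : V) (S : Finset V) : V → ℕ :=
  fun v => if v ∈ Z then 0 else if v = w then 1 else if v ∈ S then 2 else 3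

theorem exists_perm_config (Z Z' : Finset V) (w w' : V) (S S' : Finset V) (hw : w ∉ Z)
    (hw' : w' ∉ Z') (hS : ∀ x ∈ S, x ∉ Z ∧ x ≠ w) (hS' : ∀ x ∈ S', x ∉ Z' ∧ x ≠ w')
    (hZ : Z.card = Z'.card) (hSc : S.card = S'.card) :
    ∃ π : Equiv.Perm V, (∀ x ∈ Z, π x ∈ Z') ∧ π w = w' ∧ (∀ x ∈ S, π x ∈ S') ∧
      (∀ x, π x ∈ Z' → x ∈ Z) ∧ (∀ x, π x ∈ S' → x ∈ S) := by
  have f0 : ∀ (Z : Finset V) (w : V) (S : Finset V), w ∉ Z → (∀ x ∈ S, x ∉ Z ∧ x ≠ w) →
      (∀ v, cls Z w S v = 0 ↔ v ∈ Z) ∧ (∀ v, cls Z w S v = 1 ↔ v = w) ∧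
      (∀ v, cls Z w S v = 2 ↔ v ∈ S) ∧
      (∀ v, cls Z w S v = 0 ∨ cls Z w S v = 1 ∨ cls Z w S v = 2 ∨ cls Z w S v = 3) := by
    intro Z w S hw hS
    refine ⟨fun v => ?_, fun v => ?_, fun v => ?_, fun v => ?_⟩ <;> unfold cls
    · split_ifs <;> simp_all
    · split_ifs with h1 h2 h3
      · simp only [false_iff]
        rintro rfl; exact hw h1
      · simp [h2]
      · simp [h2]
      · simp [h2]
    · split_ifs with h1 h2 h3
      · simp only [false_iff]
        exact fun h => (hS v h).1 h1
      · simp only [OfNat.one_ne_ofNat, false_iff]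
        exact fun h => (hS v h).2 h2
      · simp [h3]
      · simp [h3]
    · split_ifs <;> simp
  obtain ⟨a0, a1, a2, a3⟩ := f0 Z w S hw hS
  obtain ⟨b0, b1, b2, b3⟩ := f0 Z' w' S' hw' hS'
  have c0 : (Finset.univ.filter (fun v => cls Z w S v = 0)).card = Z.card := by
    congr 1; ext v; simp [a0]
  have c1 : (Finset.univ.filter (fun v => cls Z w S v = 1)).card = 1 := by
    have : Finset.univ.filter (fun v => cls Z w S v = 1) = {w} := by ext v; simp [a1]
    rw [this, Finset.card_singleton]
  have c2 : (Finset.univ.filter (fun v => cls Z w S v = 2)).card = S.card := by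
    congr 1; ext v; simp [a2]
  have d0 : (Finset.univ.filter (fun v => cls Z' w' S' v = 0)).card = Z'.card := by
    congr 1; ext v; simp [b0]
  have d1 : (Finset.univ.filter (fun v => cls Z' w' S' v = 1)).card = 1 := by
    have : Finset.univ.filter (fun v => cls Z' w' S' v = 1) = {w'} := by ext v; simp [b1]
    rw [this, Finset.card_singleton]
  have d2 : (Finset.univ.filter (fun v => cls Z' w' S' v = 2)).card = S'.card := by
    congr 1; ext v; simp [b2]
  have tot : ∀ (Z : Finset V) (w : V) (S : Finset V), (∀ v, cls Z w S v = 0 ∨ cls Z w S v = 1 ∨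
      cls Z w S v = 2 ∨ cls Z w S v = 3) →
      (Finset.univ.filter (fun v => cls Z w S v = 0)).card +
      (Finset.univ.filter (fun v => cls Z w S v = 1)).card +
      (Finset.univ.filter (fun v => cls Z w S v = 2)).card +
      (Finset.univ.filter (fun v => cls Z w S v = 3)).card = Fintype.card V := by
    intro Z w S h3
    have h4 := Finset.card_eq_sum_card_fiberwise (s := (Finset.univ : Finset V))
      (t := Finset.range 4) (f := cls Z w S) (fun v _ => by
        rw [Finset.mem_coe, Finset.mem_range]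
        rcases h3 v with h | h | h | h <;> omega)
    rw [Finset.card_univ] at h4
    rw [h4]
    simp [Finset.sum_range_succ]
  have t1 := tot Z w S a3
  have t2 := tot Z' w' S' b3
  obtain ⟨π, hπ⟩ := exists_perm_of_fibers (cls Z w S) (cls Z' w' S') (by
    intro i
    by_cases h0 : i = 0
    · subst h0; rw [c0, d0, hZ]
    · by_cases h1 : i = 1
      · subst h1; rw [c1, d1]
      · by_cases h2 : i = 2
        · subst h2; rw [c2, d2, hSc]
        · by_cases h3 : i = 3
          · subst h3; omega
          · have e1 : Finset.univ.filter (fun v => cls Z w S v = i) = ∅ := by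
              rw [Finset.eq_empty_iff_forall_notMem]
              intro v hv
              rw [Finset.mem_filter] at hv
              rcases a3 v with h | h | h | h <;> omega
            have e2 : Finset.univ.filter (fun v => cls Z' w' S' v = i) = ∅ := by
              rw [Finset.eq_empty_iff_forall_notMem]
              intro v hv
              rw [Finset.mem_filter] at hv
              rcases b3 v with h | h | h | h <;> omega
            rw [e1, e2])
  refine ⟨π, fun x hx => ?_, ?_, fun x hx => ?_, fun x hx => ?_, fun x hx => ?_⟩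
  · rw [← b0, hπ, a0]; exact hx
  · rw [← b1, hπ, a1]
  · rw [← b2, hπ, a2]; exact hx
  · rw [← a0, ← hπ, b0]; exact hx
  · rw [← a2, ← hπ, b2]; exact hx

/-- The complete split graph with centre `Z` plus the edges from `w` to `S`. -/
def split (Z : Finset V) (w : V) (S : Finset V) : SimpleGraph V where
  Adj u v := u ≠ v ∧ (u ∈ Z ∨ v ∈ Z ∨ (u = w ∧ v ∈ S) ∨ (v = w ∧ u ∈ S))
  symm := ⟨fun _ _ h => ⟨h.1.symm, by tauto⟩⟩
  loopless := ⟨fun _ h => h.1 rfl⟩

/-- Isomorphism invariance through permutations. -/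
theorem IsoInv.perm {P : SimpleGraph V → Prop} (hinv : IsoInv P) (hP : Mono P)
    {G G' : SimpleGraph V} (π : Equiv.Perm V) (h : ∀ u v, G.Adj u v → G'.Adj (π u) (π v))
    (hG : P G) : P G' := by
  refine hP (copyG G π.symm) _ ?_ (hinv G _ ⟨⟨π, ?_⟩⟩ hG)
  · intro a c hac
    have h3 : G.Adj (π.symm a) (π.symm c) := by simpa [copyG] using hac
    have h4 := h _ _ h3
    simpa using h4
  · intro a c
    simp [copyG]

theorem split_iso {P : SimpleGraph V → Prop} (hP : Mono P) (hinv : IsoInv P)
    (Z Z' : Finset V) (w w' : V) (S S' : Finset V) (hw : w ∉ Z)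
    (hw' : w' ∉ Z') (hS : ∀ x ∈ S, x ∉ Z ∧ x ≠ w) (hS' : ∀ x ∈ S', x ∉ Z' ∧ x ≠ w')
    (hZ : Z.card = Z'.card) (hSc : S.card = S'.card) (h : P (split Z w S)) :
    P (split Z' w' S') := by
  obtain ⟨π, h1, h2, h3, -, -⟩ := exists_perm_config Z Z' w w' S S' hw hw' hS hS' hZ hSc
  refine hinv.perm hP π ?_ h
  rintro u v ⟨huv, h4⟩
  refine ⟨fun h => huv (π.injective h), ?_⟩
  rcases h4 with h4 | h4 | ⟨rfl, h4⟩ | ⟨rfl, h4⟩
  · exact Or.inl (h1 _ h4)
  · exact Or.inr (Or.inl (h1 _ h4))
  · exact Or.inr (Or.inr (Or.inl ⟨h2, h3 _ h4⟩))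
  · exact Or.inr (Or.inr (Or.inr ⟨h2, h3 _ h4⟩))

/-- Minimal graphs exist below every graph with the property. -/
theorem exists_minimal {P : SimpleGraph V → Prop} (G : SimpleGraph V) (hG : P G) :
    ∃ G₀ ≤ G, P G₀ ∧ ∀ G' < G₀, ¬ P G' := by
  obtain ⟨G₀, h1, h2⟩ := Finset.exists_min_image
    (Finset.univ.filter (fun G' : SimpleGraph V => G' ≤ G ∧ P G')) (fun G' => (edges G').card)
    ⟨G, by simp [hG]⟩
  rw [Finset.mem_filter] at h1
  refine ⟨G₀, h1.2.1, h1.2.2, fun G' hlt hP' => ?_⟩
  have h3 := h2 G' (by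
    rw [Finset.mem_filter]
    exact ⟨Finset.mem_univ _, hlt.le.trans h1.2.1, hP'⟩)
  have h4 := edges_lt_of_lt hlt
  omega

/-- The certificate bound. -/
theorem cert_bound {P : SimpleGraph V → Prop} (hP : Mono P) (hinv : IsoInv P) (t : ℕ)
    (ht : 1 ≤ t) (T : Finset V) (hT : T.card = t) (hPT : P (dom T))
    (hnot : ∀ Z : Finset V, Z.card = t - 1 → ¬ P (dom Z)) :
    ∃ d : ℕ, d + t ≤ Fintype.card V ∧ 1 ≤ d ∧
      (∃ (Z : Finset V) (w : V) (S : Finset V), Z.card = t - 1 ∧ w ∉ Z ∧
        (∀ x ∈ S, x ∉ Z ∧ x ≠ w) ∧ S.card = d ∧ P (split Z w S)) ∧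
      (∀ (Z : Finset V) (w : V) (S : Finset V), Z.card = t - 1 → w ∉ Z →
        (∀ x ∈ S, x ∉ Z ∧ x ≠ w) → P (split Z w S) → d ≤ S.card) ∧
      ENNReal.ofReal ((t : ℝ) * d) ≤ R P ∧
      ENNReal.ofReal (((Fintype.card V : ℝ) - t + 1) * ((Fintype.card V : ℝ) - t + 1 - d) / 2)
        ≤ R P := by
  -- the set of all admissible `d`
  set A : Set ℕ := {d | ∃ (Z : Finset V) (w : V) (S : Finset V), Z.card = t - 1 ∧ w ∉ Z ∧
        (∀ x ∈ S, x ∉ Z ∧ x ≠ w) ∧ S.card = d ∧ P (split Z w S)} with hA
  have hne : T.Nonempty := by rw [← Finset.card_pos]; omega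
  obtain ⟨w0, hw0⟩ := hne
  have hmemA : (Fintype.card V - t) ∈ A := by
    refine ⟨T.erase w0, w0, Finset.univ \ T, ?_, Finset.notMem_erase _ _, ?_, ?_, ?_⟩
    · rw [Finset.card_erase_of_mem hw0, hT]
    · intro x hx
      rw [Finset.mem_sdiff] at hx
      refine ⟨fun h => hx.2 (Finset.mem_of_mem_erase h), ?_⟩
      rintro rfl; exact hx.2 hw0
    · rw [Finset.card_sdiff_of_subset (Finset.subset_univ _), Finset.card_univ, hT]
    · refine hP _ _ ?_ hPT
      rintro u v ⟨huv, h⟩
      refine ⟨huv, ?_⟩
      by_cases hu : u ∈ T.erase w0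
      · exact Or.inl hu
      · by_cases hv : v ∈ T.erase w0
        · exact Or.inr (Or.inl hv)
        · rw [Finset.mem_erase, not_and] at hu hv
          rcases h with h | h
          · have hu' : u = w0 := by
              by_contra hc; exact hu hc h
            right; right; left
            refine ⟨hu', ?_⟩
            rw [Finset.mem_sdiff]
            refine ⟨Finset.mem_univ _, fun hvT => hv ?_ hvT⟩
            rintro rfl; exact huv hu'
          · have hv' : v = w0 := by
              by_contra hc; exact hv hc h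
            right; right; right
            refine ⟨hv', ?_⟩
            rw [Finset.mem_sdiff]
            refine ⟨Finset.mem_univ _, fun huT => hu ?_ huT⟩
            rintro rfl; exact huv hv'.symm
  set d : ℕ := sInf A with hd
  have hdA : d ∈ A := Nat.sInf_mem ⟨_, hmemA⟩
  have hdle : d ≤ Fintype.card V - t := Nat.sInf_le hmemA
  have htn : t ≤ Fintype.card V := by rw [← hT]; exact Finset.card_le_univ _
  have hd1 : 1 ≤ d := by
    by_contra hc
    have hd0 : d = 0 := by omega
    obtain ⟨Z, w, S, h1, h2, h3, h4, h5⟩ := hdA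
    rw [hd0] at h4
    rw [Finset.card_eq_zero] at h4
    subst h4
    refine hnot Z h1 (hP _ _ ?_ h5)
    rintro u v ⟨huv, h⟩
    exact ⟨huv, by simpa using h⟩
  refine ⟨d, by omega, hd1, hdA, fun Z w S k1 k2 k3 k4 =>
    Nat.sInf_le ⟨Z, w, S, k1, k2, k3, rfl, k4⟩, ?_, ?_⟩
  · -- minimal graph
    obtain ⟨Z, w, S, h1, h2, h3, h4, h5⟩ := hdA
    obtain ⟨G, hG1, hG2, hG3⟩ := exists_minimal _ h5
    refine le_trans (ENNReal.ofReal_le_ofReal ?_) (card_edges_le_R hG2 hG3)
    set C : Finset V := insert w Z with hC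
    have hCc : C.card = t := by
      rw [hC, Finset.card_insert_of_notMem h2, h1]; omega
    -- every cover vertex has many outside neighbours
    have hout : ∀ c ∈ C, d ≤ (Finset.univ.filter (fun x => G.Adj c x ∧ x ∉ C)).card := by
      intro c hc
      refine Nat.sInf_le ⟨C.erase c, c, Finset.univ.filter (fun x => G.Adj c x ∧ x ∉ C), ?_,
        Finset.notMem_erase _ _, ?_, rfl, ?_⟩
      · rw [Finset.card_erase_of_mem hc, hCc]
      · intro x hx
        rw [Finset.mem_filter] at hx
        refine ⟨fun h => hx.2.2 (Finset.mem_of_mem_erase h), ?_⟩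
        rintro rfl; exact hx.2.1.ne rfl
      · refine hP _ _ ?_ hG2
        intro u v huv
        refine ⟨huv.ne, ?_⟩
        have hcov : u ∈ C ∨ v ∈ C := by
          have := hG1 huv
          rcases this.2 with h | h | ⟨h, -⟩ | ⟨h, -⟩
          · exact Or.inl (Finset.mem_insert_of_mem h)
          · exact Or.inr (Finset.mem_insert_of_mem h)
          · exact Or.inl (h ▸ Finset.mem_insert_self _ _)
          · exact Or.inr (h ▸ Finset.mem_insert_self _ _)
        by_cases hu : u ∈ C.erase c
        · exact Or.inl hu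
        · by_cases hv : v ∈ C.erase c
          · exact Or.inr (Or.inl hv)
          · rw [Finset.mem_erase, not_and] at hu hv
            rcases hcov with h | h
            · have hu' : u = c := by
                by_contra hcon; exact hu hcon h
              right; right; left
              refine ⟨hu', ?_⟩
              rw [Finset.mem_filter]
              refine ⟨Finset.mem_univ _, hu' ▸ huv, fun hvT => hv ?_ hvT⟩
              rintro rfl; exact huv.ne hu'
            · have hv' : v = c := by
                by_contra hcon; exact hv hcon h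
              right; right; right
              refine ⟨hv', ?_⟩
              rw [Finset.mem_filter]
              refine ⟨Finset.mem_univ _, hv' ▸ huv.symm, fun huT => hu ?_ huT⟩
              rintro rfl; exact huv.ne hv'.symm
    have hcount : t * d ≤ (edges G).card := by
      have h6 : (C.sigma (fun c => Finset.univ.filter (fun x => G.Adj c x ∧ x ∉ C))).card ≤
          (edges G).card := by
        refine Finset.card_le_card_of_injOn (fun p => s(p.1, p.2)) ?_ ?_
        · rintro ⟨c, x⟩ hp
          rw [Finset.mem_coe, Finset.mem_sigma, Finset.mem_filter] at hp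
          rw [Finset.mem_coe, mem_edges]
          exact hp.2.2.1
        · rintro ⟨c, x⟩ hp ⟨c', x'⟩ hp' heq
          rw [Finset.mem_coe, Finset.mem_sigma, Finset.mem_filter] at hp hp'
          simp only [Sym2.eq_iff] at heq
          rcases heq with ⟨rfl, rfl⟩ | ⟨rfl, rfl⟩
          · rfl
          · exact absurd hp.1 hp'.2.2.2
      rw [Finset.card_sigma] at h6
      have h7 := Finset.card_nsmul_le_sum C
        (fun c => (Finset.univ.filter (fun x => G.Adj c x ∧ x ∉ C)).card) d hout
      rw [hCc, smul_eq_mul] at h7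
      exact h7.trans h6
    exact_mod_cast hcount
  · -- the other certificate
    obtain ⟨Z, w, S, h1, h2, h3, h4, h5⟩ := hdA
    have hnZ : ¬ P (dom Z) := hnot Z h1
    set N : Finset (Sym2 V) := (allPairs V).filter (fun e => ∀ v ∈ e, v ∉ Z) with hN
    have hcoN : co N = dom Z := by
      ext u v
      rw [co_adj, hN, Finset.mem_filter, mem_allPairs]
      simp only [dom, Sym2.mk_isDiag_iff, Sym2.mem_iff, forall_eq_or_imp, forall_eq]
      tauto
    refine le_R_of_input (dom Z) _ fun T' hT' => ?_
    have h6 := not_P_co_asked hT' (N := N) (by rw [hcoN]; exact hnZ)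
    rw [hcoN] at h6
    set N' : Finset (Sym2 V) := T'.asked (dom Z) ∩ N with hN'
    have h7 : (N'.card : ℝ) ≤ (T'.cost (dom Z) : ℝ) := by
      exact_mod_cast (Finset.card_le_card Finset.inter_subset_left).trans (T'.card_asked_le _)
    refine le_trans ?_ h7
    -- each vertex outside `Z` has many neighbours in `N'`
    set W : Finset V := Finset.univ \ Z with hW
    have hWc : W.card + (t - 1) = Fintype.card V := by
      rw [hW, Finset.card_sdiff_of_subset (Finset.subset_univ _), Finset.card_univ, h1]
      omega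
    have hdeg : ∀ x ∈ W, W.card ≤ dgin N' W x + d := by
      intro x hx
      by_contra hcon
      push Not at hcon
      rw [hW, Finset.mem_sdiff] at hx
      -- the non-neighbours of `x` in `W`
      have h8 : d ≤ ((W.erase x).filter (fun y => ¬ (gr N').Adj x y)).card := by
        have h9 := Finset.card_filter_add_card_filter_not (s := W.erase x)
          (fun y => (gr N').Adj x y)
        have h10 : ((W.erase x).filter (fun y => (gr N').Adj x y)).card ≤ dgin N' W x :=
          Finset.card_le_card (Finset.filter_subset_filter _ (Finset.erase_subset _ _))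
        have h11 : (W.erase x).card = W.card - 1 := by
          rw [Finset.card_erase_of_mem]
          rw [hW, Finset.mem_sdiff]; exact hx
        omega
      obtain ⟨S', hS'1, hS'2⟩ := Finset.exists_subset_card_eq h8
      apply h6
      have hS'3 : ∀ y ∈ S', y ∉ Z ∧ y ≠ x ∧ ¬ (gr N').Adj x y := by
        intro y hy
        have := hS'1 hy
        rw [Finset.mem_filter, Finset.mem_erase, hW, Finset.mem_sdiff] at this
        exact ⟨this.1.2.2, this.1.1, this.2⟩
      have h12 := split_iso hP hinv Z Z w x S S' h2 hx.2 h3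
        (fun y hy => ⟨(hS'3 y hy).1, (hS'3 y hy).2.1⟩) rfl (by rw [h4, hS'2]) h5
      refine hP _ _ ?_ h12
      rintro u v ⟨huv, h⟩
      rw [co_adj]
      refine ⟨fun hmem => ?_, huv⟩
      have hmemN : s(u, v) ∈ N := (Finset.mem_inter.1 hmem).2
      rw [hN, Finset.mem_filter] at hmemN
      rcases h with h | h | ⟨rfl, h⟩ | ⟨rfl, h⟩
      · exact hmemN.2 u (by simp) h
      · exact hmemN.2 v (by simp) h
      · exact (hS'3 v h).2.2 (gr_adj.2 ⟨hmem, huv⟩)
      · exact (hS'3 u h).2.2 (gr_adj.2 ⟨by rw [Sym2.eq_swap]; exact hmem, huv.symm⟩)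
    have h8 : W.card * (W.card - d) ≤ ∑ x ∈ W, dgin N' W x := by
      have := Finset.card_nsmul_le_sum W (fun x => dgin N' W x) (W.card - d) (fun x hx => by
        have := hdeg x hx; omega)
      simpa using this
    have h9 := card_sigma_le_two N' W
    have h10 : (inner W ∩ N').card ≤ N'.card := Finset.card_le_card Finset.inter_subset_right
    have h11 : W.card * (W.card - d) ≤ 2 * N'.card := by omega
    have hdW : d ≤ W.card := by omega
    have h12 : (W.card : ℝ) * ((W.card : ℝ) - d) ≤ 2 * N'.card := by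
      rw [← Nat.cast_sub hdW]; exact_mod_cast h11
    have h13 : (W.card : ℝ) = (Fintype.card V : ℝ) - t + 1 := by
      have : (W.card : ℝ) + ((t : ℝ) - 1) = Fintype.card V := by
        have h14 : ((t - 1 : ℕ) : ℝ) = (t : ℝ) - 1 := by
          rw [Nat.cast_sub ht]; simp
        rw [← h14]; exact_mod_cast hWc
      linarith
    rw [h13] at h12
    linarith

/-- The certificate bound, combined. -/
theorem cert_bound' {P : SimpleGraph V → Prop} (hP : Mono P) (hinv : IsoInv P) (t : ℕ)
    (ht : 1 ≤ t) (T : Finset V) (hT : T.card = t) (hPT : P (dom T))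
    (hnot : ∀ Z : Finset V, Z.card = t - 1 → ¬ P (dom Z)) :
    ENNReal.ofReal (((Fintype.card V : ℝ) - t + 1) *
      min ((Fintype.card V : ℝ) - t + 1) (2 * t) / 4) ≤ R P := by
  obtain ⟨d, h1, h2, -, -, h3, h4⟩ := cert_bound hP hinv t ht T hT hPT hnot
  set m : ℝ := (Fintype.card V : ℝ) - t + 1 with hm
  have hm0 : 0 ≤ m := by
    have : (t : ℝ) ≤ Fintype.card V := by exact_mod_cast (by omega : t ≤ Fintype.card V)
    linarith
  have ht0 : (0 : ℝ) ≤ t := Nat.cast_nonneg _
  by_cases hc : (d : ℝ) ≤ m / 2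
  · refine le_trans (ENNReal.ofReal_le_ofReal ?_) h4
    have h5 := min_le_left m (2 * (t : ℝ))
    nlinarith
  · push Not at hc
    refine le_trans (ENNReal.ofReal_le_ofReal ?_) h3
    have h5 := min_le_right m (2 * (t : ℝ))
    nlinarith

end Pool.Agent.KarpGP
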