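import Pool.Agent.KarpGP.PartTwoB

/-!
The choice of the set of dominating vertices.
-/

set_option autoImplicit false

set_option linter.unusedSectionVars false

open scoped ENNReal
open Classical

namespace Pool.Agent.KarpGP

universe u

/-- The pigeonhole step. -/
theorem pigeon (e : ℕ → ℕ) (hanti : ∀ z, e (z + 1) ≤ e z) (s J : ℕ) (hs : 0 < s)
    (hJ : 1 ≤ e (J * s))
    (h0 : e 0 < 2 ^ J) : ∃ z, z < J * s ∧ s * (e z - e (z + 1)) ≤ e z := by
  by_contra hcon
  push Not at hcon
  have hant : ∀ a b, a ≤ b → e b ≤ e a := by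
    intro a b hab
    induction hab with
    | refl => exact le_rfl
    | step _ ih => exact (hanti _).trans ih
  have key : ∀ j, j ≤ J → 2 ^ j * e (j * s) ≤ e 0 := by
    intro j
    induction j with
    | zero => intro _; simp
    | succ j ih =>
      intro hj
      have ih' := ih (by omega)
      have h3 : (j + 1) * s = j * s + s := by ring
      have hJ' : (j + 1) * s ≤ J * s := Nat.mul_le_mul_right _ hj
      -- telescoping over the block
      have hblock : ∀ k, k ≤ s → k * e ((j + 1) * s) ≤ s * (e (j * s) - e (j * s + k)) := by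
        intro k
        induction k with
        | zero => intro _; simp
        | succ k ihk =>
          intro hk
          have h1 := ihk (by omega)
          have hlt : j * s + k < J * s := by omega
          have h2 := hcon (j * s + k) hlt
          have h4 : e ((j + 1) * s) ≤ e (j * s + k) := hant _ _ (by omega)
          have h5 := hant (j * s) (j * s + k) (by omega)
          have h6 := hanti (j * s + k)
          have h7 : e (j * s) - e (j * s + (k + 1)) = (e (j * s) - e (j * s + k)) +
              (e (j * s + k) - e (j * s + k + 1)) := by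
            have : j * s + (k + 1) = j * s + k + 1 := by ring
            rw [this]; omega
          rw [h7, Nat.mul_add, Nat.add_mul]
          omega
      have h1 := hblock s le_rfl
      have h2 : e ((j + 1) * s) ≤ e (j * s) - e (j * s + s) := Nat.le_of_mul_le_mul_left h1 hs
      rw [h3] at h2 ⊢
      have h4 : 2 * e (j * s + s) ≤ e (j * s) := by
        have := hant (j * s) (j * s + s) (by omega)
        omega
      calc 2 ^ (j + 1) * e (j * s + s) = 2 ^ j * (2 * e (j * s + s)) := by ring
        _ ≤ 2 ^ j * e (j * s) := Nat.mul_le_mul_left _ h4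
        _ ≤ e 0 := ih'
  have h1 := key J le_rfl
  have h2 : 2 ^ J * 1 ≤ 2 ^ J * e (J * s) := Nat.mul_le_mul_left _ hJ
  omega

variable {V : Type u} [Fintype V]

/-- The complete split graph: the vertices in `Z` are adjacent to everything. -/
def dom (Z : Finset V) : SimpleGraph V where
  Adj u v := u ≠ v ∧ (u ∈ Z ∨ v ∈ Z)
  symm := ⟨fun _ _ h => ⟨h.1.symm, h.2.symm⟩⟩
  loopless := ⟨fun _ h => h.1 rfl⟩

/-- The part of a graph outside `Z`. -/
def off (Z : Finset V) (G : SimpleGraph V) : SimpleGraph {v : V // v ∉ Z} :=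
  G.comap Subtype.val

theorem le_join_off (Z : Finset V) (G : SimpleGraph V) : G ≤ join Z (off Z G) := by
  intro u v huv
  exact ⟨huv.ne, fun _ _ => huv⟩

theorem card_off (Z : Finset V) : Fintype.card {v : V // v ∉ Z} = Fintype.card V - Z.card := by
  rw [Fintype.card_subtype_compl, Fintype.card_coe]

/-- Adding a vertex to `Z`. -/
def incl (Z : Finset V) (v : V) : {w : V // w ∉ insert v Z} → {w : V // w ∉ Z} :=
  fun w => ⟨w.1, fun h => w.2 (Finset.mem_insert_of_mem h)⟩

theorem incl_injective (Z : Finset V) (v : V) : Function.Injective (incl Z v) := by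
  intro a b h
  apply Subtype.ext
  exact congrArg (fun x : {w : V // w ∉ Z} => x.1) h

theorem step_prop {P : SimpleGraph V → Prop} (hP : Mono P) (Z : Finset V) (v : V)
    (F : SimpleGraph {w : V // w ∉ Z}) (hF : PZ P Z F) :
    PZ P (insert v Z) (F.comap (incl Z v)) := by
  refine hP _ _ ?_ hF
  intro a b hab
  refine ⟨hab.1, fun ha hb => ?_⟩
  exact hab.2 _ _

theorem step_count (Z : Finset V) (v : V) (hv : v ∉ Z) (F : SimpleGraph {w : V // w ∉ Z}) :
    (edges (F.comap (incl Z v))).card + dg F ⟨v, hv⟩ ≤ (edges F).card := by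
  set f : Sym2 {w : V // w ∉ insert v Z} → Sym2 {w : V // w ∉ Z} := Sym2.map (incl Z v) with hf
  set g : {w : V // w ∉ Z} → Sym2 {w : V // w ∉ Z} := fun y => s(⟨v, hv⟩, y) with hg
  set A := (edges (F.comap (incl Z v))).image f with hA
  set B := (Finset.univ.filter (fun y => F.Adj ⟨v, hv⟩ y)).image g with hB
  have hAc : A.card = (edges (F.comap (incl Z v))).card :=
    Finset.card_image_of_injective _ (Sym2.map.injective (incl_injective Z v))
  have hBc : B.card = dg F ⟨v, hv⟩ := by
    unfold dg
    refine Finset.card_image_of_injective _ ?_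
    intro w w' h
    simp only [hg, Sym2.eq_iff] at h
    rcases h with ⟨-, h⟩ | ⟨h1, h2⟩
    · exact h
    · exact h2.trans h1
  have hdisj : Disjoint A B := by
    rw [Finset.disjoint_left]
    intro x hxA hxB
    rw [hA, Finset.mem_image] at hxA
    rw [hB, Finset.mem_image] at hxB
    obtain ⟨e, -, rfl⟩ := hxA
    obtain ⟨y, -, hy⟩ := hxB
    have h1 : (⟨v, hv⟩ : {w : V // w ∉ Z}) ∈ f e := by rw [← hy]; simp [hg]
    rw [hf, Sym2.mem_map] at h1
    obtain ⟨a, -, ha⟩ := h1
    have h2 : a.1 = v := congrArg (fun x : {w : V // w ∉ Z} => x.1) ha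
    apply a.2
    rw [h2]; exact Finset.mem_insert_self _ _
  rw [← hAc, ← hBc, ← Finset.card_union_of_disjoint hdisj]
  refine Finset.card_le_card ?_
  intro x hx
  rcases Finset.mem_union.1 hx with hx | hx
  · rw [hA, Finset.mem_image] at hx
    obtain ⟨e, he, rfl⟩ := hx
    rw [mem_edges] at he ⊢
    induction e using Sym2.ind with
    | _ a b => simpa [hf] using he
  · rw [hB, Finset.mem_image] at hx
    obtain ⟨y, hy, rfl⟩ := hx
    rw [Finset.mem_filter] at hy
    rw [mem_edges]
    exact hy.2

/-- The least number of edges outside a set of `z` vertices. -/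
noncomputable def emin (P : SimpleGraph V → Prop) (z : ℕ) : ℕ :=
  sInf {k | ∃ Z : Finset V, Z.card = z ∧ ∃ F : SimpleGraph {v : V // v ∉ Z}, PZ P Z F ∧
    (edges F).card = k}

theorem join_top (Z : Finset V) : join Z (⊤ : SimpleGraph {v : V // v ∉ Z}) = ⊤ := by
  ext u v
  simp only [join, SimpleGraph.top_adj]
  constructor
  · exact fun h => h.1
  · intro h
    refine ⟨h, fun _ _ hc => h (congrArg Subtype.val hc)⟩

theorem emin_attained {P : SimpleGraph V → Prop} (htop : P ⊤) (z : ℕ)
    (hz : z ≤ Fintype.card V) :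
    ∃ Z : Finset V, Z.card = z ∧ ∃ F : SimpleGraph {v : V // v ∉ Z}, PZ P Z F ∧
      (edges F).card = emin P z := by
  have hne : {k | ∃ Z : Finset V, Z.card = z ∧ ∃ F : SimpleGraph {v : V // v ∉ Z}, PZ P Z F ∧
    (edges F).card = k}.Nonempty := by
    have hz' : z ≤ (Finset.univ : Finset V).card := by rw [Finset.card_univ]; exact hz
    obtain ⟨Z, -, hZ⟩ := Finset.exists_subset_card_eq hz'
    refine ⟨_, Z, hZ, ⊤, ?_, rfl⟩
    change P (join Z ⊤)
    rw [join_top]; exact htop
  exact Nat.sInf_mem hne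

theorem emin_le {P : SimpleGraph V → Prop} (Z : Finset V) (F : SimpleGraph {v : V // v ∉ Z})
    (hF : PZ P Z F) : emin P Z.card ≤ (edges F).card :=
  Nat.sInf_le ⟨Z, rfl, F, hF, rfl⟩

theorem emin_step {P : SimpleGraph V → Prop} (hP : Mono P) (Z : Finset V)
    (F : SimpleGraph {v : V // v ∉ Z}) (hF : PZ P Z F) (hFmin : (edges F).card = emin P Z.card)
    (v : V) (hv : v ∉ Z) : emin P (Z.card + 1) + dg F ⟨v, hv⟩ ≤ emin P Z.card := by
  have h1 := emin_le (insert v Z) _ (step_prop hP Z v F hF)
  rw [Finset.card_insert_of_notMem hv] at h1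
  have h2 := step_count Z v hv F
  omega

/-- The non-isolated vertices together with `Z` cover all edges. -/
theorem cover_dom {P : SimpleGraph V → Prop} (hP : Mono P) (Z : Finset V)
    (F : SimpleGraph {v : V // v ∉ Z}) (hF : PZ P Z F) :
    ∃ S : Finset V, S.card ≤ Z.card + nonIso F ∧ P (dom S) := by
  refine ⟨Z ∪ (Finset.univ.filter (fun x => ∃ y, F.Adj x y)).image Subtype.val, ?_, ?_⟩
  · refine (Finset.card_union_le _ _).trans (Nat.add_le_add_left Finset.card_image_le _)
  · refine hP _ _ ?_ hF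
    intro a b hab
    refine ⟨hab.1, ?_⟩
    by_cases ha : a ∈ Z
    · exact Or.inl (Finset.mem_union_left _ ha)
    · by_cases hb : b ∈ Z
      · exact Or.inr (Finset.mem_union_left _ hb)
      · left
        refine Finset.mem_union_right _ (Finset.mem_image.2 ⟨⟨a, ha⟩, ?_, rfl⟩)
        rw [Finset.mem_filter]
        exact ⟨Finset.mem_univ _, ⟨b, hb⟩, hab.2 ha hb⟩

theorem card_edges_lt (F : SimpleGraph V) (lam : ℕ) (h : Fintype.card V < 2 ^ lam) :
    (edges F).card < 2 ^ (2 * lam) := by
  have h1 : (edges F).card ≤ (Fintype.card V) ^ 2 := by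
    have : edges F ⊆ (Finset.univ : Finset (V × V)).image (fun p => s(p.1, p.2)) := by
      intro e _
      induction e using Sym2.ind with
      | _ a b => exact Finset.mem_image.2 ⟨(a, b), Finset.mem_univ _, rfl⟩
    refine (Finset.card_le_card this).trans (Finset.card_image_le.trans ?_)
    rw [Finset.card_univ, Fintype.card_prod, sq]
  refine lt_of_le_of_lt h1 ?_
  rw [pow_mul', sq, sq]
  exact Nat.mul_lt_mul'' h h

theorem emin_anti {P : SimpleGraph V → Prop} (hP : Mono P) (htop : P ⊤) (z : ℕ)
    (hz : z < Fintype.card V) : emin P (z + 1) ≤ emin P z := by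
  obtain ⟨Z, hZ, F, hF, hmin⟩ := emin_attained htop z hz.le
  have : ∃ v, v ∉ Z := by
    by_contra hcon
    push Not at hcon
    have h1 : Fintype.card V ≤ Z.card := by
      rw [← Finset.card_univ]; exact Finset.card_le_card fun x _ => hcon x
    omega
  obtain ⟨v, hv⟩ := this
  subst hZ
  have := emin_step hP Z F hF hmin v hv
  omega

/-- The second part: properties without small vertex covers and with few minimal graphs. -/
theorem second_part {P : SimpleGraph V → Prop} (hP : Mono P) (hinv : IsoInv P) (htop : P ⊤)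
    (n lam Lam : ℕ) (hn : Fintype.card V = n) (hlam : n < 2 ^ lam) (hlL : 1 ≤ Lam)
    (hlam1 : 1 ≤ lam) (hbig : 4 * lam ≤ n)
    (ht : ∀ S : Finset V, 10 * S.card ≤ 9 * n → ¬ P (dom S))
    {ι : Type*} (I : Finset ι) (g : ι → SimpleGraph V) (hcover : ∀ G, P G → ∃ i ∈ I, g i ≤ G)
    (hI : I.card ≤ 2 ^ (n * Lam)) (hIP : ∀ i ∈ I, P (g i)) :
    ENNReal.ofReal ((n : ℝ) ^ 2 / (25000000 * ((lam : ℝ) * Lam) ^ 2)) ≤ R P := by
  subst hn
  set n : ℕ := Fintype.card V with hndef
  set s : ℕ := n / (4 * lam) with hs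
  have hs0 : 0 < s := Nat.div_pos hbig (by omega)
  have hs1 : s * (4 * lam) ≤ n := Nat.div_mul_le_self _ _
  have hs2 : n < 4 * lam * (s + 1) := Nat.lt_mul_div_succ n (by omega)
  have hJs : 2 * (2 * lam * s) ≤ n := by
    calc 2 * (2 * lam * s) = s * (4 * lam) := by ring
      _ ≤ n := hs1
  -- positivity of emin up to n/2
  have hpos : ∀ z, 2 * z ≤ n → n ≤ 5 * (n - z) ∧ ∀ Z : Finset V, Z.card = z →
      ∀ F : SimpleGraph {v : V // v ∉ Z}, PZ P Z F → n ≤ 5 * nonIso F := by
    intro z hz
    refine ⟨by omega, fun Z hZ F hF => ?_⟩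
    obtain ⟨S, hS1, hS2⟩ := cover_dom hP Z F hF
    by_contra hcon
    push Not at hcon
    apply ht S _ hS2
    omega
  have hepos : 1 ≤ emin P (2 * lam * s) := by
    obtain ⟨Z, hZ, F, hF, hmin⟩ := emin_attained htop (2 * lam * s) (by omega)
    have h1 := (hpos _ hJs).2 Z hZ F hF
    have h2 := nonIso_le F
    omega
  -- cut off the function to get monotonicity everywhere
  let e : ℕ → ℕ := fun z => if z ≤ n then emin P z else 0
  have he : ∀ z, z ≤ n → e z = emin P z := fun z hz => if_pos hz
  obtain ⟨z, hz1, hz2⟩ := pigeon e (by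
    intro z
    by_cases hz : z + 1 ≤ n
    · rw [he _ hz, he _ (by omega)]
      exact emin_anti hP htop z (by omega)
    · have : e (z + 1) = 0 := if_neg hz
      omega) s (2 * lam) hs0 (by rw [he _ (by omega)]; exact hepos) (by
      rw [he _ (by omega)]
      obtain ⟨Z, hZ, F, hF, hmin⟩ := emin_attained htop 0 (by omega)
      rw [← hmin]
      refine card_edges_lt F lam ?_
      rw [card_off]
      omega)
  have hzn : 2 * z ≤ n := by omega
  rw [he _ (by omega), he _ (by omega)] at hz2
  obtain ⟨Z, hZ, F, hF, hmin⟩ := emin_attained htop z (by omega)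
  subst hZ
  have hcard : Fintype.card {v : V // v ∉ Z} = n - Z.card := card_off Z
  have hnon := (hpos _ hzn).2 Z rfl F hF
  -- the maximum degree
  set D : ℕ := Finset.univ.sup (fun v => dg F v) with hD
  have hDle : ∀ x, dg F x ≤ D := fun x => Finset.le_sup (f := fun v => dg F v) (Finset.mem_univ x)
  have hDs : s * D ≤ (edges F).card := by
    rw [hmin]
    refine le_trans (Nat.mul_le_mul_left _ ?_) hz2
    refine Finset.sup_le fun x _ => ?_
    have := emin_step hP Z F hF hmin x.1 x.2
    have h2 : dg F x = dg F ⟨x.1, x.2⟩ := rfl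
    omega
  have hn1 : 1 ≤ n := by omega
  have hD0 : 0 < D := by
    have h1 : 0 < nonIso F := by omega
    unfold nonIso at h1
    obtain ⟨x, hx⟩ := Finset.card_pos.1 h1
    obtain ⟨y, hy⟩ := (Finset.mem_filter.1 hx).2
    refine lt_of_lt_of_le ?_ (hDle x)
    unfold dg
    exact Finset.card_pos.2 ⟨y, by simp [hy]⟩
  refine le_trans ?_ (R_PZ_le P Z)
  refine part_two (hP.pz Z) (hinv.pz Z) hF (fun G hG => ?_) D hD0 hDle n lam Lam s hlam1 hlL hn1
    (by omega) (by omega) hlam ?_ hDs hnon I (fun i => off Z (g i)) ?_ hI ?_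
  · rw [hmin]; exact emin_le Z G hG
  · -- n ≤ 8 lam s
    have h1 : s + 1 ≤ 2 * s := by omega
    calc n ≤ 4 * lam * (s + 1) := hs2.le
      _ ≤ 4 * lam * (2 * s) := Nat.mul_le_mul_left _ h1
      _ = 8 * lam * s := by ring
  · intro G hG
    obtain ⟨i, hi, hle⟩ := hcover _ hG
    refine ⟨i, hi, ?_⟩
    intro a b hab
    have h1 : (join Z G).Adj a.1 b.1 := hle hab
    exact h1.2 a.2 b.2
  · intro i hi
    exact hP _ _ (le_join_off Z _) (hIP i hi)

end Pool.Agent.KarpGP
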