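import Pool.Agent.KarpGP.PartOne

/-!
Random non-edges chosen by the vertices, and the cost of finding them.
-/

set_option autoImplicit false

set_option linter.unusedSectionVars false

open scoped ENNReal
open Classical

namespace Pool.Agent.KarpGP

universe u

section order

variable {V : Type u}

/-- Of two queries made on `G`, the later one does not influence whether the earlier one is
made. -/
theorem asked_order (T : DTree V) (G : SimpleGraph V) (e e' : Sym2 V) (he : e ∈ T.asked G)
    (he' : e' ∈ T.asked G) :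
    e' ∈ T.asked (G.deleteEdges {e}) ∨ e ∈ T.asked (G.deleteEdges {e'}) := by
  induction T with
  | leaf b => simp [DTree.asked] at he
  | query u v t₀ t₁ ih₀ ih₁ =>
    have root : ∀ G' : SimpleGraph V, s(u, v) ∈ (DTree.query u v t₀ t₁).asked G' := by
      intro G'
      by_cases h : G'.Adj u v <;> simp [DTree.asked, h]
    by_cases h1 : e = s(u, v)
    · right; rw [h1]; exact root _
    · by_cases h2 : e' = s(u, v)
      · left; rw [h2]; exact root _
      · have key : ∀ e₀ : Sym2 V, e₀ ≠ s(u, v) →
            ((G.deleteEdges {e₀}).Adj u v ↔ G.Adj u v) := by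
          intro e₀ h0
          rw [SimpleGraph.deleteEdges_adj]
          constructor
          · exact fun h => h.1
          · exact fun h => ⟨h, fun hc => h0 (Set.mem_singleton_iff.1 hc).symm⟩
        by_cases h : G.Adj u v
        · have ha := (key e h1).2 h
          have hb := (key e' h2).2 h
          simp only [DTree.asked, h, if_true, Finset.mem_insert, h1, h2, false_or] at he he'
          simp only [DTree.asked, ha, hb, if_true, Finset.mem_insert, h1, h2, false_or]
          exact ih₁ he he'
        · have ha : ¬ (G.deleteEdges {e}).Adj u v := fun hc => h ((key e h1).1 hc)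
          have hb : ¬ (G.deleteEdges {e'}).Adj u v := fun hc => h ((key e' h2).1 hc)
          simp only [DTree.asked, h, if_false, Finset.mem_insert, h1, h2, false_or] at he he'
          simp only [DTree.asked, ha, hb, if_false, Finset.mem_insert, h1, h2, false_or]
          exact ih₀ he he'

theorem co_insert [Fintype V] (N : Finset (Sym2 V)) (e : Sym2 V) :
    co (insert e N) = (co N).deleteEdges {e} := by
  ext u v
  rw [SimpleGraph.deleteEdges_adj, co_adj, co_adj, Finset.mem_insert, Set.mem_singleton_iff]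
  tauto

end order

variable {α : Type u} [Fintype α] {K : ℕ}

/-- The pairs chosen by `f`. -/
noncomputable def NN (f : α → Fin K → α) : Finset (Sym2 α) :=
  (Finset.univ : Finset (α × Fin K)).image (fun p => s(p.1, f p.1 p.2))

theorem mem_NN {f : α → Fin K → α} {e : Sym2 α} : e ∈ NN f ↔ ∃ x i, s(x, f x i) = e := by
  simp [NN]

/-- Changing one choice. -/
noncomputable def upd (f : α → Fin K → α) (x : α) (i : Fin K) (y : α) : α → Fin K → α :=
  Function.update f x (Function.update (f x) i y)

theorem upd_self (f : α → Fin K → α) (x : α) (i : Fin K) (y : α) : upd f x i y x i = y := by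
  simp [upd]

theorem upd_other (f : α → Fin K → α) (x : α) (i : Fin K) (y : α) (x' : α) (i' : Fin K)
    (h : (x', i') ≠ (x, i)) : upd f x i y x' i' = f x' i' := by
  unfold upd
  by_cases hx : x' = x
  · subst hx
    have hi : i' ≠ i := fun hc => h (by rw [hc])
    simp [hi]
  · simp [hx]

theorem upd_upd (f : α → Fin K → α) (x : α) (i : Fin K) (y : α) :
    upd (upd f x i y) x i (f x i) = f := by
  funext x' i'
  by_cases h : (x', i') = (x, i)
  · rw [Prod.mk.injEq] at h
    obtain ⟨rfl, rfl⟩ := h
    rw [upd_self]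
  · rw [upd_other _ _ _ _ _ _ h, upd_other _ _ _ _ _ _ h]

/-- Averaging over one coordinate. -/
theorem sum_upd (x : α) (i : Fin K) (h : (α → Fin K → α) → ℝ) :
    ∑ f : α → Fin K → α, ∑ y : α, h (upd f x i y) = (Fintype.card α : ℝ) * ∑ f, h f := by
  rw [← Finset.sum_product', Finset.mul_sum]
  have h1 : ∑ f : α → Fin K → α, (Fintype.card α : ℝ) * h f
      = ∑ p ∈ (Finset.univ : Finset (α → Fin K → α)) ×ˢ (Finset.univ : Finset α), h p.1 := by
    rw [Finset.sum_product]
    refine Finset.sum_congr rfl fun f _ => ?_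
    simp only [Finset.sum_const, Finset.card_univ, nsmul_eq_mul]
  rw [h1]
  refine Finset.sum_nbij' (fun p => (upd p.1 x i p.2, p.1 x i))
    (fun p => (upd p.1 x i p.2, p.1 x i)) ?_ ?_ ?_ ?_ ?_
  · intro p _; simp
  · intro p _; simp
  · rintro ⟨f, y⟩ _
    simp only
    rw [upd_upd, upd_self]
  · rintro ⟨f, y⟩ _
    simp only
    rw [upd_upd, upd_self]
  · intro p _; rfl

/-- The asked pairs. -/
noncomputable def AA (T : DTree α) (f : α → Fin K → α) : Finset (Sym2 α) := T.asked (co (NN f))

/-- The choice `(x, i)` has been found. -/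
def Found (T : DTree α) (f : α → Fin K → α) (x : α) (i : Fin K) : Prop :=
  f x i ≠ x ∧ s(x, f x i) ∈ AA T f

theorem NN_upd (f : α → Fin K → α) (x : α) (i : Fin K) :
    ∃ N₀ : Finset (Sym2 α), ∀ y, NN (upd f x i y) = insert s(x, y) N₀ := by
  refine ⟨((Finset.univ : Finset (α × Fin K)).filter (fun p => p ≠ (x, i))).image
    (fun p => s(p.1, f p.1 p.2)), fun y => ?_⟩
  ext e
  rw [mem_NN, Finset.mem_insert, Finset.mem_image]
  constructor
  · rintro ⟨x', i', rfl⟩
    by_cases h : (x', i') = (x, i)
    · left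
      rw [Prod.mk.injEq] at h
      obtain ⟨rfl, rfl⟩ := h
      rw [upd_self]
    · right
      refine ⟨(x', i'), by simpa using h, ?_⟩
      rw [upd_other _ _ _ _ _ _ h]
  · rintro (rfl | ⟨p, hp, rfl⟩)
    · exact ⟨x, i, by rw [upd_self]⟩
    · rw [Finset.mem_filter] at hp
      exact ⟨p.1, p.2, by rw [upd_other _ _ _ _ _ _ hp.2]⟩

/-- The key inequality for one coordinate. -/
theorem key_one (T : DTree α) (f : α → Fin K → α) (x : α) (i : Fin K) :
    (Finset.univ.filter (fun y => Found T (upd f x i y) x i)).card ^ 2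
      ≤ 2 * ∑ y : α, dgin (AA T (upd f x i y)) Finset.univ x := by
  obtain ⟨N₀, hN₀⟩ := NN_upd f x i
  set Y := Finset.univ.filter (fun y => Found T (upd f x i y) x i) with hY
  have hYmem : ∀ y ∈ Y, y ≠ x ∧ s(x, y) ∈ T.asked (co N₀) := by
    intro y hy
    rw [hY, Finset.mem_filter, Found, upd_self] at hy
    refine ⟨hy.2.1, ?_⟩
    by_contra hc
    have hag := T.agree (co N₀) (co (insert s(x, y) N₀)) (fun e he => by
      rw [mem_co_edgeSet, mem_co_edgeSet, Finset.mem_insert]
      have : e ≠ s(x, y) := fun h => hc (h ▸ he)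
      tauto)
    have h1 := hy.2.2
    rw [AA, hN₀, hag.1] at h1
    exact hc h1
  have hpair : ∀ y ∈ Y, ∀ y' ∈ Y, s(x, y') ∈ AA T (upd f x i y) ∨
      s(x, y) ∈ AA T (upd f x i y') := by
    intro y hy y' hy'
    rw [AA, AA, hN₀, hN₀, co_insert, co_insert]
    exact asked_order T (co N₀) _ _ (hYmem y hy).2 (hYmem y' hy').2
  -- double counting
  set P1 := (Y ×ˢ Y).filter (fun p => s(x, p.2) ∈ AA T (upd f x i p.1)) with hP1
  set P2 := (Y ×ˢ Y).filter (fun p => s(x, p.1) ∈ AA T (upd f x i p.2)) with hP2
  have hcov : Y ×ˢ Y ⊆ P1 ∪ P2 := by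
    intro p hp
    have hp' := Finset.mem_product.1 hp
    rcases hpair p.1 hp'.1 p.2 hp'.2 with h | h
    · exact Finset.mem_union_left _ (Finset.mem_filter.2 ⟨hp, h⟩)
    · exact Finset.mem_union_right _ (Finset.mem_filter.2 ⟨hp, h⟩)
  have hsym : P2.card = P1.card := by
    refine Finset.card_bij' (fun p _ => (p.2, p.1)) (fun p _ => (p.2, p.1)) ?_ ?_ ?_ ?_
    · intro p hp
      rw [hP2, Finset.mem_filter, Finset.mem_product] at hp
      rw [hP1, Finset.mem_filter, Finset.mem_product]
      exact ⟨⟨hp.1.2, hp.1.1⟩, hp.2⟩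
    · intro p hp
      rw [hP1, Finset.mem_filter, Finset.mem_product] at hp
      rw [hP2, Finset.mem_filter, Finset.mem_product]
      exact ⟨⟨hp.1.2, hp.1.1⟩, hp.2⟩
    · intro p _; rfl
    · intro p _; rfl
  have hP1le : P1.card ≤ ∑ y : α, dgin (AA T (upd f x i y)) Finset.univ x := by
    have h1 : P1.card ≤ ((Finset.univ : Finset α).sigma
        (fun y => Finset.univ.filter (fun w => (gr (AA T (upd f x i y))).Adj x w))).card := by
      refine Finset.card_le_card_of_injOn (fun p => ⟨p.1, p.2⟩) ?_ ?_
      · intro p hp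
        rw [hP1, Finset.mem_coe, Finset.mem_filter, Finset.mem_product] at hp
        rw [Finset.mem_coe, Finset.mem_sigma, Finset.mem_filter, gr_adj]
        exact ⟨Finset.mem_univ _, Finset.mem_univ _, hp.2, (hYmem _ hp.1.2).1.symm⟩
      · intro p _ p' _ h
        simp only [Sigma.mk.injEq, heq_eq_eq] at h
        exact Prod.ext h.1 h.2
    rw [Finset.card_sigma] at h1
    exact h1
  have h2 := Finset.card_le_card hcov
  have h3 := Finset.card_union_le P1 P2
  rw [Finset.card_product] at h2
  rw [sq]
  omega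

/-- The total cost of finding the choices. -/
theorem choices_cost (T : DTree α) (θ : ℝ) :
    θ * ∑ f : α → Fin K → α, ((Finset.univ.filter
      (fun p : α × Fin K => Found T f p.1 p.2)).card : ℝ)
      - (K : ℝ) * Fintype.card (α → Fin K → α) * θ ^ 2 / 2
      ≤ 2 * K * ∑ f : α → Fin K → α, (T.cost (co (NN f)) : ℝ) := by
  set m : ℝ := (Fintype.card α : ℝ) with hm
  by_cases hm0 : Fintype.card α = 0
  · -- no vertices
    have hemp : IsEmpty α := Fintype.card_eq_zero_iff.1 hm0
    have h1 : ∀ f : α → Fin K → α, ((Finset.univ.filter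
      (fun p : α × Fin K => Found T f p.1 p.2)).card : ℝ) = 0 := by
      intro f
      have : (Finset.univ.filter (fun p : α × Fin K => Found T f p.1 p.2)) = ∅ := by
        ext p; exact isEmptyElim p.1
      rw [this]; simp
    rw [Finset.sum_congr rfl (fun f _ => h1 f)]
    simp only [Finset.sum_const_zero, mul_zero, zero_sub]
    have h2 : 0 ≤ 2 * (K : ℝ) * ∑ f : α → Fin K → α, (T.cost (co (NN f)) : ℝ) := by positivity
    have h3 : 0 ≤ (K : ℝ) * Fintype.card (α → Fin K → α) * θ ^ 2 / 2 := by positivity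
    linarith
  have hmpos : 0 < m := by
    have : 0 < Fintype.card α := Nat.pos_of_ne_zero hm0
    rw [hm]; exact_mod_cast this
  -- one coordinate
  have hone : ∀ (x : α) (i : Fin K), θ * ∑ f : α → Fin K → α, (if Found T f x i then (1 : ℝ) else 0)
      - Fintype.card (α → Fin K → α) * θ ^ 2 / (2 * m)
      ≤ ∑ f : α → Fin K → α, (dgin (AA T f) Finset.univ x : ℝ) := by
    intro x i
    have h1 := sum_upd x i (fun f => (dgin (AA T f) Finset.univ x : ℝ))
    have h2 := sum_upd x i (fun f => if Found T f x i then (1 : ℝ) else 0)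
    have h3 : ∀ f : α → Fin K → α, θ * ∑ y : α, (if Found T (upd f x i y) x i then (1 : ℝ) else 0)
        - θ ^ 2 / 2 ≤ ∑ y : α, (dgin (AA T (upd f x i y)) Finset.univ x : ℝ) := by
      intro f
      have h4 := key_one T f x i
      have h5 : ∑ y : α, (if Found T (upd f x i y) x i then (1 : ℝ) else 0) =
          ((Finset.univ.filter (fun y => Found T (upd f x i y) x i)).card : ℝ) := by
        rw [Finset.sum_ite, Finset.sum_const_zero, add_zero, Finset.sum_const, nsmul_eq_mul,
          mul_one]
      rw [h5]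
      set a : ℝ := ((Finset.univ.filter (fun y => Found T (upd f x i y) x i)).card : ℝ) with ha
      have h6 : a ^ 2 ≤ 2 * ∑ y : α, (dgin (AA T (upd f x i y)) Finset.univ x : ℝ) := by
        rw [ha]; exact_mod_cast h4
      nlinarith [sq_nonneg (a - θ)]
    have h7 : ∑ f : α → Fin K → α, (θ * ∑ y : α, (if Found T (upd f x i y) x i then (1 : ℝ) else 0)
        - θ ^ 2 / 2) ≤ ∑ f : α → Fin K → α, ∑ y : α,
          (dgin (AA T (upd f x i y)) Finset.univ x : ℝ) := Finset.sum_le_sum fun f _ => h3 f
    rw [Finset.sum_sub_distrib, ← Finset.mul_sum, h1, h2, Finset.sum_const, nsmul_eq_mul,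
      Finset.card_univ] at h7
    have h8 : m * (θ * ∑ f : α → Fin K → α, (if Found T f x i then (1 : ℝ) else 0)
      - Fintype.card (α → Fin K → α) * θ ^ 2 / (2 * m)) ≤
      m * ∑ f : α → Fin K → α, (dgin (AA T f) Finset.univ x : ℝ) := by
      have h9 : m * (θ * ∑ f : α → Fin K → α, (if Found T f x i then (1 : ℝ) else 0)
        - Fintype.card (α → Fin K → α) * θ ^ 2 / (2 * m)) =
        θ * (m * ∑ f : α → Fin K → α, (if Found T f x i then (1 : ℝ) else 0)) -
          Fintype.card (α → Fin K → α) * (θ ^ 2 / 2) := by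
        field_simp
      rw [h9]; exact h7
    exact le_of_mul_le_mul_left h8 hmpos
  -- sum over all coordinates
  have hsum := Finset.sum_le_sum (s := (Finset.univ : Finset (α × Fin K)))
    (fun p _ => hone p.1 p.2)
  rw [Finset.sum_sub_distrib, ← Finset.mul_sum, Finset.sum_const, nsmul_eq_mul,
    Finset.card_univ, Fintype.card_prod, Fintype.card_fin] at hsum
  have e1 : ∑ p : α × Fin K, ∑ f : α → Fin K → α, (if Found T f p.1 p.2 then (1 : ℝ) else 0)
      = ∑ f : α → Fin K → α, ((Finset.univ.filter
      (fun p : α × Fin K => Found T f p.1 p.2)).card : ℝ) := by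
    rw [Finset.sum_comm]
    refine Finset.sum_congr rfl fun f _ => ?_
    rw [Finset.sum_ite, Finset.sum_const_zero, add_zero, Finset.sum_const, nsmul_eq_mul, mul_one]
  have e2 : ∑ p : α × Fin K, ∑ f : α → Fin K → α, (dgin (AA T f) Finset.univ p.1 : ℝ)
      ≤ 2 * K * ∑ f : α → Fin K → α, (T.cost (co (NN f)) : ℝ) := by
    rw [Finset.sum_comm, Finset.mul_sum]
    refine Finset.sum_le_sum fun f _ => ?_
    have h3 : ∑ p : α × Fin K, (dgin (AA T f) Finset.univ p.1 : ℝ)
        = (K : ℝ) * ∑ x : α, (dgin (AA T f) Finset.univ x : ℝ) := by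
      rw [← Finset.univ_product_univ, Finset.sum_product, Finset.mul_sum]
      refine Finset.sum_congr rfl fun x _ => ?_
      simp
    rw [h3]
    have h4 := card_sigma_le_two (AA T f) (Finset.univ : Finset α)
    have h5 : (inner (Finset.univ : Finset α) ∩ AA T f).card ≤ (AA T f).card :=
      Finset.card_le_card Finset.inter_subset_right
    have h6 : (AA T f).card ≤ T.cost (co (NN f)) := T.card_asked_le _
    have h7 : ∑ x : α, dgin (AA T f) Finset.univ x ≤ 2 * T.cost (co (NN f)) := by
      refine h4.trans ?_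
      omega
    have h8 : (∑ x : α, (dgin (AA T f) Finset.univ x : ℝ)) ≤ 2 * (T.cost (co (NN f)) : ℝ) := by
      exact_mod_cast h7
    calc (K : ℝ) * ∑ x : α, (dgin (AA T f) Finset.univ x : ℝ)
        ≤ K * (2 * (T.cost (co (NN f)) : ℝ)) := by gcongr
      _ = _ := by ring
  rw [e1] at hsum
  refine le_trans ?_ (hsum.trans e2)
  have e3 : ((Fintype.card α * K : ℕ) : ℝ) * (Fintype.card (α → Fin K → α) * θ ^ 2 / (2 * m))
      = (K : ℝ) * Fintype.card (α → Fin K → α) * θ ^ 2 / 2 := by
    push_cast
    rw [← hm]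
    field_simp
  rw [e3]

end Pool.Agent.KarpGP
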