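import Pool.Agent.KarpGP.SplitMain

/-!
Few minimal graphs.
-/

set_option autoImplicit false

set_option linter.unusedSectionVars false

open scoped ENNReal
open Classical

namespace Pool.Agent.KarpGP

variable {V : Type*} [Fintype V]

theorem few_main {P : SimpleGraph V → Prop} (hP : Mono P) (hinv : IsoInv P) (htop : P ⊤)
    (hbot : ¬ P ⊥) (n : ℕ) (hn : Fintype.card V = n) (hn2 : 2 ≤ n) (t : ℕ)
    (ht : IsLeast {k : ℕ | ∃ T : Finset V, T.card = k ∧ P (dom T)} t)
    (L : ℕ) (hL1 : 1 ≤ L)
    (hfew : {G : SimpleGraph V | P G ∧ ∀ G' < G, ¬ P G'}.ncard ≤ 2 ^ (n * L)) :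
    ENNReal.ofReal ((t : ℝ) * n / (400000000 * (L * Real.log n) ^ 2)) ≤ R P := by
  subst hn
  set n : ℕ := Fintype.card V with hndef
  have htn : t ≤ n := by
    obtain ⟨T, hT, -⟩ := ht.1
    rw [← hT]; exact Finset.card_le_univ T
  have hnR : (2 : ℝ) ≤ n := by exact_mod_cast hn2
  have htR : (t : ℝ) ≤ n := by exact_mod_cast htn
  have ht0 : (0 : ℝ) ≤ t := Nat.cast_nonneg _
  have hlog := log_le n hn2
  set lam : ℕ := Nat.log 2 n + 1 with hlam
  have hlam1 : (1 : ℝ) ≤ lam := by
    rw [hlam]; push_cast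
    have : (0 : ℝ) ≤ (Nat.log 2 n : ℝ) := Nat.cast_nonneg _
    linarith
  have hlogpos : 0 < Real.log n := by linarith
  have hlog4 : (1 : ℝ) / 4 ≤ Real.log n := by linarith
  have hLR : (1 : ℝ) ≤ L := by exact_mod_cast hL1
  have hprod : (1 : ℝ) / 4 ≤ L * Real.log n := by nlinarith
  have hprod2 : (1 : ℝ) / 16 ≤ (L * Real.log n) ^ 2 := by nlinarith
  by_cases hbig : 10 * t ≤ 9 * n
  · refine le_trans (ENNReal.ofReal_le_ofReal ?_) (split_main hP hinv htop hbot n rfl t ht)
    have h1 : (n : ℝ) / 10 ≤ (n : ℝ) - t + 1 := by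
      have : (10 : ℝ) * t ≤ 9 * n := by exact_mod_cast hbig
      linarith
    have h2 : (n : ℝ) ^ 2 / 100 ≤ ((n : ℝ) - t + 1) ^ 2 := by nlinarith
    have h3 : (n : ℝ) ^ 2 / 100 ≤ max ((n : ℝ) * Real.sqrt n) (((n : ℝ) - t + 1) ^ 2) :=
      h2.trans (le_max_right _ _)
    have h4 : (t : ℝ) / n * ((n : ℝ) ^ 2 / 100) ≤
        (t : ℝ) / n * max ((n : ℝ) * Real.sqrt n) (((n : ℝ) - t + 1) ^ 2) := by gcongr
    have h5 : (t : ℝ) / n * ((n : ℝ) ^ 2 / 100) = t * n / 100 := by field_simp
    have h6 : (t : ℝ) * n / (400000000 * (L * Real.log n) ^ 2) ≤ t * n / 40000 := by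
      have : (0 : ℝ) ≤ t * n := by positivity
      gcongr
      linarith
    linarith
  · push Not at hbig
    have hnot : ∀ Z : Finset V, Z.card < t → ¬ P (dom Z) := fun Z hZ hPZ =>
      absurd (ht.2 ⟨Z, rfl, hPZ⟩) (by omega)
    by_cases hsmall : 4 * lam ≤ n
    · have h1 := second_part (P := P) hP hinv htop n lam L rfl
        (by rw [hlam]; exact Nat.lt_pow_succ_log_self (by norm_num) n) hL1
        (by rw [hlam]; omega) hsmall (fun S hS => hnot S (by omega))
        ({G : SimpleGraph V | P G ∧ ∀ G' < G, ¬ P G'}.toFinset) id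
        (fun G hG => by
          obtain ⟨G', h1, h2, h3⟩ := exists_minimal G hG
          exact ⟨G', by rw [Set.mem_toFinset]; exact ⟨h2, h3⟩, h1⟩)
        (by rw [← Set.ncard_eq_toFinset_card']; exact hfew)
        (fun i hi => by rw [Set.mem_toFinset] at hi; exact hi.1)
      refine le_trans (ENNReal.ofReal_le_ofReal ?_) h1
      have h2 : (t : ℝ) * n ≤ n ^ 2 := by nlinarith
      have h3 : ((lam : ℝ) * L) ^ 2 ≤ 16 * (L * Real.log n) ^ 2 := by
        have h4 : (lam : ℝ) * L ≤ 4 * (L * Real.log n) := by nlinarith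
        have h5 : 0 ≤ (lam : ℝ) * L := by positivity
        nlinarith
      have h6 : 0 < ((lam : ℝ) * L) ^ 2 := by positivity
      exact div_le_div₀ (by positivity) h2 (by positivity) (by linarith)
    · -- small n
      obtain ⟨G, -, h2, h3⟩ := exists_minimal (P := P) ⊤ htop
      have h4 := card_edges_le_R h2 h3
      have h5 : 1 ≤ (edges G).card := by
        rw [Nat.succ_le_iff, Finset.card_pos]
        by_contra hcon
        rw [Finset.not_nonempty_iff_eq_empty] at hcon
        apply hbot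
        have : G = ⊥ := by
          ext u v
          constructor
          · intro huv
            have : s(u, v) ∈ edges G := by rw [mem_edges]; exact huv
            rw [hcon] at this
            simp at this
          · intro huv; exact absurd huv (by simp)
        rwa [this] at h2
      refine le_trans ?_ h4
      refine ENNReal.ofReal_le_ofReal ?_
      have h6 : (1 : ℝ) ≤ (edges G).card := by exact_mod_cast h5
      refine le_trans ?_ h6
      push Not at hsmall
      have h7 : (n : ℝ) ≤ 4 * lam := by exact_mod_cast hsmall.le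
      have h8 : (n : ℝ) ≤ 16 * (L * Real.log n) := by nlinarith
      rw [div_le_one (by positivity)]
      have h9 : (t : ℝ) * n ≤ n ^ 2 := by nlinarith
      nlinarith

end Pool.Agent.KarpGP
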