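import Pool.Agent.KarpGP.Independence

/-!
Properties all of whose minimal graphs have the same vertex cover number.
-/

set_option autoImplicit false

set_option linter.unusedSectionVars false

open scoped ENNReal
open Classical

namespace Pool.Agent.KarpGP

universe u

variable {V : Type u} [Fintype V]

/-- If the random graph has the property, then some small set has small outside degrees. -/
theorem bad_event_gen {P : SimpleGraph V → Prop} (hP : Mono P) (t d : ℕ) (ht : 1 ≤ t)
    (hhom : ∀ G, P G → ∃ G' ≤ G, P G' ∧ ∃ C : Finset V, C.card = t ∧ G' ≤ dom C)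
    (hd : ∀ (Z : Finset V) (w : V) (S : Finset V), Z.card = t - 1 → w ∉ Z →
        (∀ x ∈ S, x ∉ Z ∧ x ≠ w) → P (split Z w S) → d ≤ S.card)
    (Z : Finset V) (hZ : Z.card = t - 1) (N : Finset (Sym2 {v : V // v ∉ Z}))
    (hN : PZ P Z (co N)) :
    ∃ J : Finset {v : V // v ∉ Z}, J.Nonempty ∧ J.card ≤ t ∧
      ∀ x ∈ J, dgout N J x + d + 1 ≤ Fintype.card {v : V // v ∉ Z} := by
  suffices hsuff : ∃ J : Finset {v : V // v ∉ Z}, J.Nonempty ∧ J.card ≤ t ∧
      ∀ x ∈ J, dgin N (Finset.univ \ J) x + d + 1 ≤ Fintype.card {v : V // v ∉ Z} by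
    obtain ⟨J, k1, k2, k3⟩ := hsuff
    refine ⟨J, k1, k2, fun x hx => ?_⟩
    rw [dgout_eq]
    exact k3 x hx
  obtain ⟨G', hG'le, hG'P, C, hC, hcov⟩ := hhom _ hN
  set J : Finset {v : V // v ∉ Z} := Finset.univ.filter (fun x => x.1 ∈ C) with hJ
  have hJi : J.image Subtype.val = C \ Z := by
    ext v
    simp only [Finset.mem_image, hJ, Finset.mem_filter, Finset.mem_univ, true_and,
      Finset.mem_sdiff]
    constructor
    · rintro ⟨x, hx, rfl⟩
      exact ⟨hx, x.2⟩
    · rintro ⟨h1, h2⟩
      exact ⟨⟨v, h2⟩, h1, rfl⟩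
  have hJc : J.card = (C \ Z).card := by
    rw [← hJi, Finset.card_image_of_injective _ Subtype.val_injective]
  have e1 := Finset.card_sdiff_add_card_inter C Z
  have e2 := Finset.card_sdiff_add_card_inter Z C
  rw [Finset.inter_comm Z C] at e2
  refine ⟨J, ?_, by omega, ?_⟩
  · rw [← Finset.card_pos]; omega
  · intro x hx
    rw [hJ, Finset.mem_filter] at hx
    set c : V := x.1 with hc
    have hcC : c ∈ C := hx.2
    set S : Finset V := Finset.univ.filter (fun y => G'.Adj c y ∧ y ∉ C) with hS
    have hSd : d ≤ S.card := by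
      refine hd (C.erase c) c S ?_ (Finset.notMem_erase _ _) ?_ ?_
      · rw [Finset.card_erase_of_mem hcC, hC]
      · intro y hy
        rw [hS, Finset.mem_filter] at hy
        refine ⟨fun h => hy.2.2 (Finset.mem_of_mem_erase h), ?_⟩
        rintro rfl; exact hy.2.1.ne rfl
      · refine hP _ _ ?_ hG'P
        intro u v huv
        refine ⟨huv.ne, ?_⟩
        by_cases hu : u ∈ C.erase c
        · exact Or.inl hu
        · by_cases hv : v ∈ C.erase c
          · exact Or.inr (Or.inl hv)
          · rw [Finset.mem_erase, not_and] at hu hv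
            rcases (hcov huv).2 with h | h
            · have hu' : u = c := by
                by_contra hcon; exact hu hcon h
              right; right; left
              refine ⟨hu', ?_⟩
              rw [hS, Finset.mem_filter]
              refine ⟨Finset.mem_univ _, hu' ▸ huv, fun hvT => hv ?_ hvT⟩
              rintro rfl; exact huv.ne hu'
            · have hv' : v = c := by
                by_contra hcon; exact hv hcon h
              right; right; right
              refine ⟨hv', ?_⟩
              rw [hS, Finset.mem_filter]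
              refine ⟨Finset.mem_univ _, hv' ▸ huv.symm, fun huT => hu ?_ huT⟩
              rintro rfl; exact huv.ne hv'.symm
    have e3 := Finset.card_sdiff_add_card_inter S Z
    have e4 : (S ∩ Z).card ≤ (Z \ C).card := by
      refine Finset.card_le_card ?_
      intro y hy
      rw [Finset.mem_inter, hS, Finset.mem_filter] at hy
      rw [Finset.mem_sdiff]
      exact ⟨hy.2, hy.1.2.2⟩
    set T' : Finset {v : V // v ∉ Z} := Finset.univ.filter (fun y => y.1 ∈ S) with hT'
    have e5 : T'.card = (S \ Z).card := by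
      rw [← Finset.card_image_of_injective T' Subtype.val_injective]
      congr 1
      ext v
      simp only [hT', Finset.mem_image, Finset.mem_filter, Finset.mem_univ, true_and,
        Finset.mem_sdiff]
      constructor
      · rintro ⟨y, hy, rfl⟩
        exact ⟨hy, y.2⟩
      · rintro ⟨h1, h2⟩
        exact ⟨⟨v, h2⟩, h1, rfl⟩
    have e6 : dgin N (Finset.univ \ J) x + T'.card ≤ (Finset.univ \ J).card := by
      unfold dgin
      rw [← Finset.card_union_of_disjoint]
      · refine Finset.card_le_card ?_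
        refine Finset.union_subset (Finset.filter_subset _ _) ?_
        intro y hy
        rw [hT', Finset.mem_filter, hS, Finset.mem_filter] at hy
        rw [Finset.mem_sdiff, hJ, Finset.mem_filter]
        exact ⟨Finset.mem_univ _, fun h => hy.2.2.2 h.2⟩
      · rw [Finset.disjoint_left]
        intro y hy1 hy2
        rw [Finset.mem_filter] at hy1
        rw [hT', Finset.mem_filter, hS, Finset.mem_filter] at hy2
        have h1 := hG'le hy2.2.2.1
        have h2 := h1.2 x.2 y.2
        rw [co_adj] at h2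
        exact h2.1 (gr_adj.1 hy1.2).1
    have e7 : (Finset.univ \ J).card + J.card = Fintype.card {v : V // v ∉ Z} := by
      rw [Finset.card_sdiff_of_subset (Finset.subset_univ _), Finset.card_univ]
      have := Finset.card_le_univ J
      omega
    omega

/-- The bound for properties all of whose minimal graphs have vertex cover number `t`. -/
theorem homogeneous_bound {P : SimpleGraph V → Prop} (hP : Mono P) (hinv : IsoInv P)
    (htop : P ⊤) (hbot : ¬ P ⊥) (t : ℕ)
    (hhom : ∀ G, P G → (∀ G' < G, ¬ P G') →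
      IsLeast {k : ℕ | ∃ C : Finset V, C.card = k ∧ ∀ u v, G.Adj u v → u ∈ C ∨ v ∈ C} t) :
    ENNReal.ofReal (((Fintype.card V : ℝ) - t) ^ 2 / 2500) ≤ R P := by
  set n : ℕ := Fintype.card V with hn
  have hdom : ∀ (G : SimpleGraph V) (C : Finset V), (∀ u v, G.Adj u v → u ∈ C ∨ v ∈ C) ↔
      G ≤ dom C := by
    intro G C
    constructor
    · intro h u v huv
      exact ⟨huv.ne, h u v huv⟩
    · intro h u v huv
      exact (h huv).2
  have hhom1 : ∀ G, P G → ∃ G' ≤ G, P G' ∧ ∃ C : Finset V, C.card = t ∧ G' ≤ dom C := by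
    intro G hG
    obtain ⟨G', h1, h2, h3⟩ := exists_minimal G hG
    obtain ⟨C, hC1, hC2⟩ := (hhom G' h2 h3).1
    exact ⟨G', h1, h2, C, hC1, (hdom G' C).1 hC2⟩
  have hhom2 : ∀ S : Finset V, P (dom S) → t ≤ S.card := by
    intro S hS
    obtain ⟨G', h1, h2, h3⟩ := exists_minimal _ hS
    exact (hhom G' h2 h3).2 ⟨S, rfl, (hdom G' S).2 h1⟩
  have ht1 : 1 ≤ t := by
    by_contra hc
    have h0 : t = 0 := by omega
    obtain ⟨G', h1, h2, C, h3, h4⟩ := hhom1 ⊤ htop
    rw [h0, Finset.card_eq_zero] at h3
    subst h3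
    apply hbot
    have : G' = ⊥ := by
      rw [eq_bot_iff]
      intro u v huv
      exact absurd (h4 huv).2 (by simp)
    rw [← this]; exact h2
  obtain ⟨G₁, -, hG₁, C, hC, hG₁C⟩ := hhom1 ⊤ htop
  have hPC : P (dom C) := hP _ _ hG₁C hG₁
  have hnot : ∀ Z : Finset V, Z.card = t - 1 → ¬ P (dom Z) := by
    intro Z hZ hc
    have := hhom2 Z hc
    omega
  have htn : t ≤ n := by rw [← hC]; exact Finset.card_le_univ C
  have htnR : (t : ℝ) ≤ n := by exact_mod_cast htn
  have ht0 : (0 : ℝ) ≤ t := Nat.cast_nonneg t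
  by_cases h10 : 10 * t ≤ n
  · -- few cover vertices
    obtain ⟨d, hd1, hd2, hd3, hd4, -, hd6⟩ := cert_bound hP hinv t ht1 C hC hPC hnot
    rw [← hn] at hd1 hd6
    obtain ⟨m, hm⟩ : ∃ m : ℕ, m + t = n + 1 := ⟨n + 1 - t, by omega⟩
    obtain ⟨δ, hδ⟩ : ∃ δ : ℕ, δ + d = m := ⟨m - d, by omega⟩
    have hδ1 : 1 ≤ δ := by omega
    have hmR : (m : ℝ) = (n : ℝ) - t + 1 := by
      have : (m : ℝ) + t = n + 1 := by exact_mod_cast hm
      linarith
    have hδR : (δ : ℝ) = m - d := by
      have : (δ : ℝ) + d = m := by exact_mod_cast hδ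
      linarith
    have h10R : 10 * (t : ℝ) ≤ n := by exact_mod_cast h10
    have hm9 : (n : ℝ) - t ≤ m := by rw [hmR]; linarith
    have hsq : ((n : ℝ) - t) ^ 2 ≤ (m : ℝ) ^ 2 := by
      have : 0 ≤ (n : ℝ) - t := by linarith
      gcongr
    have hm0 : (0 : ℝ) ≤ m := Nat.cast_nonneg m
    rw [← hmR, ← hδR] at hd6
    by_cases hcase : 8 * (t + δ) ≤ m
    · obtain ⟨Z, -, hZ⟩ := Finset.exists_subset_card_eq (s := C) (n := t - 1) (by omega)
      have hcardZ : Fintype.card {v : V // v ∉ Z} = m := by rw [card_off, hZ, ← hn]; omega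
      refine le_trans ?_ (R_PZ_le P Z)
      refine le_trans (ENNReal.ofReal_le_ofReal ?_)
        (random_choices (Q := PZ P Z) m t δ hcardZ hδ1 hcase
          (fun N hQ => ?_) (fun N' hQ' x => ?_))
      · have := sq_nonneg (m : ℝ)
        linarith
      · obtain ⟨J, hJ1, hJ2, hJ3⟩ := bad_event_gen hP t d ht1 hhom1 hd4 Z hZ N hQ
        refine ⟨J, hJ1, hJ2, fun x hx => ?_⟩
        have := hJ3 x hx
        rw [hcardZ] at this
        omega
      · have := zero_deg hP hinv t d hd3 Z hZ N' hQ' x
        rw [hcardZ] at this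
        omega
    · refine le_trans (ENNReal.ofReal_le_ofReal ?_) hd6
      have h1 : (m : ℝ) < 8 * (t + δ) := by exact_mod_cast not_le.1 hcase
      have h2 : 9 * (t : ℝ) ≤ m := by rw [hmR]; linarith
      have h3 : (m : ℝ) ≤ 72 * δ := by linarith
      nlinarith
  · refine le_trans (ENNReal.ofReal_le_ofReal ?_)
      (cert_bound' hP hinv t ht1 C hC hPC hnot)
    rw [← hn]
    have h1 : (n : ℝ) < 10 * t := by exact_mod_cast (not_le.1 h10)
    set a : ℝ := (n : ℝ) - t with ha
    have ha0 : 0 ≤ a := by rw [ha]; linarith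
    have h4 : a / 5 ≤ min (a + 1) (2 * t) := le_min (by linarith) (by rw [ha]; linarith)
    have h5 : a * (a / 5) ≤ (a + 1) * min (a + 1) (2 * t) := by
      have : (0 : ℝ) ≤ a + 1 := by linarith
      gcongr
      linarith
    nlinarith

end Pool.Agent.KarpGP
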