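import Pool.Agent.KarpGP.PartOne

/-!
Assembly of the first part and the theorem on subgraph containment.
-/

set_option autoImplicit false

set_option linter.unusedSectionVars false

open scoped ENNReal
open Classical

namespace Pool.Agent.KarpGP

universe u

variable {V : Type u} [Fintype V]

theorem part_one (H : SimpleGraph V) (n lam t : ℕ) (hn : Fintype.card V = n)
    (hlam : n < 2 ^ lam) (hlam1 : 1 ≤ lam) (ht : 1 ≤ t) (C : Finset V) (hC : C.card = t)
    (hcov : H ≤ dom C) (hnot : ∀ Z : Finset V, Z.card = t - 1 → ¬ Hin H (dom Z))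
    (h10 : 10 * t ≤ n) :
    ENNReal.ofReal ((n : ℝ) ^ 2 / (30 * lam)) ≤ R (Hin H) := by
  have hHC : Hin H (dom C) := ⟨Equiv.refl _, fun u v huv => hcov huv⟩
  obtain ⟨d, hd1, hd2, hd3, hd4, -, hd6⟩ :=
    cert_bound (Hin.mono H) (Hin.isoInv H) t ht C hC hHC hnot
  rw [hn] at hd1 hd6
  -- the number of vertices outside `Z`
  obtain ⟨m, hm⟩ : ∃ m : ℕ, m + t = n + 1 := ⟨n + 1 - t, by omega⟩
  obtain ⟨δ, hδ⟩ : ∃ δ : ℕ, δ + d = m := ⟨m - d, by omega⟩
  have hδ1 : 1 ≤ δ := by omega
  have hmR : (m : ℝ) = (n : ℝ) - t + 1 := by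
    have : (m : ℝ) + t = n + 1 := by exact_mod_cast hm
    linarith
  have hδR : (δ : ℝ) = m - d := by
    have : (δ : ℝ) + d = m := by exact_mod_cast hδ
    linarith
  have hlamR : (1 : ℝ) ≤ lam := by exact_mod_cast hlam1
  have hδ1R : (1 : ℝ) ≤ δ := by exact_mod_cast hδ1
  have h10R : 10 * (t : ℝ) ≤ n := by exact_mod_cast h10
  have hm9 : 9 * (n : ℝ) ≤ 10 * m := by rw [hmR]; linarith
  have hn0 : (0 : ℝ) ≤ n := Nat.cast_nonneg n
  have hm0 : (0 : ℝ) < m := by
    have : 0 < m := by omega
    exact_mod_cast this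
  rw [← hmR, ← hδR] at hd6
  have hsq : 81 * (n : ℝ) ^ 2 ≤ 100 * (m : ℝ) ^ 2 := by nlinarith
  by_cases hcase : (m : ℝ) ≤ 10 * lam * δ
  · refine le_trans (ENNReal.ofReal_le_ofReal ?_) hd6
    rw [div_le_div_iff₀ (by positivity) (by norm_num)]
    have h1 : (m : ℝ) * m ≤ m * (10 * lam * δ) := by gcongr
    nlinarith
  · push Not at hcase
    -- the random input
    obtain ⟨Z, -, hZ⟩ := Finset.exists_subset_card_eq (s := C) (n := t - 1) (by omega)
    have hcardZ : Fintype.card {v : V // v ∉ Z} = m := by rw [card_off, hZ, hn]; omega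
    refine le_trans ?_ (R_PZ_le (Hin H) Z)
    refine le_trans (ENNReal.ofReal_le_ofReal ?_)
      (random_one (Q := PZ (Hin H) Z) m lam t δ hcardZ (by omega) hlam1 hδ1 (by omega) hcase
        (fun N hQ => ?_) (fun N' hQ' x => ?_))
    · rw [div_le_div_iff₀ (by positivity) (by positivity)]
      nlinarith
    · obtain ⟨J, hJ1, hJ2, hJ3⟩ := bad_event H t d ht C hC hcov hd4 Z hZ N hQ
      refine ⟨J, hJ1, hJ2, fun x hx => ?_⟩
      have := hJ3 x hx
      rw [hcardZ] at this
      omega
    · have := zero_deg (Hin.mono H) (Hin.isoInv H) t d hd3 Z hZ N' hQ' x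
      rw [hcardZ] at this
      omega

/-- The property of containing a copy of `H` in Mathlib terms. -/
theorem hin_iff (H G : SimpleGraph V) : Hin H G ↔ H.IsContained G := by
  constructor
  · rintro ⟨π, hπ⟩
    exact ⟨⟨⟨π, fun {u v} huv => hπ u v huv⟩, π.injective⟩⟩
  · rintro ⟨⟨f, hf⟩⟩
    refine ⟨Equiv.ofBijective f (Finite.injective_iff_bijective.1 hf), fun u v huv => ?_⟩
    exact f.map_adj huv

/-- Subgraph containment needs almost quadratically many queries. -/
theorem containment_bound (H : SimpleGraph V) (hH : H ≠ ⊥) (n lam : ℕ)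
    (hn : Fintype.card V = n) (hlam : n < 2 ^ lam) (hlam2 : 2 ^ lam ≤ 2 * n) (hlam1 : 1 ≤ lam) :
    ENNReal.ofReal ((n : ℝ) ^ 2 / (25000000 * (lam : ℝ) ^ 4)) ≤ R (Hin H) := by
  have hlamR : (1 : ℝ) ≤ lam := by exact_mod_cast hlam1
  have hn1 : 1 ≤ n := by
    by_contra hc
    have h0 : n = 0 := by omega
    rw [h0] at hn
    have := Fintype.card_eq_zero_iff.1 hn
    apply hH
    ext u v
    exact isEmptyElim u
  have hnR : (1 : ℝ) ≤ n := by exact_mod_cast hn1
  -- the least size of a vertex cover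
  set A : Set ℕ := {t | ∃ C : Finset V, C.card = t ∧ H ≤ dom C} with hA
  have hAne : A.Nonempty := ⟨_, Finset.univ, rfl, fun u v huv => ⟨huv.ne, Or.inl (Finset.mem_univ _)⟩⟩
  set t : ℕ := sInf A with ht
  obtain ⟨C, hC, hcov⟩ : t ∈ A := Nat.sInf_mem hAne
  have hmin : ∀ S : Finset V, Hin H (dom S) → t ≤ S.card := by
    rintro S ⟨π, hπ⟩
    refine Nat.sInf_le ⟨S.image π.symm, Finset.card_image_of_injective _ π.symm.injective, ?_⟩
    intro u v huv
    refine ⟨huv.ne, ?_⟩
    rcases (hπ u v huv).2 with h | h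
    · exact Or.inl (Finset.mem_image.2 ⟨_, h, by simp⟩)
    · exact Or.inr (Finset.mem_image.2 ⟨_, h, by simp⟩)
  have ht1 : 1 ≤ t := by
    by_contra hc
    have h0 : t = 0 := by omega
    rw [h0, Finset.card_eq_zero] at hC
    subst hC
    apply hH
    rw [eq_bot_iff]
    intro u v huv
    exact absurd (hcov huv).2 (by simp)
  have hnot : ∀ Z : Finset V, Z.card = t - 1 → ¬ Hin H (dom Z) := by
    intro Z hZ hc
    have := hmin Z hc
    omega
  have hHC : Hin H (dom C) := ⟨Equiv.refl _, fun u v huv => hcov huv⟩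
  have hHH : Hin H H := ⟨Equiv.refl _, fun u v huv => huv⟩
  have hpow : (1 : ℝ) ≤ (lam : ℝ) ^ 3 := one_le_pow₀ hlamR
  by_cases hsmall : 10 * t ≤ n
  · refine le_trans (ENNReal.ofReal_le_ofReal ?_)
      (part_one H n lam t hn hlam hlam1 ht1 C hC hcov hnot hsmall)
    refine div_le_div_of_nonneg_left (by positivity) (by positivity) ?_
    have : (lam : ℝ) ^ 4 = lam * lam ^ 3 := by ring
    nlinarith
  · by_cases hmid : 10 * t ≤ 9 * n
    · refine le_trans (ENNReal.ofReal_le_ofReal ?_)
        (cert_bound' (Hin.mono H) (Hin.isoInv H) t ht1 C hC hHC hnot)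
      rw [hn]
      have h1 : (n : ℝ) < 10 * t := by exact_mod_cast (not_le.1 hsmall)
      have h2 : 10 * (t : ℝ) ≤ 9 * n := by exact_mod_cast hmid
      have h3 : (n : ℝ) / 10 ≤ (n : ℝ) - t + 1 := by linarith
      have h4 : (n : ℝ) / 10 ≤ min ((n : ℝ) - t + 1) (2 * t) := le_min h3 (by linarith)
      have h5 : (n : ℝ) / 10 * (n / 10) ≤ ((n : ℝ) - t + 1) * min ((n : ℝ) - t + 1) (2 * t) := by
        have : (0 : ℝ) ≤ (n : ℝ) - t + 1 := by linarith
        gcongr
      rw [div_le_div_iff₀ (by positivity) (by norm_num)]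
      have h6 : (1 : ℝ) ≤ (lam : ℝ) ^ 4 := one_le_pow₀ hlamR
      have h7 : 0 ≤ ((n : ℝ) - t + 1) * min ((n : ℝ) - t + 1) (2 * t) := by
        refine le_trans ?_ h5; positivity
      nlinarith
    · -- the second part
      by_cases hbig : 4 * lam ≤ n
      · have h1 := second_part (P := Hin H) (Hin.mono H) (Hin.isoInv H)
          ⟨Equiv.refl _, fun u v huv => huv.ne⟩ n lam lam hn hlam hlam1 hlam1 hbig
          (fun S hS hc => by
            have := hmin S hc
            omega)
          (Finset.univ : Finset (Equiv.Perm V)) (fun π => copyG H π)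
          (fun G hG => by
            obtain ⟨π, hπ⟩ := hG
            refine ⟨π.symm, Finset.mem_univ _, fun u v huv => ?_⟩
            have := hπ _ _ (copyG_adj.1 huv)
            simpa using this)
          (by
            rw [Finset.card_univ, Fintype.card_perm, hn]
            calc n.factorial ≤ n ^ n := Nat.factorial_le_pow n
              _ ≤ (2 ^ lam) ^ n := Nat.pow_le_pow_left hlam.le n
              _ = 2 ^ (n * lam) := by rw [← pow_mul, mul_comm])
          (fun π _ => ⟨π.symm, fun u v huv => by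
            rw [copyG_adj]; simpa using huv⟩)
        refine le_trans (ENNReal.ofReal_le_ofReal ?_) h1
        refine le_of_eq ?_
        congr 1
        ring
      · -- small `n`
        push Not at hbig
        obtain ⟨G₀, hG₀1, hG₀2, hG₀3⟩ := exists_minimal (P := Hin H) H hHH
        refine le_trans (ENNReal.ofReal_le_ofReal ?_) (card_edges_le_R hG₀2 hG₀3)
        have h1 : 1 ≤ (edges G₀).card := by
          rw [Nat.one_le_iff_ne_zero, Ne, Finset.card_eq_zero]
          intro h0
          have hGbot : G₀ = ⊥ := by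
            rw [eq_bot_iff]
            intro u v huv
            have : s(u, v) ∈ edges G₀ := mem_edges.2 huv
            rw [h0] at this
            exact absurd this (Finset.notMem_empty _)
          subst hGbot
          obtain ⟨π, hπ⟩ := hG₀2
          apply hH
          rw [eq_bot_iff]
          intro u v huv
          exact hπ u v huv
        have h2 : (1 : ℝ) ≤ (edges G₀).card := by exact_mod_cast h1
        refine le_trans ?_ h2
        rw [div_le_one (by positivity)]
        have h3 : (n : ℝ) ≤ 4 * lam := by exact_mod_cast hbig.le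
        have h4 : (n : ℝ) ^ 2 ≤ 16 * (lam : ℝ) ^ 2 := by nlinarith
        have h5 : (lam : ℝ) ^ 2 ≤ (lam : ℝ) ^ 4 := pow_le_pow_right₀ hlamR (by norm_num)
        have h6 : 0 ≤ (lam : ℝ) ^ 4 := by positivity
        nlinarith

end Pool.Agent.KarpGP
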