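import Pool.Agent.KarpGP.Restrict

/-!
Transfer from decision trees to query algorithms given by functions of the history.
-/

set_option autoImplicit false

set_option linter.unusedSectionVars false

open scoped ENNReal
open Classical

namespace Pool.Agent.KarpGP

universe u

variable {V : Type u}

/-- The decision tree of a query algorithm, cut off after `K` steps. -/
noncomputable def mkTree (nx : List (Sym2 V × Bool) → Option (Sym2 V))
    (ot : List (Sym2 V × Bool) → Bool) : ℕ → List (Sym2 V × Bool) → DTree V
  | 0, h => DTree.leaf (ot h)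
  | K + 1, h =>
    match nx h with
    | none => DTree.leaf (ot h)
    | some e => DTree.query (Quot.out e).1 (Quot.out e).2 (mkTree nx ot K (h ++ [(e, false)]))
        (mkTree nx ot K (h ++ [(e, true)]))

theorem out_adj (G : SimpleGraph V) (e : Sym2 V) :
    G.Adj (Quot.out e).1 (Quot.out e).2 ↔ e ∈ G.edgeSet := by
  have h : s((Quot.out e).1, (Quot.out e).2) = e := by
    change Quot.mk _ ((Quot.out e).1, (Quot.out e).2) = e
    rw [Prod.mk.eta]
    exact Quot.out_eq e
  rw [← SimpleGraph.mem_edgeSet, h]

theorem mkTree_spec (nx : List (Sym2 V × Bool) → Option (Sym2 V))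
    (ot : List (Sym2 V × Bool) → Bool) (G : SimpleGraph V) : ∀ (K : ℕ)
    (h : List (Sym2 V × Bool)),
    (mkTree nx ot K h).eval G = ot (Nat.iterate (fun h : List (Sym2 V × Bool) =>
      (nx h).elim h (fun e => h ++ [(e, decide (e ∈ G.edgeSet))])) K h) ∧
    (Nat.iterate (fun h : List (Sym2 V × Bool) =>
      (nx h).elim h (fun e => h ++ [(e, decide (e ∈ G.edgeSet))])) K h).length =
      h.length + (mkTree nx ot K h).cost G := by
  intro K
  induction K with
  | zero => intro h; simp [mkTree, DTree.eval, DTree.cost]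
  | succ K ih =>
    intro h
    rw [Function.iterate_succ_apply]
    cases hnx : nx h with
    | none =>
      have hfix : ∀ K : ℕ, Nat.iterate (fun h : List (Sym2 V × Bool) =>
          (nx h).elim h (fun e => h ++ [(e, decide (e ∈ G.edgeSet))])) K h = h := by
        intro K
        apply Function.iterate_fixed
        simp [hnx]
      simp only [Option.elim_none]
      rw [hfix]
      simp [mkTree, hnx, DTree.eval, DTree.cost]
    | some e =>
      simp only [Option.elim_some]
      have h1 := ih (h ++ [(e, decide (e ∈ G.edgeSet))])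
      by_cases he : e ∈ G.edgeSet
      · have h2 : G.Adj (Quot.out e).1 (Quot.out e).2 := (out_adj G e).2 he
        simp only [he, decide_true] at h1 ⊢
        simp only [mkTree, hnx, DTree.eval, DTree.cost, h2, if_true]
        refine ⟨h1.1, ?_⟩
        rw [h1.2]
        simp
        omega
      · have h2 : ¬ G.Adj (Quot.out e).1 (Quot.out e).2 := fun hc => he ((out_adj G e).1 hc)
        simp only [he, decide_false] at h1 ⊢
        simp only [mkTree, hnx, DTree.eval, DTree.cost, h2, if_false]
        refine ⟨h1.1, ?_⟩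
        rw [h1.2]
        simp
        omega

theorem expCost_map {k : ℕ} (μ : PMF (Fin k)) (T : Fin k → DTree V) (G : SimpleGraph V) :
    expCost (μ.map T) G = ∑ i, μ i * ((T i).cost G : ℝ≥0∞) := by
  unfold expCost
  have h1 : ∀ T' : DTree V, (μ.map T) T' * (T'.cost G : ℝ≥0∞)
      = ∑ i, (if T' = T i then μ i * (T'.cost G : ℝ≥0∞) else 0) := by
    intro T'
    rw [PMF.map_apply, ← ENNReal.tsum_mul_right, tsum_fintype]
    refine Finset.sum_congr rfl fun i _ => ?_
    split_ifs <;> simp
  rw [tsum_congr h1, Summable.tsum_finsetSum (fun i _ => ENNReal.summable)]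
  refine Finset.sum_congr rfl fun i _ => ?_
  rw [tsum_eq_single (T i)]
  · rw [if_pos rfl]
  · intro T' hT'
    rw [if_neg hT']

/-- The transfer theorem. -/
theorem transfer [Fintype V] (P : SimpleGraph V → Prop) (B : ℝ)
    (hB : ENNReal.ofReal B ≤ R P) (k K : ℕ)
    (next : Fin k → List (Sym2 V × Bool) → Option (Sym2 V))
    (out : Fin k → List (Sym2 V × Bool) → Bool)
    (p : Fin k → ℝ) (hp : ∀ i, 0 ≤ p i) (hsum : (∑ i, p i) = 1)
    (halg : ∀ (i : Fin k) (G : SimpleGraph V),
        out i (Nat.iterate (fun h : List (Sym2 V × Bool) =>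
          (next i h).elim h (fun e => h ++ [(e, decide (e ∈ G.edgeSet))])) K []) =
          decide (P G)) :
    ∃ G : SimpleGraph V, B ≤ ∑ i, p i * (((Nat.iterate (fun h : List (Sym2 V × Bool) =>
      (next i h).elim h (fun e => h ++ [(e, decide (e ∈ G.edgeSet))])) K []).length : ℕ) : ℝ) := by
  set T : Fin k → DTree V := fun i => mkTree (next i) (out i) K [] with hT
  have hcomp : ∀ i, Computes (T i) P := by
    intro i G
    have h1 := (mkTree_spec (next i) (out i) G K []).1
    rw [halg i G] at h1
    rw [hT, h1, decide_eq_true_iff]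
  have hlen : ∀ i (G : SimpleGraph V), (Nat.iterate (fun h : List (Sym2 V × Bool) =>
      (next i h).elim h (fun e => h ++ [(e, decide (e ∈ G.edgeSet))])) K []).length =
      (T i).cost G := by
    intro i G
    have h1 := (mkTree_spec (next i) (out i) G K []).2
    simpa using h1
  have hone : ∑ i, ENNReal.ofReal (p i) = 1 := by
    rw [← ENNReal.ofReal_sum_of_nonneg (fun i _ => hp i), hsum, ENNReal.ofReal_one]
  set μ : PMF (Fin k) := PMF.ofFintype (fun i => ENNReal.ofReal (p i)) hone with hμ
  have h1 : R P ≤ ⨆ G : SimpleGraph V, expCost (μ.map T) G := by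
    refine iInf_le_of_le (μ.map T) (iInf_le_of_le ?_ le_rfl)
    intro T' hT'
    rw [PMF.support_map] at hT'
    obtain ⟨i, -, rfl⟩ := hT'
    exact hcomp i
  obtain ⟨G, hG⟩ := exists_eq_ciSup_of_finite (f := fun G : SimpleGraph V => expCost (μ.map T) G)
  refine ⟨G, ?_⟩
  have h2 : ENNReal.ofReal B ≤ expCost (μ.map T) G := by
    rw [hG]; exact hB.trans h1
  rw [expCost_map] at h2
  have h3 : ∑ i, μ i * ((T i).cost G : ℝ≥0∞) = ENNReal.ofReal (∑ i, p i * ((T i).cost G : ℝ)) := by
    rw [ENNReal.ofReal_sum_of_nonneg (fun i _ => mul_nonneg (hp i) (Nat.cast_nonneg _))]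
    refine Finset.sum_congr rfl fun i _ => ?_
    rw [ENNReal.ofReal_mul (hp i), ENNReal.ofReal_natCast]
    rfl
  rw [h3, ENNReal.ofReal_le_ofReal_iff (Finset.sum_nonneg fun i _ =>
    mul_nonneg (hp i) (Nat.cast_nonneg _))] at h2
  refine h2.trans (le_of_eq ?_)
  refine Finset.sum_congr rfl fun i _ => ?_
  rw [hlen]

end Pool.Agent.KarpGP
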