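import Pool.Agent.KarpGP.BadCount
import Pool.Agent.KarpGP.PartOneB
import Pool.Agent.KarpGP.Transfer

/-!
Subgraph containment for graphs with a large independent set.
-/

set_option autoImplicit false

set_option linter.unusedSectionVars false

open scoped ENNReal
open Classical

namespace Pool.Agent.KarpGP

universe u

variable {α : Type u} [Fintype α]

/-- The lower bound from non-edges chosen at random by the vertices. -/
theorem random_choices {Q : SimpleGraph α → Prop} (m t δ : ℕ) (hm : Fintype.card α = m)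
    (hδ1 : 1 ≤ δ) (hsmall : 8 * (t + δ) ≤ m)
    (h0 : ∀ N, Q (co N) → ∃ J : Finset α, J.Nonempty ∧ J.card ≤ t ∧
      ∀ x ∈ J, dgout N J x + 1 ≤ δ)
    (h1 : ∀ N', ¬ Q (co N') → ∀ x, δ ≤ dgin N' Finset.univ x) :
    ENNReal.ofReal ((m : ℝ) ^ 2 / 1400) ≤ R Q := by
  have hmpos : 0 < Fintype.card α := by omega
  have hmR : (0 : ℝ) < m := by rw [← hm]; exact_mod_cast hmpos
  have hδR : (1 : ℝ) ≤ δ := by exact_mod_cast hδ1
  set Ω : ℕ := Fintype.card (α → Fin (8 * δ) → α) with hΩ
  have hΩpos : 0 < Ω := by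
    rw [hΩ, Fintype.card_fun, Fintype.card_fun]
    positivity
  have hΩR : (0 : ℝ) < Ω := by exact_mod_cast hΩpos
  refine le_R_of_distribution_real (P := Q) (Finset.univ : Finset (α → Fin (8 * δ) → α))
    (fun _ => 1 / (Ω : ℝ)) (fun f => co (NN f)) (fun _ _ => by positivity) ?_ _ ?_
  · rw [Finset.sum_const, Finset.card_univ, nsmul_eq_mul, ← hΩ]
    field_simp
  · intro T hT
    set bad := Finset.univ.filter (fun f : α → Fin (8 * δ) → α => ∃ J : Finset α, J.Nonempty ∧
      J.card ≤ t ∧ ∀ x ∈ J, f x ∈ EJ (8 * δ) δ J) with hbad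
    have hbadc : (bad.card : ℝ) ≤ (Ω : ℝ) / 7 :=
      bad_count t δ hδ1 hmpos (by rw [hm]; exact hsmall)
    -- good choices have many found pairs
    have hgood : ∀ f : α → Fin (8 * δ) → α, f ∉ bad →
        m * δ ≤ 2 * (Finset.univ.filter (fun p : α × Fin (8 * δ) => Found T f p.1 p.2)).card := by
      intro f hf
      have hnQ : ¬ Q (co (NN f)) := by
        intro hQ
        obtain ⟨J, hJ1, hJ2, hJ3⟩ := h0 _ hQ
        apply hf
        rw [hbad, Finset.mem_filter]
        refine ⟨Finset.mem_univ _, J, hJ1, hJ2, fun x hx => ?_⟩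
        rw [EJ, Finset.mem_filter]
        refine ⟨Finset.mem_univ _, ?_⟩
        have h2 := hJ3 x hx
        have h3 : ((Finset.univ.image (f x)) \ J).card ≤ dgout (NN f) J x := by
          unfold dgout
          refine Finset.card_le_card ?_
          intro y hy
          rw [Finset.mem_sdiff, Finset.mem_image] at hy
          obtain ⟨⟨i, -, hi⟩, hyJ⟩ := hy
          rw [Finset.mem_filter, gr_adj]
          refine ⟨Finset.mem_univ _, hyJ, mem_NN.2 ⟨x, i, by rw [hi]⟩, ?_⟩
          rintro rfl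
          exact hyJ hx
        omega
      have hQ' := not_P_co_asked hT (N := NN f) hnQ
      set N' := T.asked (co (NN f)) ∩ NN f with hN'
      have h4 : ∀ x ∈ (Finset.univ : Finset α), δ ≤ dgin N' Finset.univ x :=
        fun x _ => h1 N' hQ' x
      have h5 := Finset.card_nsmul_le_sum _ _ _ h4
      rw [Finset.card_univ, hm, smul_eq_mul] at h5
      have h6 := card_sigma_le_two N' (Finset.univ : Finset α)
      have h7 : (inner (Finset.univ : Finset α) ∩ N').card ≤
          (Finset.univ.filter (fun p : α × Fin (8 * δ) => Found T f p.1 p.2)).card := by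
        refine le_trans (Finset.card_le_card ?_) (Finset.card_image_le
          (f := fun p : α × Fin (8 * δ) => s(p.1, f p.1 p.2)))
        intro e he
        rw [Finset.mem_inter, inner, Finset.mem_filter, mem_allPairs, hN', Finset.mem_inter] at he
        obtain ⟨⟨hdiag, -⟩, hA, hNN⟩ := he
        obtain ⟨x, i, rfl⟩ := mem_NN.1 hNN
        rw [Finset.mem_image]
        refine ⟨(x, i), ?_, rfl⟩
        rw [Finset.mem_filter]
        refine ⟨Finset.mem_univ _, ?_, hA⟩
        intro hc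
        apply hdiag
        rw [Sym2.mk_isDiag_iff]
        exact hc.symm
      refine h5.trans (h6.trans ?_)
      omega
    have hcost := choices_cost (K := 8 * δ) T (3 * m / 56)
    rw [← hΩ] at hcost
    -- the number of found pairs
    have hfound : (6 / 7 : ℝ) * Ω * (m * δ / 2) ≤ ∑ f : α → Fin (8 * δ) → α,
        ((Finset.univ.filter (fun p : α × Fin (8 * δ) => Found T f p.1 p.2)).card : ℝ) := by
      have h2 : ∑ f ∈ Finset.univ \ bad, ((m : ℝ) * δ / 2) ≤ ∑ f ∈ Finset.univ \ bad,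
          ((Finset.univ.filter (fun p : α × Fin (8 * δ) => Found T f p.1 p.2)).card : ℝ) := by
        refine Finset.sum_le_sum fun f hf => ?_
        have h3 := hgood f (Finset.mem_sdiff.1 hf).2
        have h4 : (m : ℝ) * δ ≤ 2 * ((Finset.univ.filter
          (fun p : α × Fin (8 * δ) => Found T f p.1 p.2)).card : ℝ) := by exact_mod_cast h3
        linarith
      have h5 : ∑ f ∈ Finset.univ \ bad,
          ((Finset.univ.filter (fun p : α × Fin (8 * δ) => Found T f p.1 p.2)).card : ℝ) ≤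
          ∑ f : α → Fin (8 * δ) → α,
          ((Finset.univ.filter (fun p : α × Fin (8 * δ) => Found T f p.1 p.2)).card : ℝ) :=
        Finset.sum_le_sum_of_subset_of_nonneg (Finset.subset_univ _)
          (fun _ _ _ => Nat.cast_nonneg _)
      refine le_trans ?_ (h2.trans h5)
      rw [Finset.sum_const, nsmul_eq_mul, Finset.card_sdiff_of_subset (Finset.subset_univ _),
        Finset.card_univ, ← hΩ]
      have h6 : bad.card ≤ Ω := by rw [hΩ]; exact Finset.card_le_univ _
      rw [Nat.cast_sub h6]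
      have h7 : (6 / 7 : ℝ) * Ω ≤ (Ω : ℝ) - bad.card := by linarith
      have h8 : 0 ≤ (m : ℝ) * δ / 2 := by positivity
      exact mul_le_mul_of_nonneg_right h7 h8
    rw [← Finset.mul_sum]
    set S : ℝ := ∑ f : α → Fin (8 * δ) → α, (T.cost (co (NN f)) : ℝ) with hS
    have h9 : (3 * m / 56) * ((6 / 7 : ℝ) * Ω * (m * δ / 2)) -
        ((8 * δ : ℕ) : ℝ) * Ω * (3 * m / 56) ^ 2 / 2 ≤ 2 * ((8 * δ : ℕ) : ℝ) * S := by
      refine le_trans ?_ hcost
      have : 0 ≤ (3 * (m : ℝ) / 56) := by positivity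
      have := mul_le_mul_of_nonneg_left hfound this
      linarith
    push_cast at h9
    have h10 : (16 * (δ : ℝ)) * (Ω * (9 * (m : ℝ) ^ 2 / 12544)) ≤ (16 * (δ : ℝ)) * S := by
      have h11 : (3 * (m : ℝ) / 56) * ((6 / 7 : ℝ) * Ω * (m * δ / 2)) -
        (8 * (δ : ℝ)) * Ω * (3 * m / 56) ^ 2 / 2 = (16 * (δ : ℝ)) * (Ω * (9 * (m : ℝ) ^ 2 / 12544)) := by
        ring
      rw [h11] at h9
      linarith
    have h12 : Ω * (9 * (m : ℝ) ^ 2 / 12544) ≤ S := le_of_mul_le_mul_left h10 (by positivity)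
    rw [one_div, ← div_eq_inv_mul, le_div_iff₀ hΩR]
    refine le_trans ?_ h12
    have h13 : 0 ≤ (m : ℝ) ^ 2 * Ω := by positivity
    nlinarith

variable {V : Type u} [Fintype V]

/-- Containment of graphs with a small vertex cover, without logarithms. -/
theorem part_one_sharp (H : SimpleGraph V) (n t : ℕ) (hn : Fintype.card V = n)
    (ht : 1 ≤ t) (C : Finset V) (hC : C.card = t)
    (hcov : H ≤ dom C) (hnot : ∀ Z : Finset V, Z.card = t - 1 → ¬ Hin H (dom Z))
    (h10 : 10 * t ≤ n) :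
    ENNReal.ofReal ((n : ℝ) ^ 2 / 2500) ≤ R (Hin H) := by
  have hHC : Hin H (dom C) := ⟨Equiv.refl _, fun u v huv => hcov huv⟩
  obtain ⟨d, hd1, hd2, hd3, hd4, -, hd6⟩ :=
    cert_bound (Hin.mono H) (Hin.isoInv H) t ht C hC hHC hnot
  rw [hn] at hd1 hd6
  -- the number of vertices outside `Z`
  obtain ⟨m, hm⟩ : ∃ m : ℕ, m + t = n + 1 := ⟨n + 1 - t, by omega⟩
  obtain ⟨δ, hδ⟩ : ∃ δ : ℕ, δ + d = m := ⟨m - d, by omega⟩
  have hδ1 : 1 ≤ δ := by omega
  have hmR : (m : ℝ) = (n : ℝ) - t + 1 := by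
    have : (m : ℝ) + t = n + 1 := by exact_mod_cast hm
    linarith
  have hδR : (δ : ℝ) = m - d := by
    have : (δ : ℝ) + d = m := by exact_mod_cast hδ
    linarith
  have hδ1R : (1 : ℝ) ≤ δ := by exact_mod_cast hδ1
  have h10R : 10 * (t : ℝ) ≤ n := by exact_mod_cast h10
  have hm9 : 9 * (n : ℝ) ≤ 10 * m := by rw [hmR]; linarith
  have hn0 : (0 : ℝ) ≤ n := Nat.cast_nonneg n
  have hm0 : (0 : ℝ) < m := by
    have : 0 < m := by omega
    exact_mod_cast this
  rw [← hmR, ← hδR] at hd6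
  have hsq : 81 * (n : ℝ) ^ 2 ≤ 100 * (m : ℝ) ^ 2 := by nlinarith
  by_cases hcase : 8 * (t + δ) ≤ m
  · obtain ⟨Z, -, hZ⟩ := Finset.exists_subset_card_eq (s := C) (n := t - 1) (by omega)
    have hcardZ : Fintype.card {v : V // v ∉ Z} = m := by rw [card_off, hZ, hn]; omega
    refine le_trans ?_ (R_PZ_le (Hin H) Z)
    refine le_trans (ENNReal.ofReal_le_ofReal ?_)
      (random_choices (Q := PZ (Hin H) Z) m t δ hcardZ hδ1 hcase
        (fun N hQ => ?_) (fun N' hQ' x => ?_))
    · nlinarith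
    · obtain ⟨J, hJ1, hJ2, hJ3⟩ := bad_event H t d ht C hC hcov hd4 Z hZ N hQ
      refine ⟨J, hJ1, hJ2, fun x hx => ?_⟩
      have := hJ3 x hx
      rw [hcardZ] at this
      omega
    · have := zero_deg (Hin.mono H) (Hin.isoInv H) t d hd3 Z hZ N' hQ' x
      rw [hcardZ] at this
      omega
  · refine le_trans (ENNReal.ofReal_le_ofReal ?_) hd6
    have h1 : (m : ℝ) < 8 * (t + δ) := by exact_mod_cast not_le.1 hcase
    have h2 : 9 * (t : ℝ) ≤ m := by rw [hmR]; linarith
    have h3 : (m : ℝ) ≤ 72 * δ := by linarith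
    nlinarith

/-- The bound in terms of the independence number. -/
theorem independence_bound (H : SimpleGraph V) (hH : H ≠ ⊥) (A : Finset V)
    (hA : ∀ u ∈ A, ∀ v ∈ A, ¬ H.Adj u v) :
    ENNReal.ofReal ((A.card : ℝ) ^ 2 / 2500) ≤ R (Hin H) := by
  set n : ℕ := Fintype.card V with hn
  -- the least size of a vertex cover
  set S : Set ℕ := {t | ∃ C : Finset V, C.card = t ∧ H ≤ dom C} with hS
  have hSA : n - A.card ∈ S := by
    refine ⟨Finset.univ \ A, ?_, fun u v huv => ⟨huv.ne, ?_⟩⟩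
    · rw [Finset.card_sdiff_of_subset (Finset.subset_univ _), Finset.card_univ]
    · by_cases hu : u ∈ A
      · right
        rw [Finset.mem_sdiff]
        exact ⟨Finset.mem_univ _, fun hv => hA u hu v hv huv⟩
      · left
        rw [Finset.mem_sdiff]
        exact ⟨Finset.mem_univ _, hu⟩
  set t : ℕ := sInf S with ht
  obtain ⟨C, hC, hcov⟩ : t ∈ S := Nat.sInf_mem ⟨_, hSA⟩
  have htA : t ≤ n - A.card := Nat.sInf_le hSA
  have hAn : A.card ≤ n := Finset.card_le_univ A
  have hmin : ∀ S : Finset V, Hin H (dom S) → t ≤ S.card := by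
    rintro S ⟨π, hπ⟩
    refine Nat.sInf_le ⟨S.image π.symm, Finset.card_image_of_injective _ π.symm.injective, ?_⟩
    intro u v huv
    refine ⟨huv.ne, ?_⟩
    rcases (hπ u v huv).2 with h | h
    · exact Or.inl (Finset.mem_image.2 ⟨_, h, by simp⟩)
    · exact Or.inr (Finset.mem_image.2 ⟨_, h, by simp⟩)
  have ht1 : 1 ≤ t := by
    by_contra hc
    have h0 : t = 0 := by omega
    rw [h0, Finset.card_eq_zero] at hC
    subst hC
    apply hH
    rw [eq_bot_iff]
    intro u v huv
    exact absurd (hcov huv).2 (by simp)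
  have hnot : ∀ Z : Finset V, Z.card = t - 1 → ¬ Hin H (dom Z) := by
    intro Z hZ hc
    have := hmin Z hc
    omega
  have hHC : Hin H (dom C) := ⟨Equiv.refl _, fun u v huv => hcov huv⟩
  have hA0 : (0 : ℝ) ≤ A.card := Nat.cast_nonneg _
  have hAnR : (A.card : ℝ) ≤ n := by exact_mod_cast hAn
  by_cases hsmall : 10 * t ≤ n
  · refine le_trans (ENNReal.ofReal_le_ofReal ?_)
      (part_one_sharp H n t hn.symm ht1 C hC hcov hnot hsmall)
    have : (A.card : ℝ) ^ 2 ≤ (n : ℝ) ^ 2 := by gcongr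
    linarith
  · refine le_trans (ENNReal.ofReal_le_ofReal ?_)
      (cert_bound' (Hin.mono H) (Hin.isoInv H) t ht1 C hC hHC hnot)
    rw [← hn]
    have h1 : (n : ℝ) < 10 * t := by exact_mod_cast (not_le.1 hsmall)
    have h2 : (A.card : ℝ) ≤ (n : ℝ) - t + 1 := by
      have : t + A.card ≤ n := by omega
      have h3 : (t : ℝ) + A.card ≤ n := by exact_mod_cast this
      linarith
    have h4 : (A.card : ℝ) / 5 ≤ min ((n : ℝ) - t + 1) (2 * t) := le_min (by linarith) (by linarith)
    have h5 : (A.card : ℝ) * (A.card / 5) ≤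
        ((n : ℝ) - t + 1) * min ((n : ℝ) - t + 1) (2 * t) := by
      have : (0 : ℝ) ≤ (n : ℝ) - t + 1 := by linarith
      gcongr
    nlinarith

end Pool.Agent.KarpGP
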