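import Pool.Agent.KarpGP.PartOneB
import Pool.Agent.KarpGP.Transfer

/-!
Subgraph containment: the statement for query algorithms given by functions of the history.
-/

set_option autoImplicit false

set_option linter.unusedSectionVars false

open scoped ENNReal
open Classical

namespace Pool.Agent.KarpGP

/-- The binary logarithm against the natural one. -/
theorem log_le (n : ℕ) (hn : 2 ≤ n) : ((Nat.log 2 n + 1 : ℕ) : ℝ) ≤ 4 * Real.log n := by
  set l : ℕ := Nat.log 2 n with hl
  have h1 : 2 ^ l ≤ n := Nat.pow_log_le_self 2 (by omega)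
  have h2 : 1 ≤ l := by
    rw [hl]
    exact Nat.log_pos (by norm_num) hn
  have h3 : (2 : ℝ) ^ l ≤ n := by exact_mod_cast h1
  have h4 : (l : ℝ) * Real.log 2 ≤ Real.log n := by
    rw [← Real.log_pow]
    exact Real.log_le_log (by positivity) h3
  have h5 : (0.6931471803 : ℝ) < Real.log 2 := Real.log_two_gt_d9
  have h6 : (1 : ℝ) ≤ l := by exact_mod_cast h2
  push_cast
  nlinarith

theorem containment_main : ∃ c : ℝ, 0 < c ∧ ∀ n : ℕ, 2 ≤ n → ∀ H : SimpleGraph (Fin n), H ≠ ⊥ →
    ENNReal.ofReal (c * (n : ℝ) ^ 2 / (Real.log n) ^ 4) ≤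
      R (fun G : SimpleGraph (Fin n) => H.IsContained G) := by
  refine ⟨1 / 6400000000, by norm_num, fun n hn H hH => ?_⟩
  have h1 := containment_bound H hH n (Nat.log 2 n + 1) (by simp)
    (Nat.lt_pow_succ_log_self (by norm_num) n) (by
      rw [pow_succ]
      have := Nat.pow_log_le_self 2 (x := n) (by omega)
      omega) (by omega)
  have h2 : Hin H = (fun G : SimpleGraph (Fin n) => H.IsContained G) := by
    funext G
    exact propext (hin_iff H G)
  rw [h2] at h1
  refine le_trans (ENNReal.ofReal_le_ofReal ?_) h1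
  have hlog := log_le n hn
  set l : ℝ := ((Nat.log 2 n + 1 : ℕ) : ℝ) with hl
  have hl1 : 1 ≤ l := by
    rw [hl]; push_cast
    have : (0 : ℝ) ≤ (Nat.log 2 n : ℝ) := Nat.cast_nonneg _
    linarith
  have hlogpos : 0 < Real.log n := by linarith
  have h3 : l ^ 4 ≤ (4 * Real.log n) ^ 4 := pow_le_pow_left₀ (by linarith) hlog 4
  rw [div_le_div_iff₀ (by positivity) (by positivity)]
  have h4 : 0 ≤ (n : ℝ) ^ 2 := by positivity
  have h5 : (4 * Real.log n) ^ 4 = 256 * (Real.log n) ^ 4 := by ring
  rw [h5] at h3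
  have h6 := mul_le_mul_of_nonneg_left h3 h4
  linarith

end Pool.Agent.KarpGP
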