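import Mathlib

/-!
A packing lemma: a graph `A` of maximum degree at most `D` and a graph `B` most of whose
vertices have small degree pack, provided the vertices of large degree of `B` can be placed on a
well spread set of vertices of `A`.
-/

set_option autoImplicit false

set_option linter.unusedSectionVars false

open Classical

namespace Pool.Agent.KarpGP

universe u

variable {α : Type u} [Fintype α]

/-- The degree of a vertex, as a natural number. -/
noncomputable def dg (A : SimpleGraph α) (x : α) : ℕ :=
  (Finset.univ.filter (fun y => A.Adj x y)).card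

/-- Stage one: a small set `L`, all of whose subsets have a vertex with at most `b` neighbours
inside, can be injected without conflicts into a set `X` in which every vertex of `A` has at most
`κ` neighbours. -/
theorem stage_one (A B : SimpleGraph α) (X : Finset α) (κ b : ℕ)
    (hX : ∀ x, (X.filter (fun y => A.Adj x y)).card ≤ κ) :
    ∀ (N : ℕ) (L : Finset α), L.card = N → L.card + b * κ < X.card + 1 →
      (∀ L' ⊆ L, L'.Nonempty → ∃ u ∈ L', (L'.filter (fun v => B.Adj u v)).card ≤ b) →
      ∃ h : α → α, Set.InjOn h L ∧ (∀ u ∈ L, h u ∈ X) ∧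
        (∀ u ∈ L, ∀ v ∈ L, B.Adj u v → ¬ A.Adj (h u) (h v)) := by
  intro N
  induction N with
  | zero =>
    intro L hL _ _
    have : L = ∅ := Finset.card_eq_zero.1 hL
    subst this
    exact ⟨id, by simp, by simp, by simp⟩
  | succ N ih =>
    intro L hL hcard hdeg
    have hne : L.Nonempty := by
      rw [← Finset.card_pos]; omega
    obtain ⟨u, hu, hub⟩ := hdeg L (Finset.Subset.refl _) hne
    have hcard' : (L.erase u).card = N := by
      rw [Finset.card_erase_of_mem hu]; omega
    obtain ⟨h, hinj, hmem, hconf⟩ := ih (L.erase u) hcard' (by omega)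
      (fun L' hL' hne' => hdeg L' (hL'.trans (Finset.erase_subset _ _)) hne')
    -- forbidden values for `u`
    set F1 : Finset α := (L.erase u).image h with hF1
    set F2 : Finset α := ((L.erase u).filter (fun v => B.Adj u v)).biUnion
      (fun v => X.filter (fun y => A.Adj (h v) y)) with hF2
    have hF1c : F1.card ≤ N := by
      rw [hF1]; exact Finset.card_image_le.trans (le_of_eq hcard')
    have hF2c : F2.card ≤ b * κ := by
      rw [hF2]
      refine Finset.card_biUnion_le.trans ?_
      refine (Finset.sum_le_card_nsmul _ _ κ (fun v _ => hX (h v))).trans ?_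
      rw [smul_eq_mul]
      refine Nat.mul_le_mul_right _ ?_
      refine (Finset.card_le_card ?_).trans hub
      intro v hv
      rw [Finset.mem_filter] at hv ⊢
      exact ⟨Finset.mem_of_mem_erase hv.1, hv.2⟩
    have : ∃ y ∈ X, y ∉ F1 ∪ F2 := by
      by_contra hcon
      push Not at hcon
      have hsub : X ⊆ F1 ∪ F2 := fun y hy => hcon y hy
      have h1 := Finset.card_le_card hsub
      have h2 := Finset.card_union_le F1 F2
      omega
    obtain ⟨y, hyX, hy⟩ := this
    rw [Finset.mem_union, not_or] at hy
    refine ⟨fun v => if v = u then y else h v, ?_, ?_, ?_⟩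
    · intro a ha c hc hac
      simp only at hac
      by_cases hau : a = u
      · by_cases hcu : c = u
        · rw [hau, hcu]
        · exfalso
          rw [if_pos hau, if_neg hcu] at hac
          apply hy.1
          rw [hF1, Finset.mem_image]
          exact ⟨c, Finset.mem_erase.2 ⟨hcu, by simpa using hc⟩, hac.symm⟩
      · by_cases hcu : c = u
        · exfalso
          rw [if_neg hau, if_pos hcu] at hac
          apply hy.1
          rw [hF1, Finset.mem_image]
          exact ⟨a, Finset.mem_erase.2 ⟨hau, by simpa using ha⟩, hac⟩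
        · rw [if_neg hau, if_neg hcu] at hac
          refine hinj ?_ ?_ hac
          · exact Finset.mem_coe.2 (Finset.mem_erase.2 ⟨hau, ha⟩)
          · exact Finset.mem_coe.2 (Finset.mem_erase.2 ⟨hcu, hc⟩)
    · intro v hv
      by_cases hvu : v = u
      · simp [hvu, hyX]
      · simp only [hvu, if_false]
        exact hmem v (Finset.mem_erase.2 ⟨hvu, hv⟩)
    · intro a ha c hc hBac hAac
      simp only at hAac
      by_cases hau : a = u
      · by_cases hcu : c = u
        · rw [hau, hcu] at hBac; exact B.loopless.irrefl _ hBac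
        · rw [if_pos hau, if_neg hcu] at hAac
          apply hy.2
          rw [hF2, Finset.mem_biUnion]
          refine ⟨c, ?_, ?_⟩
          · rw [Finset.mem_filter, Finset.mem_erase]
            exact ⟨⟨hcu, hc⟩, hau ▸ hBac⟩
          · rw [Finset.mem_filter]
            exact ⟨hyX, hAac.symm⟩
      · by_cases hcu : c = u
        · rw [if_neg hau, if_pos hcu] at hAac
          apply hy.2
          rw [hF2, Finset.mem_biUnion]
          refine ⟨a, ?_, ?_⟩
          · rw [Finset.mem_filter, Finset.mem_erase]
            exact ⟨⟨hau, ha⟩, (hcu ▸ hBac).symm⟩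
          · rw [Finset.mem_filter]
            exact ⟨hyX, hAac⟩
        · rw [if_neg hau, if_neg hcu] at hAac
          exact hconf a (Finset.mem_erase.2 ⟨hau, ha⟩) c (Finset.mem_erase.2 ⟨hcu, hc⟩) hBac hAac

/-- The conflicts of a placement. -/
noncomputable def conf (A B : SimpleGraph α) (π : Equiv.Perm α) : Finset (α × α) :=
  Finset.univ.filter (fun p => A.Adj p.1 p.2 ∧ B.Adj (π p.1) (π p.2))

/-- Stage two: switching. -/
theorem stage_two (A B : SimpleGraph α) (X L : Finset α) (D κ θ Bd : ℕ)
    (hA : ∀ x, dg A x ≤ D)
    (hX : ∀ x, (X.filter (fun y => A.Adj x y)).card ≤ κ)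
    (hB : ∀ u, dg B u ≤ Bd)
    (hL : ∀ u, u ∉ L → dg B u ≤ θ)
    (hcard : L.card + 2 + (κ * Bd + D * θ) + θ * D < Fintype.card α)
    (h : α → α) (hinj : Set.InjOn h L) (hmem : ∀ u ∈ L, h u ∈ X)
    (hconf : ∀ u ∈ L, ∀ v ∈ L, B.Adj u v → ¬ A.Adj (h u) (h v)) :
    ∃ π : Equiv.Perm α, ∀ x y, A.Adj x y → ¬ B.Adj (π x) (π y) := by
  -- an initial placement extending `h`
  obtain ⟨g, hg⟩ := Finset.exists_equiv_extend_of_card_eq (α := α) (β := α)
    (t := Finset.univ) (by simp) (s := L) (f := h) (Finset.subset_univ _) hinj
  let e0 : Equiv.Perm α := (g.trans (Equiv.subtypeUnivEquiv (fun x => Finset.mem_univ x)))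
  have he0 : ∀ u ∈ L, e0 u = h u := by
    intro u hu
    exact hg u hu
  -- the set of admissible placements
  let S : Finset (Equiv.Perm α) := Finset.univ.filter (fun π => ∀ u ∈ L, π (h u) = u)
  have hS : S.Nonempty := by
    refine ⟨e0.symm, ?_⟩
    rw [Finset.mem_filter]
    refine ⟨Finset.mem_univ _, fun u hu => ?_⟩
    rw [Equiv.symm_apply_eq, he0 u hu]
  obtain ⟨π, hπS, hmin⟩ := Finset.exists_min_image S (fun π => (conf A B π).card) hS
  have hπ : ∀ u ∈ L, π (h u) = u := (Finset.mem_filter.1 hπS).2
  refine ⟨π, fun x y hxy hBxy => ?_⟩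
  -- a conflict with `π y ∉ L`
  have key : ∀ x y, A.Adj x y → B.Adj (π x) (π y) → π y ∉ L → False := by
    intro x y hxy hBxy hyL
    set v := π y with hv
    set u := π x with hu
    let Bad1 : Finset α := (Finset.univ.filter (fun y' => A.Adj y y')).biUnion
      (fun y' => Finset.univ.filter (fun v' => B.Adj (π y') v'))
    let Bad2 : Finset α := (Finset.univ.filter (fun u' => B.Adj v u')).biUnion
      (fun u' => (Finset.univ.filter (fun w => A.Adj (π.symm u') w)).image π)
    have hBad1 : Bad1.card ≤ κ * Bd + D * θ := by
      have hsum : Bad1.card ≤ ∑ y' ∈ (Finset.univ.filter (fun y' => A.Adj y y')), dg B (π y') :=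
        Finset.card_biUnion_le
      refine hsum.trans ?_
      rw [← Finset.sum_filter_add_sum_filter_not _ (fun y' => π y' ∈ L)]
      refine Nat.add_le_add ?_ ?_
      · refine (Finset.sum_le_card_nsmul _ _ Bd (fun y' _ => hB _)).trans ?_
        rw [smul_eq_mul]
        refine Nat.mul_le_mul_right _ ?_
        refine (Finset.card_le_card ?_).trans (hX y)
        intro y' hy'
        rw [Finset.mem_filter, Finset.mem_filter] at hy'
        rw [Finset.mem_filter]
        refine ⟨?_, hy'.1.2⟩
        have h1 := hπ (π y') hy'.2
        have h2 : h (π y') = y' := π.injective h1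
        rw [← h2]
        exact hmem _ hy'.2
      · refine (Finset.sum_le_card_nsmul _ _ θ (fun y' hy' => ?_)).trans ?_
        · rw [Finset.mem_filter] at hy'
          exact hL _ hy'.2
        · rw [smul_eq_mul]
          refine Nat.mul_le_mul_right _ ?_
          exact (Finset.card_le_card (Finset.filter_subset _ _)).trans (hA y)
    have hBad2 : Bad2.card ≤ θ * D := by
      refine Finset.card_biUnion_le.trans ?_
      refine (Finset.sum_le_card_nsmul _ _ D (fun u' _ => ?_)).trans ?_
      · exact Finset.card_image_le.trans (hA _)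
      · rw [smul_eq_mul]
        exact Nat.mul_le_mul_right _ (hL v hyL)
    have hex : ∃ v', v' ∉ L ∪ ({u, v} : Finset α) ∪ (Bad1 ∪ Bad2) := by
      by_contra hcon
      push Not at hcon
      have h1 : Fintype.card α ≤ (L ∪ ({u, v} : Finset α) ∪ (Bad1 ∪ Bad2)).card := by
        rw [← Finset.card_univ]
        exact Finset.card_le_card (fun z _ => hcon z)
      have h2 := Finset.card_union_le (L ∪ ({u, v} : Finset α)) (Bad1 ∪ Bad2)
      have h3 := Finset.card_union_le L ({u, v} : Finset α)
      have h4 := Finset.card_union_le Bad1 Bad2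
      have h5 : ({u, v} : Finset α).card ≤ 2 := Finset.card_le_two
      omega
    obtain ⟨v', hv'⟩ := hex
    simp only [Finset.mem_union, not_or] at hv'
    obtain ⟨⟨hv'L, hv'uv⟩, hv'1, hv'2⟩ := hv'
    have hv'u : v' ≠ u := by
      rintro rfl; exact hv'uv (by simp)
    have hv'v : v' ≠ v := by
      rintro rfl; exact hv'uv (by simp)
    have hb1 : ∀ y', A.Adj y y' → ¬ B.Adj (π y') v' := by
      intro y' h1 h2
      apply hv'1
      simp only [Bad1, Finset.mem_biUnion, Finset.mem_filter, Finset.mem_univ, true_and]
      exact ⟨y', h1, h2⟩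
    set w := π.symm v' with hw
    have hπw : π w = v' := by simp [hw]
    have hb2 : ∀ w', A.Adj w w' → ¬ B.Adj (π w') v := by
      intro w' h1 h2
      apply hv'2
      simp only [Bad2, Finset.mem_biUnion, Finset.mem_filter, Finset.mem_univ, true_and,
        Finset.mem_image]
      refine ⟨π w', h2.symm, w, ?_, hπw⟩
      simpa using h1.symm
    have hwy : w ≠ y := by
      intro hc; apply hv'v; rw [← hπw, hc]
    have hwx : w ≠ x := by
      intro hc; apply hv'u; rw [← hπw, hc]
    have hxy' : x ≠ y := hxy.ne
    let π' : Equiv.Perm α := π.trans (Equiv.swap v v')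
    have hπ'y : π' y = v' := by
      simp [π', ← hv]
    have hπ'w : π' w = v := by
      simp [π', hπw]
    have hπ'o : ∀ a, a ≠ y → a ≠ w → π' a = π a := by
      intro a ha1 ha2
      have h1 : π a ≠ v := fun hc => ha1 (π.injective (hc.trans hv))
      have h2 : π a ≠ v' := fun hc => ha2 (π.injective (hc.trans hπw.symm))
      simp [π', Equiv.swap_apply_of_ne_of_ne h1 h2]
    have hπ'S : π' ∈ S := by
      rw [Finset.mem_filter]
      refine ⟨Finset.mem_univ _, fun u0 hu0 => ?_⟩
      have h1 : π (h u0) = u0 := hπ u0 hu0
      have h2 : u0 ≠ v := fun hc => hyL (hc ▸ hu0)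
      have h3 : u0 ≠ v' := fun hc => hv'L (hc ▸ hu0)
      simp [π', h1, Equiv.swap_apply_of_ne_of_ne h2 h3]
    have hsub : conf A B π' ⊆ (conf A B π).erase (x, y) := by
      rintro ⟨a, c⟩ hac
      rw [conf, Finset.mem_filter] at hac
      obtain ⟨-, hAac, hBac⟩ := hac
      simp only at hAac hBac
      have hac' : a ≠ c := hAac.ne
      rw [Finset.mem_erase, conf, Finset.mem_filter]
      simp only
      by_cases hay : a = y
      · subst hay
        by_cases hcw : c = w
        · subst hcw
          rw [hπ'y, hπ'w] at hBac
          refine ⟨?_, Finset.mem_univ _, hAac, ?_⟩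
          · intro hc
            rw [Prod.mk.injEq] at hc
            exact hxy' hc.1.symm
          · rw [← hv, hπw]; exact hBac.symm
        · exfalso
          rw [hπ'y, hπ'o c (Ne.symm hac') hcw] at hBac
          exact hb1 c hAac hBac.symm
      · by_cases haw : a = w
        · subst haw
          by_cases hcy : c = y
          · subst hcy
            rw [hπ'y, hπ'w] at hBac
            refine ⟨?_, Finset.mem_univ _, hAac, ?_⟩
            · intro hc
              rw [Prod.mk.injEq] at hc
              exact hwx hc.1
            · rw [← hv, hπw]; exact hBac.symm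
          · exfalso
            rw [hπ'w, hπ'o c hcy (Ne.symm hac')] at hBac
            exact hb2 c hAac hBac.symm
        · rw [hπ'o a hay haw] at hBac
          by_cases hcy : c = y
          · subst hcy
            exfalso
            rw [hπ'y] at hBac
            exact hb1 a hAac.symm hBac
          · by_cases hcw : c = w
            · subst hcw
              exfalso
              rw [hπ'w] at hBac
              exact hb2 a hAac.symm hBac
            · rw [hπ'o c hcy hcw] at hBac
              refine ⟨?_, Finset.mem_univ _, hAac, hBac⟩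
              intro hc
              rw [Prod.mk.injEq] at hc
              exact hcy hc.2
    have hmemxy : (x, y) ∈ conf A B π := by
      rw [conf, Finset.mem_filter]
      exact ⟨Finset.mem_univ _, hxy, hBxy⟩
    have h1 := Finset.card_le_card hsub
    have h2 := Finset.card_erase_of_mem hmemxy
    have h3 : 0 < (conf A B π).card := Finset.card_pos.2 ⟨_, hmemxy⟩
    have h4 : (conf A B π).card ≤ (conf A B π').card := hmin π' hπ'S
    omega
  by_cases hyL : π y ∈ L
  · by_cases hxL : π x ∈ L
    · have h1 : h (π y) = y := π.injective (hπ _ hyL)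
      have h2 : h (π x) = x := π.injective (hπ _ hxL)
      apply hconf (π x) hxL (π y) hyL hBxy
      rw [h1, h2]; exact hxy
    · exact key y x hxy.symm hBxy.symm hxL
  · exact key x y hxy hBxy hyL

/-- The packing lemma. -/
theorem packing (A B : SimpleGraph α) (X L : Finset α) (D κ θ Bd b : ℕ)
    (hA : ∀ x, dg A x ≤ D)
    (hX : ∀ x, (X.filter (fun y => A.Adj x y)).card ≤ κ)
    (hB : ∀ u, dg B u ≤ Bd)
    (hL : ∀ u, u ∉ L → dg B u ≤ θ)
    (hdeg : ∀ L' ⊆ L, L'.Nonempty → ∃ u ∈ L', (L'.filter (fun v => B.Adj u v)).card ≤ b)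
    (h1 : L.card + b * κ < X.card + 1)
    (h2 : L.card + 2 + (κ * Bd + D * θ) + θ * D < Fintype.card α) :
    ∃ π : Equiv.Perm α, ∀ x y, A.Adj x y → ¬ B.Adj (π x) (π y) := by
  obtain ⟨h, hinj, hmem, hconf⟩ := stage_one A B X κ b hX L.card L rfl h1 hdeg
  exact stage_two A B X L D κ θ Bd hA hX hB hL h2 h hinj hmem hconf

/-- Well spread large sets exist. -/
theorem exists_spread (A : SimpleGraph α) (D κ q : ℕ) (hq : 0 < q)
    (hA : ∀ x, dg A x ≤ D)
    (hnum : Fintype.card α * (q * D.choose (κ + 1)) < q ^ (κ + 1)) :
    ∃ X : Finset α, Fintype.card α ≤ q * X.card ∧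
      ∀ x, (X.filter (fun y => A.Adj x y)).card ≤ κ := by
  -- the bad functions
  let nb : α → Finset α := fun x => Finset.univ.filter (fun y => A.Adj x y)
  let bad : α → Fin q → Finset α → Finset (α → Fin q) :=
    fun _ i S => Fintype.piFinset (fun a => if a ∈ S then {i} else Finset.univ)
  have hbad : ∀ x i S, (bad x i S).card = q ^ (Fintype.card α - S.card) := by
    intro x i S
    change (Fintype.piFinset (fun a => if a ∈ S then ({i} : Finset (Fin q))
      else Finset.univ)).card = _
    rw [Fintype.card_piFinset]
    rw [← Finset.prod_filter_mul_prod_filter_not Finset.univ (fun a => a ∈ S)]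
    have e1 : ∏ a ∈ Finset.univ.filter (fun a => a ∈ S), (if a ∈ S then ({i} : Finset (Fin q))
        else Finset.univ).card = 1 := by
      refine Finset.prod_eq_one fun a ha => ?_
      rw [Finset.mem_filter] at ha
      simp [ha.2]
    have e2 : ∏ a ∈ Finset.univ.filter (fun a => ¬ a ∈ S), (if a ∈ S then ({i} : Finset (Fin q))
        else Finset.univ).card = q ^ (Fintype.card α - S.card) := by
      have : ∀ a ∈ Finset.univ.filter (fun a => ¬ a ∈ S), (if a ∈ S then ({i} : Finset (Fin q))
        else Finset.univ).card = q := by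
        intro a ha
        rw [Finset.mem_filter] at ha
        simp [ha.2]
      rw [Finset.prod_congr rfl this, Finset.prod_const]
      congr 1
      rw [Finset.filter_not, Finset.card_sdiff_of_subset (Finset.filter_subset _ _),
        Finset.card_univ]
      congr 2
      ext a; simp
    rw [e1, e2, one_mul]
  let Allbad : Finset (α → Fin q) := Finset.univ.biUnion (fun x : α =>
    Finset.univ.biUnion (fun i : Fin q => ((nb x).powersetCard (κ + 1)).biUnion (fun S => bad x i S)))
  have hle : Allbad.card * q ^ (κ + 1) ≤
      Fintype.card α * (q * D.choose (κ + 1)) * q ^ (Fintype.card α) := by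
    by_cases hk : κ + 1 ≤ Fintype.card α
    · have h1 : Allbad.card ≤ Fintype.card α * (q * (D.choose (κ + 1) *
          q ^ (Fintype.card α - (κ + 1)))) := by
        refine Finset.card_biUnion_le.trans ?_
        refine (Finset.sum_le_card_nsmul _ _ (q * (D.choose (κ + 1) *
          q ^ (Fintype.card α - (κ + 1)))) (fun x _ => ?_)).trans ?_
        · refine Finset.card_biUnion_le.trans ?_
          refine (Finset.sum_le_card_nsmul _ _ (D.choose (κ + 1) *
            q ^ (Fintype.card α - (κ + 1))) (fun i _ => ?_)).trans ?_
          · refine Finset.card_biUnion_le.trans ?_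
            refine (Finset.sum_le_card_nsmul _ _ (q ^ (Fintype.card α - (κ + 1)))
              (fun S hS => ?_)).trans ?_
            · rw [hbad x i S, (Finset.mem_powersetCard.1 hS).2]
            · rw [smul_eq_mul, Finset.card_powersetCard]
              exact Nat.mul_le_mul_right _ (Nat.choose_le_choose _ (hA x))
          · rw [smul_eq_mul, Finset.card_univ, Fintype.card_fin]
        · rw [smul_eq_mul, Finset.card_univ]
      calc Allbad.card * q ^ (κ + 1) ≤ Fintype.card α * (q * (D.choose (κ + 1) *
          q ^ (Fintype.card α - (κ + 1)))) * q ^ (κ + 1) := Nat.mul_le_mul_right _ h1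
        _ = Fintype.card α * (q * D.choose (κ + 1)) *
            (q ^ (Fintype.card α - (κ + 1)) * q ^ (κ + 1)) := by ring
        _ = Fintype.card α * (q * D.choose (κ + 1)) * q ^ (Fintype.card α) := by
            rw [← pow_add, Nat.sub_add_cancel hk]
    · have : Allbad = ∅ := by
        rw [Finset.eq_empty_iff_forall_notMem]
        intro χ hχ
        simp only [Allbad, Finset.mem_biUnion, Finset.mem_univ, true_and] at hχ
        obtain ⟨x, i, S, hS, -⟩ := hχ
        have h1 := (Finset.mem_powersetCard.1 hS).2
        have h2 := Finset.card_le_univ S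
        omega
      rw [this]; simp
  have hlt : Allbad.card < q ^ (Fintype.card α) := by
    have hqpos : 0 < q ^ (κ + 1) := pow_pos hq _
    have hqpos' : 0 < q ^ (Fintype.card α) := pow_pos hq _
    by_contra hcon
    push Not at hcon
    have h1 : q ^ (Fintype.card α) * q ^ (κ + 1) ≤ Allbad.card * q ^ (κ + 1) :=
      Nat.mul_le_mul_right _ hcon
    have h2 : q ^ (Fintype.card α) * q ^ (κ + 1) ≤
      Fintype.card α * (q * D.choose (κ + 1)) * q ^ (Fintype.card α) := h1.trans hle
    have h3 : q ^ (κ + 1) ≤ Fintype.card α * (q * D.choose (κ + 1)) := by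
      rw [Nat.mul_comm (Fintype.card α * (q * D.choose (κ + 1)))] at h2
      exact Nat.le_of_mul_le_mul_left h2 hqpos'
    omega
  have hex : ∃ χ : α → Fin q, χ ∉ Allbad := by
    by_contra hcon
    push Not at hcon
    have h1 : (Finset.univ : Finset (α → Fin q)).card ≤ Allbad.card :=
      Finset.card_le_card (fun z _ => hcon z)
    rw [Finset.card_univ, Fintype.card_fun, Fintype.card_fin] at h1
    omega
  obtain ⟨χ, hχ⟩ := hex
  -- a large colour class
  have hpig : ∃ i : Fin q, Fintype.card α ≤ q * (Finset.univ.filter (fun a => χ a = i)).card := by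
    by_contra hcon
    push Not at hcon
    have h1 : ∑ i : Fin q, q * (Finset.univ.filter (fun a => χ a = i)).card
        = q * Fintype.card α := by
      rw [← Finset.mul_sum]
      congr 1
      have := Finset.card_eq_sum_card_fiberwise (s := (Finset.univ : Finset α))
        (t := (Finset.univ : Finset (Fin q))) (f := χ) (fun a _ => Finset.mem_coe.2 (Finset.mem_univ _))
      rw [Finset.card_univ] at this
      exact this.symm
    have hne : (Finset.univ : Finset (Fin q)).Nonempty := ⟨⟨0, hq⟩, Finset.mem_univ _⟩
    have h2 : ∑ i : Fin q, q * (Finset.univ.filter (fun a => χ a = i)).card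
        < ∑ _i : Fin q, Fintype.card α := Finset.sum_lt_sum_of_nonempty hne (fun i _ => hcon i)
    rw [h1, Finset.sum_const, Finset.card_univ, Fintype.card_fin, smul_eq_mul] at h2
    exact lt_irrefl _ h2
  obtain ⟨i, hi⟩ := hpig
  refine ⟨Finset.univ.filter (fun a => χ a = i), hi, fun x => ?_⟩
  by_contra hcon
  push Not at hcon
  have hcon' : κ + 1 ≤ ((Finset.univ.filter (fun a => χ a = i)).filter
    (fun y => A.Adj x y)).card := hcon
  obtain ⟨S, hS1, hS2⟩ := Finset.exists_subset_card_eq hcon'
  apply hχ
  simp only [Allbad, Finset.mem_biUnion, Finset.mem_univ, true_and]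
  refine ⟨x, i, S, ?_, ?_⟩
  · rw [Finset.mem_powersetCard]
    refine ⟨fun y hy => ?_, hS2⟩
    have := hS1 hy
    rw [Finset.mem_filter] at this
    simp [nb, this.2]
  · simp only [bad, Fintype.mem_piFinset]
    intro a
    by_cases ha : a ∈ S
    · have := hS1 ha
      rw [Finset.mem_filter, Finset.mem_filter] at this
      simp [ha, this.1.2]
    · simp [ha]

end Pool.Agent.KarpGP
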