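import Pool.Agent.KarpGP.Cert

/-!
Subgraph containment for graphs with a small vertex cover.
-/

set_option autoImplicit false

set_option linter.unusedSectionVars false

open scoped ENNReal
open Classical

namespace Pool.Agent.KarpGP

universe u

variable {V : Type u} [Fintype V]

theorem geom_le (t : ℕ) : ∑ j ∈ Finset.Icc 1 t, (1 / 8 : ℝ) ^ j ≤ 1 / 7 := by
  have h : ∀ t : ℕ, ∑ j ∈ Finset.Icc 1 t, (1 / 8 : ℝ) ^ j = (1 - (1 / 8) ^ t) / 7 := by
    intro t
    induction t with
    | zero => simp
    | succ t ih =>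
      rw [Finset.sum_Icc_succ_top (by omega), ih, pow_succ]
      ring
  rw [h]
  have : (0 : ℝ) ≤ (1 / 8) ^ t := by positivity
  linarith

/-- The number of neighbours of `v` in `gr N` outside `J`. -/
noncomputable def dgout (N : Finset (Sym2 V)) (J : Finset V) (v : V) : ℕ :=
  (Finset.univ.filter (fun w => w ∉ J ∧ (gr N).Adj v w)).card

theorem dgout_eq [DecidableEq V] (N : Finset (Sym2 V)) (J : Finset V) (v : V) :
    dgout N J v = dgin N (Finset.univ \ J) v := by
  unfold dgout dgin
  congr 1
  ext w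
  simp only [Finset.mem_filter, Finset.mem_univ, true_and, Finset.mem_sdiff]

/-- The probability that the vertices of some small set all have small degree to the outside. -/
theorem pr_sparse_le {ρ : ℝ} (h0 : 0 ≤ ρ) (h1 : ρ ≤ 1) (t k : ℕ)
    (hx : (Fintype.card V : ℝ) ^ (k + 1) * (1 - ρ) ^ (Fintype.card V - t - k) ≤ 1 / 8) :
    pr ρ (allPairs V) (fun N => ∃ J : Finset V, J.Nonempty ∧ J.card ≤ t ∧
      ∀ x ∈ J, dgout N J x ≤ k) ≤ 1 / 7 := by
  simp only [dgout_eq]
  set m : ℕ := Fintype.card V with hm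
  -- the pairs that are avoided
  let A : (j : ℕ) → (Fin j → V × (Fin k → V)) → Finset (Sym2 V) := fun j φ =>
    ((Finset.univ : Finset (Fin j)).sigma (fun i => Finset.univ.filter
      (fun y => (∀ i', (φ i').1 ≠ y) ∧ ∀ l, (φ i).2 l ≠ y))).image
        (fun p : (_ : Fin j) × V => s((φ p.1).1, p.2))
  have step : pr ρ (allPairs V) (fun N => ∃ J : Finset V, J.Nonempty ∧ J.card ≤ t ∧
      ∀ x ∈ J, dgin N (Finset.univ \ J) x ≤ k) ≤
      pr ρ (allPairs V) (fun N => ∃ j ∈ Finset.Icc 1 t,
        ∃ φ ∈ (Finset.univ : Finset (Fin j → V × (Fin k → V))).filter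
          (fun φ => Function.Injective (fun i => (φ i).1)), Disjoint (A j φ) N) := by
    refine pr_mono h0 h1 _ fun N _ hN => ?_
    obtain ⟨J, hJ1, hJ2, hJ3⟩ := hN
    refine ⟨J.card, Finset.mem_Icc.2 ⟨Finset.card_pos.2 hJ1, hJ2⟩, ?_⟩
    -- enumerate `J`
    let a : Fin J.card ≃ {x // x ∈ J} := J.equivFin.symm
    have hcov : ∀ x ∈ J, ∃ f : Fin k → V, ∀ y, y ∉ J → (gr N).Adj x y → ∃ l, f l = y := by
      intro x hx
      have h2 := hJ3 x hx
      unfold dgin at h2
      set B := (Finset.univ \ J).filter (fun w => (gr N).Adj x w) with hB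
      refine ⟨fun l => if h : l.1 < B.card then (B.equivFin.symm ⟨l.1, h⟩ : V) else x, ?_⟩
      intro y hy hadj
      have hyB : y ∈ B := by
        rw [hB, Finset.mem_filter, Finset.mem_sdiff]
        exact ⟨⟨Finset.mem_univ _, hy⟩, hadj⟩
      set l := B.equivFin ⟨y, hyB⟩ with hl
      refine ⟨⟨l.1, lt_of_lt_of_le l.2 h2⟩, ?_⟩
      simp only [l.2, dif_pos]
      simp [hl]
    choose f hf using hcov
    refine ⟨fun i => ((a i).1, f (a i).1 (a i).2), ?_, ?_⟩
    · rw [Finset.mem_filter]
      refine ⟨Finset.mem_univ _, ?_⟩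
      intro i i' h
      exact a.injective (Subtype.ext h)
    · rw [Finset.disjoint_left]
      intro e he heN
      simp only [A, Finset.mem_image, Finset.mem_sigma, Finset.mem_filter, Finset.mem_univ,
        true_and] at he
      obtain ⟨⟨i, y⟩, ⟨hy1, hy2⟩, rfl⟩ := he
      have hyJ : y ∉ J := by
        intro hyJ
        refine hy1 (a.symm ⟨y, hyJ⟩) ?_
        simp
      have hne : (a i).1 ≠ y := fun h => hyJ (h ▸ (a i).2)
      obtain ⟨l, hl⟩ := hf (a i).1 (a i).2 y hyJ (gr_adj.2 ⟨heN, hne⟩)
      exact hy2 l hl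
  refine step.trans ((pr_exists_le h0 h1 _ _ _).trans ?_)
  refine le_trans ?_ (geom_le t)
  refine Finset.sum_le_sum fun j hj => ?_
  rw [Finset.mem_Icc] at hj
  refine (pr_exists_le h0 h1 _ _ _).trans ?_
  have hbound : ∀ φ ∈ (Finset.univ : Finset (Fin j → V × (Fin k → V))).filter
          (fun φ => Function.Injective (fun i => (φ i).1)),
      pr ρ (allPairs V) (fun N => Disjoint (A j φ) N) ≤ ((1 - ρ) ^ (m - t - k)) ^ j := by
    intro φ hφ
    rw [Finset.mem_filter] at hφ
    have hinj := hφ.2
    rw [pr_disjoint]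
    · rw [← pow_mul]
      refine pow_le_pow_of_le_one (by linarith) (by linarith) ?_
      -- the number of avoided pairs
      have hc : (A j φ).card = ∑ i : Fin j, (Finset.univ.filter
          (fun y => (∀ i', (φ i').1 ≠ y) ∧ ∀ l, (φ i).2 l ≠ y)).card := by
        rw [← Finset.card_sigma]
        refine Finset.card_image_of_injOn ?_
        rintro ⟨i, y⟩ hi ⟨i', y'⟩ hi' heq
        simp only [Finset.coe_sigma, Finset.coe_filter, Finset.mem_univ, true_and,
          Set.mem_sigma_iff, Finset.mem_coe, Set.mem_ofPred_eq] at hi hi'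
        simp only [Sym2.eq_iff] at heq
        rcases heq with ⟨h2, h3⟩ | ⟨h2, h3⟩
        · have h4 : i = i' := hinj h2
          subst h4; subst h3; rfl
        · exact absurd h3.symm (hi.1 i')
      rw [hc]
      have hlow : ∀ i ∈ (Finset.univ : Finset (Fin j)), m - t - k ≤ (Finset.univ.filter
          (fun y => (∀ i', (φ i').1 ≠ y) ∧ ∀ l, (φ i).2 l ≠ y)).card := by
        intro i _
        have hsub : (Finset.univ : Finset V) ⊆ (Finset.univ.filter
          (fun y => (∀ i', (φ i').1 ≠ y) ∧ ∀ l, (φ i).2 l ≠ y)) ∪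
            ((Finset.univ : Finset (Fin j)).image (fun i' => (φ i').1) ∪
              (Finset.univ : Finset (Fin k)).image (fun l => (φ i).2 l)) := by
          intro y _
          by_cases hy : (∀ i', (φ i').1 ≠ y) ∧ ∀ l, (φ i).2 l ≠ y
          · exact Finset.mem_union_left _ (by simp [hy])
          · refine Finset.mem_union_right _ ?_
            rw [not_and_or] at hy
            push Not at hy
            rcases hy with ⟨i', hi'⟩ | ⟨l, hl⟩
            · exact Finset.mem_union_left _ (Finset.mem_image.2 ⟨i', Finset.mem_univ _, hi'⟩)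
            · exact Finset.mem_union_right _ (Finset.mem_image.2 ⟨l, Finset.mem_univ _, hl⟩)
        have h2 := Finset.card_le_card hsub
        rw [Finset.card_univ, ← hm] at h2
        have h3 := Finset.card_union_le (Finset.univ.filter
          (fun y => (∀ i', (φ i').1 ≠ y) ∧ ∀ l, (φ i).2 l ≠ y))
            ((Finset.univ : Finset (Fin j)).image (fun i' => (φ i').1) ∪
              (Finset.univ : Finset (Fin k)).image (fun l => (φ i).2 l))
        have h4 := Finset.card_union_le ((Finset.univ : Finset (Fin j)).image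
          (fun i' => (φ i').1)) ((Finset.univ : Finset (Fin k)).image (fun l => (φ i).2 l))
        have h5 : ((Finset.univ : Finset (Fin j)).image (fun i' => (φ i').1)).card ≤ j := by
          refine Finset.card_image_le.trans ?_; simp
        have h6 : ((Finset.univ : Finset (Fin k)).image (fun l => (φ i).2 l)).card ≤ k := by
          refine Finset.card_image_le.trans ?_; simp
        omega
      have h7 := Finset.card_nsmul_le_sum (Finset.univ : Finset (Fin j)) _ _ hlow
      rw [Finset.card_univ, Fintype.card_fin, smul_eq_mul] at h7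
      rw [mul_comm]
      exact h7
    · intro e he
      simp only [A, Finset.mem_image, Finset.mem_sigma, Finset.mem_filter, Finset.mem_univ,
        true_and] at he
      obtain ⟨⟨i, y⟩, ⟨hy1, hy2⟩, rfl⟩ := he
      rw [mem_allPairs, Sym2.mk_isDiag_iff]
      exact hy1 i
  refine (Finset.sum_le_card_nsmul _ _ _ hbound).trans ?_
  rw [nsmul_eq_mul]
  have hcard : ((((Finset.univ : Finset (Fin j → V × (Fin k → V))).filter
          (fun φ => Function.Injective (fun i => (φ i).1))).card : ℕ) : ℝ) ≤
      ((m : ℝ) ^ (k + 1)) ^ j := by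
    have h2 : ((Finset.univ : Finset (Fin j → V × (Fin k → V))).filter
          (fun φ => Function.Injective (fun i => (φ i).1))).card ≤ (m ^ (k + 1)) ^ j := by
      refine (Finset.card_le_card (Finset.filter_subset _ _)).trans ?_
      rw [Finset.card_univ]
      simp only [Fintype.card_fun, Fintype.card_prod, Fintype.card_fin, ← hm]
      rw [pow_succ, mul_comm]
    exact_mod_cast h2
  calc _ ≤ ((m : ℝ) ^ (k + 1)) ^ j * ((1 - ρ) ^ (m - t - k)) ^ j :=
        mul_le_mul_of_nonneg_right hcard (by
          have : 0 ≤ 1 - ρ := by linarith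
          positivity)
    _ = ((m : ℝ) ^ (k + 1) * (1 - ρ) ^ (m - t - k)) ^ j := by rw [← mul_pow]
    _ ≤ (1 / 8) ^ j := by
        refine pow_le_pow_left₀ ?_ hx j
        have : 0 ≤ 1 - ρ := by linarith
        positivity

/-- The lower bound from a sparse random set of non-edges. -/
theorem random_one {Q : SimpleGraph V → Prop} (m lam t δ : ℕ) (hm : Fintype.card V = m)
    (hm2 : m ≤ 2 ^ lam) (hlam1 : 1 ≤ lam) (hδ1 : 1 ≤ δ) (ht : 9 * t ≤ m)
    (hcase : 10 * (lam : ℝ) * δ < m)
    (h0 : ∀ N, Q (co N) → ∃ J : Finset V, J.Nonempty ∧ J.card ≤ t ∧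
      ∀ x ∈ J, dgout N J x + 1 ≤ δ)
    (h1 : ∀ N', ¬ Q (co N') → ∀ x, δ ≤ dgin N' Finset.univ x) :
    ENNReal.ofReal ((m : ℝ) ^ 2 / (24 * lam)) ≤ R Q := by
  have hlamR : (1 : ℝ) ≤ lam := by exact_mod_cast hlam1
  have hδ1R : (1 : ℝ) ≤ δ := by exact_mod_cast hδ1
  have hm0 : (0 : ℝ) < m := by nlinarith
  set ρ : ℝ := 6 * lam * δ / m with hρ
  have hρ0 : 0 < ρ := by positivity
  have hρ1 : ρ ≤ 1 := by
    rw [hρ, div_le_one hm0]
    nlinarith
  have hk : δ - 1 + 1 = δ := by omega
  have hx : (Fintype.card V : ℝ) ^ (δ - 1 + 1) *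
      (1 - ρ) ^ (Fintype.card V - t - (δ - 1)) ≤ 1 / 8 := by
    rw [hm, hk]
    set a : ℕ := m - t - (δ - 1) with ha
    have ha1 : 7 * (m : ℝ) ≤ 10 * a := by
      have h2 : (t : ℝ) + δ + a ≥ m := by
        have : t + δ + a ≥ m := by omega
        exact_mod_cast this
      have h3 : 9 * (t : ℝ) ≤ m := by exact_mod_cast ht
      have h4 : 10 * (δ : ℝ) ≤ m := by nlinarith
      linarith
    have h5 : (m : ℝ) ^ δ ≤ Real.exp (lam * δ) := by
      have h6 : (m : ℝ) ≤ 2 ^ lam := by exact_mod_cast hm2
      have h7 : (2 : ℝ) ≤ Real.exp 1 := by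
        have := Real.add_one_le_exp (1 : ℝ); linarith
      calc (m : ℝ) ^ δ ≤ (2 ^ lam) ^ δ := by gcongr
        _ ≤ ((Real.exp 1) ^ lam) ^ δ := by gcongr
        _ = Real.exp (lam * δ) := by
            rw [← pow_mul, ← Real.exp_nat_mul]; congr 1; push_cast; ring
    have h8 : (1 - ρ) ^ a ≤ Real.exp (-(4.2 * lam * δ)) := by
      calc (1 - ρ) ^ a ≤ (Real.exp (-ρ)) ^ a :=
            pow_le_pow_left₀ (by linarith) (by linarith [Real.add_one_le_exp (-ρ)]) _
        _ = Real.exp (a * (-ρ)) := by rw [← Real.exp_nat_mul]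
        _ ≤ Real.exp (-(4.2 * lam * δ)) := by
            refine Real.exp_le_exp.2 ?_
            have h9 : 4.2 * lam * δ ≤ a * ρ := by
              rw [hρ, mul_div_assoc']
              rw [le_div_iff₀ hm0]
              have : 0 ≤ (lam : ℝ) * δ := by positivity
              nlinarith
            linarith
    have h10 : Real.exp (lam * δ) * Real.exp (-(4.2 * lam * δ)) ≤ 1 / 8 := by
      rw [← Real.exp_add]
      have h11 : (lam : ℝ) * δ + -(4.2 * lam * δ) ≤ -3 := by
        have : (1 : ℝ) ≤ lam * δ := by nlinarith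
        nlinarith
      refine (Real.exp_le_exp.2 h11).trans ?_
      have h12 : (8 : ℝ) ≤ Real.exp 3 := by
        have h13 : Real.exp 3 = (Real.exp 1) ^ 3 := by
          rw [← Real.exp_nat_mul]; norm_num
        rw [h13]
        have h14 : (2 : ℝ) ≤ Real.exp 1 := by
          have := Real.add_one_le_exp (1 : ℝ); linarith
        calc (8 : ℝ) = 2 ^ 3 := by norm_num
          _ ≤ _ := by gcongr
      rw [Real.exp_neg, one_div]
      exact inv_anti₀ (by norm_num) h12
    have h15 : 0 ≤ (1 - ρ) ^ a := pow_nonneg (by linarith) _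
    exact (mul_le_mul h5 h8 h15 (Real.exp_pos _).le).trans h10
  have hbad := pr_sparse_le (V := V) hρ0.le hρ1 t (δ - 1) hx
  set Good : Finset (Sym2 V) → Prop := fun N =>
    ¬ (∃ J : Finset V, J.Nonempty ∧ J.card ≤ t ∧ ∀ x ∈ J, dgout N J x ≤ δ - 1) with hGood
  have hG3 : 1 / 2 ≤ pr ρ (allPairs V) Good := by
    rw [hGood, pr_not]
    linarith
  have hfinal := prod_bound (P := Q) hρ0 hρ1 Good ((m : ℝ) * δ / 2)
    (by positivity)
    (fun N _ hN hQ => by
      obtain ⟨J, hJ1, hJ2, hJ3⟩ := h0 N hQ
      refine hN ⟨J, hJ1, hJ2, fun x hx => ?_⟩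
      have := hJ3 x hx
      omega)
    (fun N _ hN N' hN' hQ' => by
      have h2 : ∀ x ∈ (Finset.univ : Finset V), δ ≤ dgin N' Finset.univ x :=
        fun x _ => h1 N' hQ' x
      have h3 := Finset.card_nsmul_le_sum _ _ _ h2
      rw [Finset.card_univ, hm, smul_eq_mul] at h3
      have h4 := card_sigma_le_two N' (Finset.univ : Finset V)
      have h5 : (inner (Finset.univ : Finset V) ∩ N').card ≤ N'.card :=
        Finset.card_le_card Finset.inter_subset_right
      have h6 : m * δ ≤ 2 * N'.card := by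
        refine h3.trans (h4.trans ?_)
        omega
      have h7 : (m : ℝ) * δ ≤ 2 * N'.card := by exact_mod_cast h6
      linarith) hG3
  refine le_trans (ENNReal.ofReal_le_ofReal ?_) hfinal
  have h8 : (m : ℝ) * δ / 2 / (2 * ρ) = (m : ℝ) ^ 2 / (24 * lam) := by
    rw [hρ]; field_simp; ring
  rw [h8]

/-- The property of containing a copy of `H`. -/
def Hin (H : SimpleGraph V) (G : SimpleGraph V) : Prop :=
  ∃ π : Equiv.Perm V, ∀ u v, H.Adj u v → G.Adj (π u) (π v)

theorem Hin.mono (H : SimpleGraph V) : Mono (Hin H) := by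
  rintro G G' h ⟨π, hπ⟩
  exact ⟨π, fun u v huv => h (hπ u v huv)⟩

theorem Hin.isoInv (H : SimpleGraph V) : IsoInv (Hin H) := by
  rintro G G' ⟨φ⟩ ⟨π, hπ⟩
  exact ⟨π.trans φ.toEquiv, fun u v huv => φ.map_rel_iff.2 (hπ u v huv)⟩

/-- In a zero-input outside `Z`, all vertices have many non-neighbours. -/
theorem zero_deg {P : SimpleGraph V → Prop} (hP : Mono P) (hinv : IsoInv P) (t d : ℕ)
    (hd : ∃ (Z : Finset V) (w : V) (S : Finset V), Z.card = t - 1 ∧ w ∉ Z ∧
        (∀ x ∈ S, x ∉ Z ∧ x ≠ w) ∧ S.card = d ∧ P (split Z w S))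
    (Z : Finset V) (hZ : Z.card = t - 1) (N' : Finset (Sym2 {v : V // v ∉ Z}))
    (hN' : ¬ PZ P Z (co N')) (x : {v : V // v ∉ Z}) :
    Fintype.card {v : V // v ∉ Z} ≤ dgin N' Finset.univ x + d := by
  by_contra hcon
  push Not at hcon
  obtain ⟨Z₀, w₀, S₀, h1, h2, h3, h4, h5⟩ := hd
  have h8 : d ≤ ((Finset.univ.erase x).filter (fun y => ¬ (gr N').Adj x y)).card := by
    have h9 := Finset.card_filter_add_card_filter_not (s := Finset.univ.erase x)
      (fun y => (gr N').Adj x y)
    have h10 : ((Finset.univ.erase x).filter (fun y => (gr N').Adj x y)).card ≤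
        dgin N' Finset.univ x :=
      Finset.card_le_card (Finset.filter_subset_filter _ (Finset.erase_subset _ _))
    have h11 : (Finset.univ.erase x).card = Fintype.card {v : V // v ∉ Z} - 1 := by
      rw [Finset.card_erase_of_mem (Finset.mem_univ _), Finset.card_univ]
    omega
  obtain ⟨S', hS'1, hS'2⟩ := Finset.exists_subset_card_eq h8
  apply hN'
  have hS'3 : ∀ y ∈ S', y ≠ x ∧ ¬ (gr N').Adj x y := by
    intro y hy
    have := hS'1 hy
    rw [Finset.mem_filter, Finset.mem_erase] at this
    exact ⟨this.1.1, this.2⟩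
  have h12 := split_iso hP hinv Z₀ Z w₀ x.1 S₀ (S'.image Subtype.val) h2 x.2 h3
    (fun y hy => by
      rw [Finset.mem_image] at hy
      obtain ⟨y', hy', rfl⟩ := hy
      exact ⟨y'.2, fun h => (hS'3 y' hy').1 (Subtype.ext h)⟩) (by rw [h1, hZ])
    (by rw [h4, Finset.card_image_of_injective _ Subtype.val_injective, hS'2]) h5
  refine hP _ _ ?_ h12
  rintro u v ⟨huv, h⟩
  refine ⟨huv, fun hu hv => ?_⟩
  rw [co_adj]
  have hne : (⟨u, hu⟩ : {v : V // v ∉ Z}) ≠ ⟨v, hv⟩ := fun h => huv (congrArg Subtype.val h)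
  refine ⟨fun hmem => ?_, hne⟩
  rcases h with h | h | ⟨rfl, h⟩ | ⟨rfl, h⟩
  · exact hu h
  · exact hv h
  · rw [Finset.mem_image] at h
    obtain ⟨y', hy', rfl⟩ := h
    exact (hS'3 y' hy').2 (gr_adj.2 ⟨hmem, hne⟩)
  · rw [Finset.mem_image] at h
    obtain ⟨y', hy', rfl⟩ := h
    exact (hS'3 y' hy').2 (gr_adj.2 ⟨by rw [Sym2.eq_swap]; exact hmem, hne.symm⟩)

/-- If the random graph contains a copy, then some small set has small outside degrees. -/
theorem bad_event (H : SimpleGraph V) (t d : ℕ) (ht : 1 ≤ t)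
    (C : Finset V) (hC : C.card = t) (hcov : H ≤ dom C)
    (hd : ∀ (Z : Finset V) (w : V) (S : Finset V), Z.card = t - 1 → w ∉ Z →
        (∀ x ∈ S, x ∉ Z ∧ x ≠ w) → Hin H (split Z w S) → d ≤ S.card)
    (Z : Finset V) (hZ : Z.card = t - 1) (N : Finset (Sym2 {v : V // v ∉ Z}))
    (hN : PZ (Hin H) Z (co N)) :
    ∃ J : Finset {v : V // v ∉ Z}, J.Nonempty ∧ J.card ≤ t ∧
      ∀ x ∈ J, dgout N J x + d + 1 ≤ Fintype.card {v : V // v ∉ Z} := by
  suffices hsuff : ∃ J : Finset {v : V // v ∉ Z}, J.Nonempty ∧ J.card ≤ t ∧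
      ∀ x ∈ J, dgin N (Finset.univ \ J) x + d + 1 ≤ Fintype.card {v : V // v ∉ Z} by
    obtain ⟨J, k1, k2, k3⟩ := hsuff
    refine ⟨J, k1, k2, fun x hx => ?_⟩
    rw [dgout_eq]
    exact k3 x hx
  obtain ⟨π, hπ⟩ := hN
  set J : Finset {v : V // v ∉ Z} := Finset.univ.filter (fun x => π.symm x.1 ∈ C) with hJ
  set πC : Finset V := C.image π with hπC
  have hπCc : πC.card = t := by rw [hπC, Finset.card_image_of_injective _ π.injective, hC]
  have hJi : J.image Subtype.val = πC \ Z := by
    ext v
    simp only [Finset.mem_image, hJ, Finset.mem_filter, Finset.mem_univ, true_and, hπC,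
      Finset.mem_sdiff]
    constructor
    · rintro ⟨x, hx, rfl⟩
      exact ⟨⟨_, hx, by simp⟩, x.2⟩
    · rintro ⟨⟨c, hc, rfl⟩, h2⟩
      exact ⟨⟨π c, h2⟩, by simpa using hc, rfl⟩
  have hJc : J.card = (πC \ Z).card := by
    rw [← hJi, Finset.card_image_of_injective _ Subtype.val_injective]
  have e1 := Finset.card_sdiff_add_card_inter πC Z
  have e2 := Finset.card_sdiff_add_card_inter Z πC
  rw [Finset.inter_comm Z πC] at e2
  refine ⟨J, ?_, by omega, ?_⟩
  · rw [← Finset.card_pos]; omega
  · intro x hx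
    rw [hJ, Finset.mem_filter] at hx
    set c : V := π.symm x.1 with hc
    have hπc : π c = x.1 := by simp [hc]
    have hcC : c ∈ C := hx.2
    set S : Finset V := Finset.univ.filter (fun y => H.Adj c y ∧ y ∉ C) with hS
    have hSd : d ≤ S.card := by
      refine hd (C.erase c) c S ?_ (Finset.notMem_erase _ _) ?_ ?_
      · rw [Finset.card_erase_of_mem hcC, hC]
      · intro y hy
        rw [hS, Finset.mem_filter] at hy
        refine ⟨fun h => hy.2.2 (Finset.mem_of_mem_erase h), ?_⟩
        rintro rfl; exact hy.2.1.ne rfl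
      · refine ⟨Equiv.refl _, ?_⟩
        intro u v huv
        refine ⟨huv.ne, ?_⟩
        simp only [Equiv.refl_apply]
        by_cases hu : u ∈ C.erase c
        · exact Or.inl hu
        · by_cases hv : v ∈ C.erase c
          · exact Or.inr (Or.inl hv)
          · rw [Finset.mem_erase, not_and] at hu hv
            rcases (hcov huv).2 with h | h
            · have hu' : u = c := by
                by_contra hcon; exact hu hcon h
              right; right; left
              refine ⟨hu', ?_⟩
              rw [hS, Finset.mem_filter]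
              refine ⟨Finset.mem_univ _, hu' ▸ huv, fun hvT => hv ?_ hvT⟩
              rintro rfl; exact huv.ne hu'
            · have hv' : v = c := by
                by_contra hcon; exact hv hcon h
              right; right; right
              refine ⟨hv', ?_⟩
              rw [hS, Finset.mem_filter]
              refine ⟨Finset.mem_univ _, hv' ▸ huv.symm, fun huT => hu ?_ huT⟩
              rintro rfl; exact huv.ne hv'.symm
    -- the image of `S`, inside and outside `Z`
    set T : Finset V := S.image π with hT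
    have hTc : T.card = S.card := Finset.card_image_of_injective _ π.injective
    have e3 := Finset.card_sdiff_add_card_inter T Z
    have e4 : (T ∩ Z).card ≤ (Z \ πC).card := by
      refine Finset.card_le_card ?_
      intro y hy
      rw [Finset.mem_inter, hT, Finset.mem_image] at hy
      obtain ⟨⟨s, hs, rfl⟩, hyZ⟩ := hy
      rw [Finset.mem_sdiff]
      refine ⟨hyZ, ?_⟩
      rw [hπC, Finset.mem_image]
      rintro ⟨c', hc', h⟩
      have := π.injective h
      subst this
      rw [hS, Finset.mem_filter] at hs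
      exact hs.2.2 hc'
    set T' : Finset {v : V // v ∉ Z} := Finset.univ.filter (fun y => y.1 ∈ T) with hT'
    have e5 : T'.card = (T \ Z).card := by
      rw [← Finset.card_image_of_injective T' Subtype.val_injective]
      congr 1
      ext v
      simp only [hT', Finset.mem_image, Finset.mem_filter, Finset.mem_univ, true_and,
        Finset.mem_sdiff]
      constructor
      · rintro ⟨y, hy, rfl⟩
        exact ⟨hy, y.2⟩
      · rintro ⟨h1, h2⟩
        exact ⟨⟨v, h2⟩, h1, rfl⟩
    have e6 : dgin N (Finset.univ \ J) x + T'.card ≤ (Finset.univ \ J).card := by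
      unfold dgin
      rw [← Finset.card_union_of_disjoint]
      · refine Finset.card_le_card ?_
        refine Finset.union_subset (Finset.filter_subset _ _) ?_
        intro y hy
        rw [hT', Finset.mem_filter, hT, Finset.mem_image] at hy
        obtain ⟨-, s, hs, hsy⟩ := hy
        rw [Finset.mem_sdiff, hJ, Finset.mem_filter]
        refine ⟨Finset.mem_univ _, fun h => ?_⟩
        rw [← hsy, Equiv.symm_apply_apply] at h
        rw [hS, Finset.mem_filter] at hs
        exact hs.2.2 h.2
      · rw [Finset.disjoint_left]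
        intro y hy1 hy2
        rw [Finset.mem_filter] at hy1
        rw [hT', Finset.mem_filter, hT, Finset.mem_image] at hy2
        obtain ⟨-, s, hs, hsy⟩ := hy2
        rw [hS, Finset.mem_filter] at hs
        have h1 := hπ c s hs.2.1
        rw [hπc, hsy] at h1
        have h2 := h1.2 x.2 y.2
        rw [co_adj] at h2
        exact h2.1 (gr_adj.1 hy1.2).1
    have e7 : (Finset.univ \ J).card + J.card = Fintype.card {v : V // v ∉ Z} := by
      rw [Finset.card_sdiff_of_subset (Finset.subset_univ _), Finset.card_univ]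
      have := Finset.card_le_univ J
      omega
    omega

end Pool.Agent.KarpGP
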