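import Pool.Agent.KarpGP.Restrict
import Pool.Agent.KarpGP.Packing

/-!
The search lemma: if all edges of every copy of a sparse graph have to be seen, then many
queries are needed, because the neighbours of a vertex are hidden.
-/

set_option autoImplicit false

set_option linter.unusedSectionVars false

open scoped ENNReal
open Classical

namespace Pool.Agent.KarpGP

universe u

variable {α : Type u}

/-- Histories: lists of queries with answers. -/
abbrev Hist (α : Type u) := List (α × α × Bool)

/-- The sequence of queries and answers made on `G`. -/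
noncomputable def DTree.path : DTree α → SimpleGraph α → Hist α
  | DTree.leaf _, _ => []
  | DTree.query u v t₀ t₁, G =>
      if G.Adj u v then (u, v, true) :: t₁.path G else (u, v, false) :: t₀.path G

theorem DTree.length_path (T : DTree α) (G : SimpleGraph α) : (T.path G).length = T.cost G := by
  induction T with
  | leaf b => simp [DTree.path, DTree.cost]
  | query u v t₀ t₁ ih₀ ih₁ =>
    by_cases h : G.Adj u v
    · simp [DTree.path, DTree.cost, h, ih₁]
    · simp [DTree.path, DTree.cost, h, ih₀]

theorem DTree.path_correct (T : DTree α) (G : SimpleGraph α) :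
    ∀ u v b, (u, v, b) ∈ T.path G → (G.Adj u v ↔ b = true) := by
  induction T with
  | leaf b => simp [DTree.path]
  | query u v t₀ t₁ ih₀ ih₁ =>
    intro a c b hmem
    by_cases h : G.Adj u v
    · simp only [DTree.path, h, if_true, List.mem_cons] at hmem
      rcases hmem with hmem | hmem
      · simp only [Prod.mk.injEq] at hmem
        obtain ⟨rfl, rfl, rfl⟩ := hmem
        simp [h]
      · exact ih₁ a c b hmem
    · simp only [DTree.path, h, if_false, List.mem_cons] at hmem
      rcases hmem with hmem | hmem
      · simp only [Prod.mk.injEq] at hmem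
        obtain ⟨rfl, rfl, rfl⟩ := hmem
        simp [h]
      · exact ih₀ a c b hmem

theorem DTree.asked_path (T : DTree α) (G : SimpleGraph α) :
    ∀ e ∈ T.asked G, ∃ u v b, (u, v, b) ∈ T.path G ∧ e = s(u, v) := by
  induction T with
  | leaf b => simp [DTree.asked]
  | query u v t₀ t₁ ih₀ ih₁ =>
    intro e he
    by_cases h : G.Adj u v
    · simp only [DTree.asked, h, if_true, Finset.mem_insert] at he
      rcases he with rfl | he
      · exact ⟨u, v, true, by simp [DTree.path, h], rfl⟩
      · obtain ⟨a, c, b, h1, h2⟩ := ih₁ e he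
        exact ⟨a, c, b, by simp [DTree.path, h, h1], h2⟩
    · simp only [DTree.asked, h, if_false, Finset.mem_insert] at he
      rcases he with rfl | he
      · exact ⟨u, v, false, by simp [DTree.path, h], rfl⟩
      · obtain ⟨a, c, b, h1, h2⟩ := ih₀ e he
        exact ⟨a, c, b, by simp [DTree.path, h, h1], h2⟩

variable [Fintype α]

/-- Vertices with a found edge. -/
noncomputable def touched (h : Hist α) : Finset α :=
  Finset.univ.filter (fun v => ∃ x, (v, x, true) ∈ h ∨ (x, v, true) ∈ h)

theorem mem_touched {h : Hist α} {v : α} :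
    v ∈ touched h ↔ ∃ x, (v, x, true) ∈ h ∨ (x, v, true) ∈ h := by simp [touched]

/-- The vertices asked together with `v`. -/
noncomputable def qn (h : Hist α) (v : α) : Finset α :=
  Finset.univ.filter (fun x => ∃ b, (v, x, b) ∈ h ∨ (x, v, b) ∈ h)

theorem mem_qn {h : Hist α} {v x : α} :
    x ∈ qn h v ↔ ∃ b, (v, x, b) ∈ h ∨ (x, v, b) ∈ h := by simp [qn]

/-- The answers in `h` are those of the copy given by `π`. -/
def Cons (F : SimpleGraph α) (h : Hist α) (π : Equiv.Perm α) : Prop :=
  ∀ a c b, (a, c, b) ∈ h → (F.Adj (π a) (π c) ↔ b = true)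

/-- The vertices with which `v` can be swapped. -/
noncomputable def goodW (F : SimpleGraph α) (h : Hist α) (u v : α) (π : Equiv.Perm α) :
    Finset α :=
  Finset.univ.filter (fun w => v ∉ touched h ∧ w ∉ touched h ∧ w ≠ v ∧ w ≠ u ∧
    ¬ F.Adj (π u) (π w) ∧ (∀ x ∈ qn h v, x ≠ w → ¬ F.Adj (π w) (π x)) ∧
    (∀ x ∈ qn h w, x ≠ v → ¬ F.Adj (π v) (π x)))

theorem mem_goodW {F : SimpleGraph α} {h : Hist α} {u v w : α} {π : Equiv.Perm α} :
    w ∈ goodW F h u v π ↔ v ∉ touched h ∧ w ∉ touched h ∧ w ≠ v ∧ w ≠ u ∧
    ¬ F.Adj (π u) (π w) ∧ (∀ x ∈ qn h v, x ≠ w → ¬ F.Adj (π w) (π x)) ∧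
    (∀ x ∈ qn h w, x ≠ v → ¬ F.Adj (π v) (π x)) := by simp [goodW]

theorem swap_cons {F : SimpleGraph α} {h : Hist α} {u v w : α} {π : Equiv.Perm α}
    (hπ : Cons F h π) (hw : w ∈ goodW F h u v π) (huv : F.Adj (π u) (π v)) :
    Cons F h ((Equiv.swap v w).trans π) ∧
      ¬ F.Adj (((Equiv.swap v w).trans π) u) (((Equiv.swap v w).trans π) v) ∧
      F.Adj (((Equiv.swap v w).trans π) u) (((Equiv.swap v w).trans π) w) := by
  rw [mem_goodW] at hw
  obtain ⟨hv, hw1, hwv, hwu, huw, hA, hB⟩ := hw
  have huv' : u ≠ v := by rintro rfl; exact huv.ne rfl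
  set π' := (Equiv.swap v w).trans π with hπ'
  have ev : π' v = π w := by simp [hπ']
  have ew : π' w = π v := by simp [hπ']
  have eo : ∀ x, x ≠ v → x ≠ w → π' x = π x := by
    intro x h1 h2
    simp [hπ', Equiv.swap_apply_of_ne_of_ne h1 h2]
  have eu : π' u = π u := eo u huv' (Ne.symm hwu)
  refine ⟨?_, ?_, ?_⟩
  · -- answers are preserved
    -- the key fact for `v` and `w`
    have kv : ∀ x b, ((v, x, b) ∈ h ∨ (x, v, b) ∈ h) → x ≠ v → x ≠ w →
        (F.Adj (π' v) (π' x) ↔ b = true) := by
      intro x b hx hxv hxw
      have hb : b = false := by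
        cases b with
        | false => rfl
        | true => exact absurd (mem_touched.2 ⟨x, hx⟩) hv
      rw [ev, eo x hxv hxw, hb]
      have := hA x (mem_qn.2 ⟨b, hx⟩) hxw
      simp [this]
    have kw : ∀ x b, ((w, x, b) ∈ h ∨ (x, w, b) ∈ h) → x ≠ v → x ≠ w →
        (F.Adj (π' w) (π' x) ↔ b = true) := by
      intro x b hx hxv hxw
      have hb : b = false := by
        cases b with
        | false => rfl
        | true => exact absurd (mem_touched.2 ⟨x, hx⟩) hw1
      rw [ew, eo x hxv hxw, hb]
      have := hB x (mem_qn.2 ⟨b, hx⟩) hxv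
      simp [this]
    intro a c b hmem
    have horig := hπ a c b hmem
    by_cases hav : a = v
    · subst hav
      by_cases hca : c = a
      · subst hca
        rw [ev]
        have h1 : ¬ F.Adj (π c) (π c) := F.loopless.irrefl _
        have h2 : ¬ F.Adj (π w) (π w) := F.loopless.irrefl _
        rw [← horig]
        exact ⟨fun h => absurd h h2, fun h => absurd h h1⟩
      · by_cases hcw : c = w
        · subst hcw
          rw [ev, ew, F.adj_comm]; exact horig
        · exact kv c b (Or.inl hmem) hca hcw
    · by_cases haw : a = w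
      · subst haw
        by_cases hcv : c = v
        · subst hcv
          rw [ev, ew, F.adj_comm]; exact horig
        · by_cases hca : c = a
          · subst hca
            rw [ew]
            have h1 : ¬ F.Adj (π c) (π c) := F.loopless.irrefl _
            have h2 : ¬ F.Adj (π v) (π v) := F.loopless.irrefl _
            rw [← horig]
            exact ⟨fun h => absurd h h2, fun h => absurd h h1⟩
          · exact kw c b (Or.inl hmem) hcv hca
      · by_cases hcv : c = v
        · subst hcv
          rw [F.adj_comm]
          exact kv a b (Or.inr hmem) hav haw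
        · by_cases hcw : c = w
          · subst hcw
            rw [F.adj_comm]
            exact kw a b (Or.inr hmem) hav haw
          · rw [eo a hav haw, eo c hcv hcw]; exact horig
  · rw [eu, ev]; exact huw
  · rw [eu, ew]; exact huv

/-- Double counting at one node. -/
theorem node_count (F : SimpleGraph α) (D : ℕ) (hD : ∀ x, dg F x ≤ D) (h : Hist α) (u v : α) :
    ∑ π ∈ Finset.univ.filter (fun π => Cons F h π ∧ F.Adj (π u) (π v)), (goodW F h u v π).card
      ≤ D * (Finset.univ.filter (fun π : Equiv.Perm α =>
          Cons F h π ∧ ¬ F.Adj (π u) (π v))).card := by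
  set S := (Finset.univ.filter (fun π : Equiv.Perm α => Cons F h π ∧ F.Adj (π u) (π v))).sigma
    (fun π => goodW F h u v π) with hS
  set S' := (Finset.univ.filter (fun π : Equiv.Perm α => Cons F h π ∧ ¬ F.Adj (π u) (π v))).sigma
    (fun π => Finset.univ.filter (fun w => F.Adj (π u) (π w))) with hS'
  have h1 : ∑ π ∈ Finset.univ.filter (fun π => Cons F h π ∧ F.Adj (π u) (π v)),
      (goodW F h u v π).card = S.card := by
    rw [hS, Finset.card_sigma]
  have h2 : S'.card ≤ D * (Finset.univ.filter (fun π : Equiv.Perm α =>
          Cons F h π ∧ ¬ F.Adj (π u) (π v))).card := by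
    rw [hS', Finset.card_sigma, mul_comm]
    refine Finset.sum_le_card_nsmul _ _ D fun π _ => ?_
    refine le_trans ?_ (hD (π u))
    unfold dg
    refine Finset.card_le_card_of_injOn π ?_ π.injective.injOn
    intro w hw
    simpa using hw
  rw [h1]
  refine le_trans ?_ h2
  refine Finset.card_le_card_of_injOn (fun p => ⟨(Equiv.swap v p.2).trans p.1, p.2⟩) ?_ ?_
  · rintro ⟨π, w⟩ hp
    rw [hS, Finset.mem_coe, Finset.mem_sigma, Finset.mem_filter] at hp
    obtain ⟨⟨-, hc, hadj⟩, hw⟩ := hp
    rw [hS', Finset.mem_coe, Finset.mem_sigma, Finset.mem_filter, Finset.mem_filter]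
    obtain ⟨k1, k2, k3⟩ := swap_cons hc hw hadj
    exact ⟨⟨Finset.mem_univ _, k1, k2⟩, Finset.mem_univ _, k3⟩
  · rintro ⟨π, w⟩ _ ⟨π', w'⟩ _ heq
    simp only [Sigma.mk.injEq] at heq
    obtain ⟨h1, h2⟩ := heq
    have h2' : w = w' := eq_of_heq h2
    subst h2'
    congr 1
    ext x
    have := congrArg (fun σ : Equiv.Perm α => σ (Equiv.swap v w x)) h1
    simpa using this

/-- The total number of good swaps along a list of queries. -/
noncomputable def gl (F : SimpleGraph α) : Hist α → Hist α → Equiv.Perm α → ℕ
  | _, [], _ => 0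
  | h, (u, v, b) :: l, π =>
      (if b = true then (goodW F h u v π).card + (goodW F h v u π).card else 0)
        + gl F (h ++ [(u, v, b)]) l π

/-- The copy of `F` given by `π`. -/
def copyG (F : SimpleGraph α) (π : Equiv.Perm α) : SimpleGraph α := F.comap π

theorem copyG_adj {F : SimpleGraph α} {π : Equiv.Perm α} {x y : α} :
    (copyG F π).Adj x y ↔ F.Adj (π x) (π y) := by simp [copyG]

theorem cons_append {F : SimpleGraph α} {h : Hist α} {u v : α} {b : Bool} {π : Equiv.Perm α} :
    Cons F (h ++ [(u, v, b)]) π ↔ Cons F h π ∧ (F.Adj (π u) (π v) ↔ b = true) := by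
  unfold Cons
  constructor
  · intro hc
    exact ⟨fun a c b' hm => hc a c b' (List.mem_append_left _ hm), hc u v b (by simp)⟩
  · rintro ⟨h1, h2⟩ a c b' hm
    rcases List.mem_append.1 hm with hm | hm
    · exact h1 a c b' hm
    · simp only [List.mem_singleton, Prod.mk.injEq] at hm
      obtain ⟨rfl, rfl, rfl⟩ := hm
      exact h2

theorem tree_count (F : SimpleGraph α) (D : ℕ) (hD : ∀ x, dg F x ≤ D) (T : DTree α) :
    ∀ h : Hist α,
    ∑ π ∈ Finset.univ.filter (fun π => Cons F h π), gl F h (T.path (copyG F π)) π
      ≤ 2 * D * ∑ π ∈ Finset.univ.filter (fun π : Equiv.Perm α => Cons F h π),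
          T.cost (copyG F π) := by
  induction T with
  | leaf b =>
    intro h
    simp [DTree.path, gl, DTree.cost]
  | query u v t₀ t₁ ih₀ ih₁ =>
    intro h
    have sY : (Finset.univ.filter (fun π : Equiv.Perm α => Cons F h π)).filter
        (fun π => F.Adj (π u) (π v)) = Finset.univ.filter (fun π : Equiv.Perm α =>
          Cons F (h ++ [(u, v, true)]) π) := by
      ext π
      simp [Finset.mem_filter, cons_append]
    have sN : (Finset.univ.filter (fun π : Equiv.Perm α => Cons F h π)).filter
        (fun π => ¬ F.Adj (π u) (π v)) = Finset.univ.filter (fun π : Equiv.Perm α =>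
          Cons F (h ++ [(u, v, false)]) π) := by
      ext π
      simp [Finset.mem_filter, cons_append]
    rw [← Finset.sum_filter_add_sum_filter_not _ (fun π => F.Adj (π u) (π v))]
    rw [← Finset.sum_filter_add_sum_filter_not (Finset.univ.filter
      (fun π : Equiv.Perm α => Cons F h π)) (fun π => F.Adj (π u) (π v))
      (fun π => (DTree.query u v t₀ t₁).cost (copyG F π))]
    have eY : ∀ π ∈ (Finset.univ.filter (fun π : Equiv.Perm α => Cons F h π)).filter
        (fun π => F.Adj (π u) (π v)), gl F h ((DTree.query u v t₀ t₁).path (copyG F π)) π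
        = ((goodW F h u v π).card + (goodW F h v u π).card)
          + gl F (h ++ [(u, v, true)]) (t₁.path (copyG F π)) π := by
      intro π hπ
      rw [Finset.mem_filter] at hπ
      have : (copyG F π).Adj u v := copyG_adj.2 hπ.2
      simp [DTree.path, this, gl]
    have eN : ∀ π ∈ (Finset.univ.filter (fun π : Equiv.Perm α => Cons F h π)).filter
        (fun π => ¬ F.Adj (π u) (π v)), gl F h ((DTree.query u v t₀ t₁).path (copyG F π)) π
        = gl F (h ++ [(u, v, false)]) (t₀.path (copyG F π)) π := by
      intro π hπ
      rw [Finset.mem_filter] at hπ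
      have : ¬ (copyG F π).Adj u v := fun hc => hπ.2 (copyG_adj.1 hc)
      simp [DTree.path, this, gl]
    have cY : ∀ π ∈ (Finset.univ.filter (fun π : Equiv.Perm α => Cons F h π)).filter
        (fun π => F.Adj (π u) (π v)), (DTree.query u v t₀ t₁).cost (copyG F π)
        = t₁.cost (copyG F π) + 1 := by
      intro π hπ
      rw [Finset.mem_filter] at hπ
      have : (copyG F π).Adj u v := copyG_adj.2 hπ.2
      simp [DTree.cost, this]
    have cN : ∀ π ∈ (Finset.univ.filter (fun π : Equiv.Perm α => Cons F h π)).filter
        (fun π => ¬ F.Adj (π u) (π v)), (DTree.query u v t₀ t₁).cost (copyG F π)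
        = t₀.cost (copyG F π) + 1 := by
      intro π hπ
      rw [Finset.mem_filter] at hπ
      have : ¬ (copyG F π).Adj u v := fun hc => hπ.2 (copyG_adj.1 hc)
      simp [DTree.cost, this]
    rw [Finset.sum_congr rfl eY, Finset.sum_congr rfl eN, Finset.sum_congr rfl cY,
      Finset.sum_congr rfl cN]
    rw [Finset.sum_add_distrib, Finset.sum_add_distrib, Finset.sum_add_distrib,
      Finset.sum_add_distrib, Finset.sum_const, Finset.sum_const, smul_eq_mul, smul_eq_mul]
    have i1 := ih₁ (h ++ [(u, v, true)])
    have i0 := ih₀ (h ++ [(u, v, false)])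
    rw [← sY] at i1
    rw [← sN] at i0
    have n1 := node_count F D hD h u v
    have n2 := node_count F D hD h v u
    have fY : (Finset.univ.filter (fun π : Equiv.Perm α => Cons F h π)).filter
        (fun π => F.Adj (π u) (π v)) = Finset.univ.filter (fun π : Equiv.Perm α =>
          Cons F h π ∧ F.Adj (π u) (π v)) := by rw [Finset.filter_filter]
    have fN : (Finset.univ.filter (fun π : Equiv.Perm α => Cons F h π)).filter
        (fun π => ¬ F.Adj (π u) (π v)) = Finset.univ.filter (fun π : Equiv.Perm α =>
          Cons F h π ∧ ¬ F.Adj (π u) (π v)) := by rw [Finset.filter_filter]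
    have fY' : Finset.univ.filter (fun π : Equiv.Perm α => Cons F h π ∧ F.Adj (π v) (π u))
        = Finset.univ.filter (fun π : Equiv.Perm α => Cons F h π ∧ F.Adj (π u) (π v)) := by
      ext π; simp [F.adj_comm (π v) (π u)]
    have fN' : Finset.univ.filter (fun π : Equiv.Perm α => Cons F h π ∧ ¬ F.Adj (π v) (π u))
        = Finset.univ.filter (fun π : Equiv.Perm α => Cons F h π ∧ ¬ F.Adj (π u) (π v)) := by
      ext π; simp [F.adj_comm (π v) (π u)]
    rw [fY', fN'] at n2
    rw [← fY, ← fN] at n1 n2
    nlinarith [i1, i0, n1, n2]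

theorem card_nbhd (F : SimpleGraph α) (π : Equiv.Perm α) (v : α) :
    (Finset.univ.filter (fun x => F.Adj (π v) (π x))).card ≤ dg F (π v) := by
  unfold dg
  refine Finset.card_le_card_of_injOn π ?_ π.injective.injOn
  intro w hw
  simpa using hw

theorem card_nbhd' (F : SimpleGraph α) (π : Equiv.Perm α) (v : α) :
    (Finset.univ.filter (fun x => F.Adj (π x) (π v))).card ≤ dg F (π v) := by
  refine le_trans (Finset.card_le_card ?_) (card_nbhd F π v)
  intro x hx
  simp only [Finset.mem_filter, Finset.mem_univ, true_and] at hx ⊢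
  exact hx.symm

theorem goodW_card (F : SimpleGraph α) (D : ℕ) (hD : ∀ x, dg F x ≤ D) (h : Hist α) (u v : α)
    (π : Equiv.Perm α) (hv : v ∉ touched h) :
    Fintype.card α ≤ (goodW F h u v π).card + ((touched h).card + (D + 2) +
      (D * (qn h v).card + ∑ x ∈ Finset.univ.filter (fun x => F.Adj (π v) (π x)),
        (qn h x).card)) := by
  have hsub : (Finset.univ : Finset α) ⊆ goodW F h u v π ∪ (touched h ∪
      (({v, u} : Finset α) ∪ Finset.univ.filter (fun w => F.Adj (π u) (π w))) ∪
      ((qn h v).biUnion (fun x => Finset.univ.filter (fun w => F.Adj (π w) (π x))) ∪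
      (Finset.univ.filter (fun x => F.Adj (π v) (π x))).biUnion (fun x => qn h x))) := by
    intro w _
    by_contra hcon
    simp only [Finset.mem_union, not_or, Finset.mem_insert, Finset.mem_singleton,
      Finset.mem_filter, Finset.mem_univ, true_and, Finset.mem_biUnion, not_exists, not_and]
      at hcon
    obtain ⟨h1, ⟨h2, ⟨h3, h4⟩, h5⟩, h6, h7⟩ := hcon
    apply h1
    rw [mem_goodW]
    refine ⟨hv, h2, h3, h4, h5, fun x hx _ => h6 x hx, fun x hx _ hadj => ?_⟩
    apply h7 x hadj
    rw [mem_qn] at hx ⊢
    obtain ⟨b, hb⟩ := hx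
    exact ⟨b, hb.symm⟩
  have h1 := Finset.card_le_card hsub
  rw [Finset.card_univ] at h1
  refine h1.trans ?_
  refine (Finset.card_union_le _ _).trans (Nat.add_le_add_left ?_ _)
  refine (Finset.card_union_le _ _).trans (Nat.add_le_add ?_ ?_)
  · refine (Finset.card_union_le _ _).trans (Nat.add_le_add_left ?_ _)
    refine (Finset.card_union_le _ _).trans ?_
    have e1 : ({v, u} : Finset α).card ≤ 2 := Finset.card_le_two
    have e2 := (card_nbhd F π u).trans (hD _)
    omega
  · refine (Finset.card_union_le _ _).trans (Nat.add_le_add ?_ Finset.card_biUnion_le)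
    refine Finset.card_biUnion_le.trans ?_
    rw [mul_comm]
    exact Finset.sum_le_card_nsmul _ _ D fun x _ => (card_nbhd' F π x).trans (hD _)

/-- The correction terms. -/
noncomputable def corr (F : SimpleGraph α) (D : ℕ) (H : Hist α) (π : Equiv.Perm α) (v : α) : ℕ :=
  D * (qn H v).card + ∑ x ∈ Finset.univ.filter (fun x => F.Adj (π v) (π x)), (qn H x).card

theorem sum_qn (H : Hist α) : ∑ v : α, (qn H v).card ≤ 2 * H.length := by
  have h1 : ∑ v : α, (qn H v).card = ((Finset.univ : Finset α).sigma (fun v => qn H v)).card := by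
    rw [Finset.card_sigma]
  rw [h1]
  have h2 : ((Finset.univ : Finset α).sigma (fun v => qn H v)).card ≤
      ((H.toFinset.image (fun p => (⟨p.1, p.2.1⟩ : (_ : α) × α))) ∪
        (H.toFinset.image (fun p => (⟨p.2.1, p.1⟩ : (_ : α) × α)))).card := by
    refine Finset.card_le_card ?_
    rintro ⟨v, x⟩ hx
    rw [Finset.mem_sigma] at hx
    obtain ⟨b, hb⟩ := mem_qn.1 hx.2
    rw [Finset.mem_union, Finset.mem_image, Finset.mem_image]
    rcases hb with hb | hb
    · exact Or.inl ⟨(v, x, b), by simpa using hb, rfl⟩
    · exact Or.inr ⟨(x, v, b), by simpa using hb, rfl⟩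
  refine h2.trans ((Finset.card_union_le _ _).trans ?_)
  have h3 := List.toFinset_card_le H
  have h4 := Finset.card_image_le (s := H.toFinset) (f := fun p => (⟨p.1, p.2.1⟩ : (_ : α) × α))
  have h5 := Finset.card_image_le (s := H.toFinset) (f := fun p => (⟨p.2.1, p.1⟩ : (_ : α) × α))
  omega

theorem sum_corr (F : SimpleGraph α) (D : ℕ) (hD : ∀ x, dg F x ≤ D) (H : Hist α)
    (π : Equiv.Perm α) : ∑ v : α, corr F D H π v ≤ 4 * D * H.length := by
  unfold corr
  rw [Finset.sum_add_distrib, ← Finset.mul_sum]
  have h1 := sum_qn H
  have h2 : ∑ v : α, ∑ x ∈ Finset.univ.filter (fun x => F.Adj (π v) (π x)), (qn H x).card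
      ≤ D * ∑ x : α, (qn H x).card := by
    have : ∀ v : α, ∑ x ∈ Finset.univ.filter (fun x => F.Adj (π v) (π x)), (qn H x).card
        = ∑ x : α, if F.Adj (π v) (π x) then (qn H x).card else 0 := by
      intro v
      rw [Finset.sum_filter]
    rw [Finset.sum_congr rfl (fun v _ => this v), Finset.sum_comm, Finset.mul_sum]
    refine Finset.sum_le_sum fun x _ => ?_
    rw [← Finset.sum_filter, Finset.sum_const, smul_eq_mul]
    exact Nat.mul_le_mul_right _ ((card_nbhd' F π x).trans (hD _))
  nlinarith [h1, h2]

/-- The potential. -/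
def pot (m c k : ℕ) : ℕ := ∑ j ∈ Finset.range k, (m - j - c)

theorem pot_succ (m c k : ℕ) : pot m c (k + 1) = pot m c k + (m - k - c) := by
  unfold pot; rw [Finset.sum_range_succ]

theorem pot_mono (m c : ℕ) {k k' : ℕ} (h : k ≤ k') : pot m c k ≤ pot m c k' := by
  unfold pot
  exact Finset.sum_le_sum_of_subset (Finset.range_subset_range.2 h)

theorem qn_mono {h H : Hist α} (hsub : ∀ p ∈ h, p ∈ H) (v : α) : qn h v ⊆ qn H v := by
  intro x hx
  rw [mem_qn] at hx ⊢
  obtain ⟨b, hb⟩ := hx
  exact ⟨b, hb.imp (hsub _) (hsub _)⟩

theorem touched_append_true (h : Hist α) (u v : α) :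
    touched (h ++ [(u, v, true)]) = touched h ∪ {u, v} := by
  ext x
  simp only [mem_touched, Finset.mem_union, Finset.mem_insert, Finset.mem_singleton,
    List.mem_append, List.mem_singleton, Prod.mk.injEq, and_true]
  constructor
  · rintro ⟨y, (h1 | h1) | (h1 | h1)⟩
    · exact Or.inl ⟨y, Or.inl h1⟩
    · exact Or.inr (Or.inl h1.1)
    · exact Or.inl ⟨y, Or.inr h1⟩
    · exact Or.inr (Or.inr h1.2)
  · rintro (⟨y, h1 | h1⟩ | h1 | h1)
    · exact ⟨y, Or.inl (Or.inl h1)⟩
    · exact ⟨y, Or.inr (Or.inl h1)⟩
    · exact ⟨v, Or.inl (Or.inr ⟨h1, rfl⟩)⟩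
    · exact ⟨u, Or.inr (Or.inr ⟨rfl, h1⟩)⟩

theorem touched_append_false (h : Hist α) (u v : α) :
    touched (h ++ [(u, v, false)]) = touched h := by
  ext x
  simp [mem_touched]

theorem touched_mono {h H : Hist α} (hsub : ∀ p ∈ h, p ∈ H) : touched h ⊆ touched H := by
  intro x hx
  rw [mem_touched] at hx ⊢
  obtain ⟨b, hb⟩ := hx
  exact ⟨b, hb.imp (hsub _) (hsub _)⟩

theorem sum_sdiff_split {t s T : Finset α} (h1 : t ⊆ s) (h2 : s ⊆ T) (f : α → ℕ) :
    ∑ x ∈ T \ t, f x = ∑ x ∈ T \ s, f x + ∑ x ∈ s \ t, f x := by
  rw [← Finset.sum_union]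
  · congr 1
    ext x
    have e1 : x ∈ t → x ∈ s := fun h => h1 h
    have e2 : x ∈ s → x ∈ T := fun h => h2 h
    simp only [Finset.mem_union, Finset.mem_sdiff]
    tauto
  · rw [Finset.disjoint_left]
    intro x h1 h2
    rw [Finset.mem_sdiff] at h1 h2
    exact h1.2 h2.1

/-- The lower bound for the number of good swaps along the run. -/
theorem gl_lower (F : SimpleGraph α) (D : ℕ) (hD : ∀ x, dg F x ≤ D) (π : Equiv.Perm α)
    (H : Hist α) : ∀ (l h : Hist α), h ++ l = H →
    (∀ a c b, (a, c, b) ∈ l → (F.Adj (π a) (π c) ↔ b = true)) →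
    pot (Fintype.card α) (D + 2) (touched H).card ≤ gl F h l π +
      ∑ v ∈ touched H \ touched h, corr F D H π v +
      pot (Fintype.card α) (D + 2) (touched h).card := by
  intro l
  induction l with
  | nil =>
    intro h hh _
    rw [List.append_nil] at hh
    subst hh
    simp [gl]
  | cons p l ih =>
    obtain ⟨u, v, b⟩ := p
    intro h hh hcor
    have hh' : (h ++ [(u, v, b)]) ++ l = H := by rw [← hh]; simp
    have ih' := ih (h ++ [(u, v, b)]) hh' (fun a c b' hm => hcor a c b' (List.mem_cons_of_mem _ hm))
    cases b with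
    | false =>
      rw [touched_append_false] at ih'
      simp only [gl]
      simpa using ih'
    | true =>
      have hadj : F.Adj (π u) (π v) := (hcor u v true (by simp)).2 rfl
      have huv : u ≠ v := by rintro rfl; exact hadj.ne rfl
      have hsubH : ∀ p ∈ h ++ [(u, v, true)], p ∈ H := by
        intro p hp; rw [← hh']; exact List.mem_append_left _ hp
      have hsubh : ∀ p ∈ h, p ∈ H := fun p hp => hsubH p (List.mem_append_left _ hp)
      set t := touched h with ht
      have ht' : touched (h ++ [(u, v, true)]) = t ∪ {u, v} := touched_append_true h u v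
      rw [ht'] at ih'
      have htH : t ∪ {u, v} ⊆ touched H := by rw [← ht']; exact touched_mono hsubH
      -- split the correction sum
      have hsplit : ∑ x ∈ touched H \ t, corr F D H π x
          = ∑ x ∈ touched H \ (t ∪ {u, v}), corr F D H π x
            + ∑ x ∈ (t ∪ {u, v}) \ t, corr F D H π x :=
        sum_sdiff_split Finset.subset_union_left htH _
      -- the gain at a new vertex
      have gain : ∀ (a c : α), c ∉ t →
          Fintype.card α - t.card - (D + 2) ≤ (goodW F h a c π).card + corr F D H π c := by
        intro a c hc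
        have h1 := goodW_card F D hD h a c π hc
        rw [← ht] at h1
        have h2 : D * (qn h c).card + ∑ x ∈ Finset.univ.filter (fun x => F.Adj (π c) (π x)),
            (qn h x).card ≤ corr F D H π c := by
          unfold corr
          refine Nat.add_le_add (Nat.mul_le_mul_left _ (Finset.card_le_card (qn_mono hsubh _))) ?_
          exact Finset.sum_le_sum fun x _ => Finset.card_le_card (qn_mono hsubh _)
        omega
      have hkey : pot (Fintype.card α) (D + 2) (t ∪ {u, v}).card ≤
          (goodW F h u v π).card + (goodW F h v u π).card +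
          ∑ x ∈ (t ∪ {u, v}) \ t, corr F D H π x + pot (Fintype.card α) (D + 2) t.card := by
        by_cases hut : u ∈ t
        · by_cases hvt : v ∈ t
          · have : t ∪ {u, v} = t := by
              ext x; simp only [Finset.mem_union, Finset.mem_insert, Finset.mem_singleton]
              constructor
              · rintro (h1 | rfl | rfl) <;> assumption
              · exact Or.inl
            rw [this]; omega
          · have e1 : t ∪ {u, v} = insert v t := by
              ext x; simp only [Finset.mem_union, Finset.mem_insert, Finset.mem_singleton]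
              constructor
              · rintro (h1 | rfl | rfl)
                · exact Or.inr h1
                · exact Or.inr hut
                · exact Or.inl rfl
              · rintro (rfl | h1)
                · exact Or.inr (Or.inr rfl)
                · exact Or.inl h1
            have e2 : insert v t \ t = {v} := by
              ext x; simp only [Finset.mem_sdiff, Finset.mem_insert, Finset.mem_singleton]
              constructor
              · rintro ⟨rfl | h1, h2⟩
                · rfl
                · exact absurd h1 h2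
              · rintro rfl; exact ⟨Or.inl rfl, hvt⟩
            rw [e1, e2, Finset.card_insert_of_notMem hvt, pot_succ, Finset.sum_singleton]
            have := gain u v hvt
            omega
        · by_cases hvt : v ∈ t
          · have e1 : t ∪ {u, v} = insert u t := by
              ext x; simp only [Finset.mem_union, Finset.mem_insert, Finset.mem_singleton]
              constructor
              · rintro (h1 | rfl | rfl)
                · exact Or.inr h1
                · exact Or.inl rfl
                · exact Or.inr hvt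
              · rintro (rfl | h1)
                · exact Or.inr (Or.inl rfl)
                · exact Or.inl h1
            have e2 : insert u t \ t = {u} := by
              ext x; simp only [Finset.mem_sdiff, Finset.mem_insert, Finset.mem_singleton]
              constructor
              · rintro ⟨rfl | h1, h2⟩
                · rfl
                · exact absurd h1 h2
              · rintro rfl; exact ⟨Or.inl rfl, hut⟩
            rw [e1, e2, Finset.card_insert_of_notMem hut, pot_succ, Finset.sum_singleton]
            have := gain v u hut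
            omega
          · have e1 : t ∪ {u, v} = insert u (insert v t) := by
              ext x; simp only [Finset.mem_union, Finset.mem_insert, Finset.mem_singleton]
              tauto
            have hut' : u ∉ insert v t := by
              simp [Finset.mem_insert, huv, hut]
            have e2 : insert u (insert v t) \ t = {u, v} := by
              ext x; simp only [Finset.mem_sdiff, Finset.mem_insert, Finset.mem_singleton]
              constructor
              · rintro ⟨rfl | rfl | h1, h2⟩
                · exact Or.inl rfl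
                · exact Or.inr rfl
                · exact absurd h1 h2
              · rintro (rfl | rfl)
                · exact ⟨Or.inl rfl, hut⟩
                · exact ⟨Or.inr (Or.inl rfl), hvt⟩
            rw [e1, e2, Finset.card_insert_of_notMem hut', Finset.card_insert_of_notMem hvt,
              pot_succ, pot_succ, Finset.sum_pair huv]
            have g1 := gain u v hvt
            have g2 := gain v u hut
            omega
      simp only [gl, if_true]
      rw [hsplit]
      omega

/-- The search lemma. -/
theorem search_bound {P : SimpleGraph α → Prop} (hinv : IsoInv P) {F : SimpleGraph α}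
    (hF : P F) (hmin : ∀ G' : SimpleGraph α, G' < F → ¬ P G') (D : ℕ) (hD0 : 0 < D)
    (hD : ∀ x, dg F x ≤ D) (q : ℕ)
    (hq : q ≤ (Finset.univ.filter (fun x => ∃ y, F.Adj x y)).card) :
    ENNReal.ofReal ((pot (Fintype.card α) (D + 2) q : ℝ) / (6 * D)) ≤ R P := by
  set M : ℕ := Fintype.card (Equiv.Perm α) with hM
  have hMpos : 0 < M := Fintype.card_pos
  have hMR : (0 : ℝ) < M := by exact_mod_cast hMpos
  have hDR : (0 : ℝ) < D := by exact_mod_cast hD0
  refine le_R_of_distribution_real (P := P) (Finset.univ : Finset (Equiv.Perm α))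
    (fun _ => 1 / (M : ℝ)) (fun π => copyG F π) (fun _ _ => by positivity) ?_ _ ?_
  · rw [Finset.sum_const, Finset.card_univ, nsmul_eq_mul, ← hM]
    field_simp
  · intro T hT
    have hiso : ∀ π : Equiv.Perm α, Nonempty (F ≃g copyG F π) := by
      intro π
      refine ⟨⟨π.symm, ?_⟩⟩
      intro a b
      simp [copyG]
    have hcopyP : ∀ π : Equiv.Perm α, P (copyG F π) := fun π => hinv _ _ (hiso π) hF
    have hcopymin : ∀ π : Equiv.Perm α, ∀ G' : SimpleGraph α, G' < copyG F π → ¬ P G' := by
      intro π G' hG' hPG'
      have h1 : G'.comap π.symm < F := by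
        have hle1 : G' ≤ copyG F π := hG'.le
        refine lt_of_le_not_ge ?_ ?_
        · intro a b hab
          have := hle1 (show G'.Adj (π.symm a) (π.symm b) from hab)
          simpa [copyG] using this
        · intro hle
          apply hG'.not_ge
          intro a b hab
          have h2 : F.Adj (π a) (π b) := by simpa [copyG] using hab
          have h3 := hle h2
          simpa using h3
      apply hmin _ h1
      refine hinv G' _ ⟨⟨π, ?_⟩⟩ hPG'
      intro a b
      simp
    -- lower bound along each run
    have hrun : ∀ π : Equiv.Perm α, pot (Fintype.card α) (D + 2) q ≤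
        gl F [] (T.path (copyG F π)) π + 4 * D * T.cost (copyG F π) := by
      intro π
      have hcor := T.path_correct (copyG F π)
      have h1 := gl_lower F D hD π (T.path (copyG F π)) (T.path (copyG F π)) [] (by simp)
        (fun a c b hm => by rw [← copyG_adj]; exact hcor a c b hm)
      have h2 : touched ([] : Hist α) = ∅ := by ext x; simp [mem_touched]
      rw [h2, Finset.sdiff_empty, Finset.card_empty] at h1
      have h3 : pot (Fintype.card α) (D + 2) 0 = 0 := by simp [pot]
      have h4 : ∑ v ∈ touched (T.path (copyG F π)), corr F D (T.path (copyG F π)) π v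
          ≤ 4 * D * (T.path (copyG F π)).length :=
        (Finset.sum_le_sum_of_subset (Finset.subset_univ _)).trans (sum_corr F D hD _ π)
      rw [T.length_path] at h4
      have h5 : q ≤ (touched (T.path (copyG F π))).card := by
        refine hq.trans ?_
        refine Finset.card_le_card_of_injOn π.symm ?_ π.symm.injective.injOn
        intro x hx
        obtain ⟨y, hxy⟩ := (Finset.mem_filter.1 (Finset.mem_coe.1 hx)).2
        rw [Finset.mem_coe, mem_touched]
        have he : s(π.symm x, π.symm y) ∈ edges (copyG F π) := by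
          rw [mem_edges, SimpleGraph.mem_edgeSet, copyG_adj]
          simpa using hxy
        have he' := edges_subset_asked hT (hcopyP π) (hcopymin π) he
        obtain ⟨a, c, b, hm, heq⟩ := T.asked_path _ _ he'
        have hb : b = true := by
          rw [← hcor a c b hm]
          have : s(a, c) ∈ (copyG F π).edgeSet := by rw [← heq]; exact mem_edges.1 he
          simpa using this
        subst hb
        rw [Sym2.eq_iff] at heq
        rcases heq with ⟨h6, h7⟩ | ⟨h6, h7⟩
        · exact ⟨c, Or.inl (by rw [h6]; exact hm)⟩
        · exact ⟨a, Or.inr (by rw [h6]; exact hm)⟩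
      have h6 := pot_mono (Fintype.card α) (D + 2) h5
      omega
    have htree := tree_count F D hD T []
    have hall : Finset.univ.filter (fun π : Equiv.Perm α => Cons F [] π) = Finset.univ := by
      ext π; simp [Cons]
    rw [hall] at htree
    have hsum : M * pot (Fintype.card α) (D + 2) q ≤ 6 * D * ∑ π : Equiv.Perm α,
        T.cost (copyG F π) := by
      have h1 : ∑ _π : Equiv.Perm α, pot (Fintype.card α) (D + 2) q ≤
          ∑ π : Equiv.Perm α, (gl F [] (T.path (copyG F π)) π + 4 * D * T.cost (copyG F π)) :=
        Finset.sum_le_sum fun π _ => hrun π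
      rw [Finset.sum_const, Finset.card_univ, smul_eq_mul, Finset.sum_add_distrib,
        ← Finset.mul_sum, ← hM] at h1
      linarith
    have hsumR : (M : ℝ) * (pot (Fintype.card α) (D + 2) q : ℝ) ≤
        6 * D * ∑ π : Equiv.Perm α, (T.cost (copyG F π) : ℝ) := by
      exact_mod_cast hsum
    rw [← Finset.mul_sum, div_le_iff₀ (by positivity)]
    rw [div_mul_eq_mul_div, one_mul, div_mul_eq_mul_div, le_div_iff₀ hMR]
    linarith

end Pool.Agent.KarpGP
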