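import Pool.Agent.KarpGP.Random
import Pool.Agent.KarpGP.Search

/-!
The lower bound for properties whose smallest graph with the property is nearly regular, in the
sense that the maximum degree is at most a logarithmic factor larger than the average degree.
-/

set_option autoImplicit false

set_option linter.unusedSectionVars false

open scoped ENNReal
open Classical

namespace Pool.Agent.KarpGP

universe u

variable {α : Type u} [Fintype α]

/-- The number of non-isolated vertices. -/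
noncomputable def nonIso (F : SimpleGraph α) : ℕ :=
  (Finset.univ.filter (fun x => ∃ y, F.Adj x y)).card

theorem nonIso_le (F : SimpleGraph α) : nonIso F ≤ 2 * (edges F).card := by
  have h1 : ∀ x : α, ∃ e : Sym2 α, (∃ y, F.Adj x y) → e ∈ edges F ∧ x ∈ e := by
    intro x
    by_cases h : ∃ y, F.Adj x y
    · obtain ⟨y, hy⟩ := h
      exact ⟨s(x, y), fun _ => ⟨mem_edges.2 hy, by simp⟩⟩
    · exact ⟨s(x, x), fun h' => absurd h' h⟩
  choose f hf using h1
  unfold nonIso
  refine Finset.card_le_mul_card_image_of_maps_to (f := f) (t := edges F) ?_ 2 ?_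
  · intro x hx
    exact (hf x (Finset.mem_filter.1 hx).2).1
  · intro e _
    induction e using Sym2.ind with
    | _ a b =>
      refine (Finset.card_le_card (t := {a, b}) ?_).trans Finset.card_le_two
      intro x hx
      rw [Finset.mem_filter, Finset.mem_filter] at hx
      have := (hf x hx.1.2).2
      rw [hx.2] at this
      rw [Finset.mem_insert, Finset.mem_singleton]
      exact Sym2.mem_iff.1 this

theorem dg_le_edges (F : SimpleGraph α) (x : α) : dg F x ≤ (edges F).card := by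
  unfold dg
  refine Finset.card_le_card_of_injOn (fun y => s(x, y)) ?_ ?_
  · intro y hy
    rw [Finset.mem_coe, Finset.mem_filter] at hy
    rw [Finset.mem_coe, mem_edges]
    exact hy.2
  · intro w _ w' _ h
    simp only [Sym2.eq_iff] at h
    rcases h with ⟨-, h⟩ | ⟨h1, h2⟩
    · exact h
    · exact h2.trans h1

theorem pot_lower (m c k : ℕ) (h5 : m ≤ 5 * k) (hc : 4 * c ≤ m) : m ^ 2 ≤ 10 * pot m c k := by
  set k0 := (m + 4) / 5 with hk0
  have hk : k0 ≤ k := by omega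
  have h1 : k0 * m ≤ 2 * pot m c k0 := by
    unfold pot
    rw [Finset.mul_sum]
    have : ∀ j ∈ Finset.range k0, m ≤ 2 * (m - j - c) := by
      intro j hj
      rw [Finset.mem_range] at hj
      omega
    have h2 := Finset.card_nsmul_le_sum (Finset.range k0) (fun j => 2 * (m - j - c)) m this
    simpa using h2
  have h3 : pot m c k0 ≤ pot m c k := pot_mono m c hk
  have h4 : m ≤ 5 * k0 := by omega
  nlinarith [Nat.mul_le_mul_right m h4]

theorem search_real {Q : SimpleGraph α → Prop} (hinv : IsoInv Q) {F : SimpleGraph α}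
    (hF : Q F) (hmin : ∀ G' : SimpleGraph α, G' < F → ¬ Q G') (D : ℕ) (hD0 : 0 < D)
    (hD : ∀ x, dg F x ≤ D) (h5 : Fintype.card α ≤ 5 * nonIso F)
    (hc : 4 * (D + 2) ≤ Fintype.card α) :
    ENNReal.ofReal ((Fintype.card α : ℝ) ^ 2 / (60 * D)) ≤ R Q := by
  refine le_trans (ENNReal.ofReal_le_ofReal ?_) (search_bound hinv hF hmin D hD0 hD (nonIso F)
    le_rfl)
  have h1 := pot_lower _ _ _ h5 hc
  have h2 : (Fintype.card α : ℝ) ^ 2 ≤ 10 * (pot (Fintype.card α) (D + 2) (nonIso F) : ℝ) := by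
    exact_mod_cast h1
  have hDR : (0 : ℝ) < D := by exact_mod_cast hD0
  rw [div_le_div_iff₀ (by positivity) (by positivity)]
  nlinarith

/-- Few non-edges cannot separate from `Q`. -/
theorem pack_step {Q : SimpleGraph α → Prop} (hmono : Mono Q) (hinv : IsoInv Q)
    {F : SimpleGraph α} (hF : Q F) (D κ Bd θ b ell : ℕ) (hD : ∀ x, dg F x ≤ D) (X : Finset α)
    (hX : ∀ x, (X.filter (fun y => F.Adj x y)).card ≤ κ)
    (h1 : ell + b * κ < X.card + 1)
    (h2 : ell + 2 + (κ * Bd + D * θ) + θ * D < Fintype.card α)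
    (N N' : Finset (Sym2 α)) (hN' : N' ⊆ N)
    (hdeg : ∀ v, dgin N Finset.univ v ≤ Bd)
    (hdense : ∀ L : Finset α, L.Nonempty → L.card ≤ ell → ∃ u ∈ L, dgin N L u ≤ b)
    (hQ : ¬ Q (co N')) : (θ + 1) * (ell + 1) ≤ 2 * N'.card := by
  by_contra hlt
  push Not at hlt
  set B : SimpleGraph α := gr N' with hB
  set L : Finset α := Finset.univ.filter (fun u => θ < dg B u) with hL
  have hsum : ∑ u : α, dg B u ≤ 2 * N'.card := by
    have h3 := card_sigma_le_two N' (Finset.univ : Finset α)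
    refine le_trans h3 (Nat.mul_le_mul_left _ (Finset.card_le_card Finset.inter_subset_right))
  have hLc : L.card ≤ ell := by
    by_contra hc
    push Not at hc
    have h3 : L.card * (θ + 1) ≤ ∑ u ∈ L, dg B u := by
      have := Finset.card_nsmul_le_sum L (fun u => dg B u) (θ + 1)
        (fun u hu => (Finset.mem_filter.1 hu).2)
      simpa using this
    have h4 : ∑ u ∈ L, dg B u ≤ ∑ u : α, dg B u :=
      Finset.sum_le_sum_of_subset (Finset.subset_univ _)
    have h5 : (ell + 1) * (θ + 1) ≤ L.card * (θ + 1) := Nat.mul_le_mul_right _ hc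
    nlinarith
  have hmonoin : ∀ (L' : Finset α) (u : α), dgin N' L' u ≤ dgin N L' u := by
    intro L' u
    refine Finset.card_le_card ?_
    intro w hw
    rw [Finset.mem_filter, gr_adj] at hw ⊢
    exact ⟨hw.1, hN' hw.2.1, hw.2.2⟩
  obtain ⟨π, hπ⟩ := packing F B X L D κ θ Bd b hD hX
    (fun u => (hmonoin Finset.univ u).trans (hdeg u))
    (fun u hu => by
      rw [hL, Finset.mem_filter] at hu
      push Not at hu
      exact hu (Finset.mem_univ _))
    (fun L' hL' hne => by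
      obtain ⟨u, hu, hub⟩ := hdense L' hne ((Finset.card_le_card hL').trans hLc)
      exact ⟨u, hu, (hmonoin L' u).trans hub⟩)
    (by omega) (by omega)
  apply hQ
  refine hmono (copyG F π.symm) _ ?_ (hinv F _ ⟨⟨π, ?_⟩⟩ hF)
  · intro a c hac
    have h3 : F.Adj (π.symm a) (π.symm c) := by simpa [copyG] using hac
    have h4 := hπ _ _ h3
    rw [Equiv.apply_symm_apply, Equiv.apply_symm_apply, hB, gr_adj] at h4
    rw [co_adj]
    have h5 : a ≠ c := hac.ne
    exact ⟨fun hmem => h4 ⟨hmem, h5⟩, h5⟩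
  · intro a c
    simp [copyG]

/-- The main case of the second part. -/
theorem random_case {Q : SimpleGraph α → Prop} (hmono : Mono Q) (hinv : IsoInv Q)
    {F : SimpleGraph α} (hF : Q F) (D : ℕ) (hD0 : 0 < D) (hD : ∀ x, dg F x ≤ D)
    (n lam Lam q : ℕ) (r : ℝ) (hq : q = 1500 * (lam * Lam)) (hlam1 : 1 ≤ lam) (hLam1 : 1 ≤ Lam)
    (hn1 : 1 ≤ n)
    (hm2 : Fintype.card α < 2 ^ lam)
    (hr : r = ((edges F).card : ℝ) / (2 * n * Lam)) (hr32 : 32 * (lam : ℝ) ≤ r)
    (hmq : (q : ℝ) * r * lam ≤ (Fintype.card α : ℝ)) (hDr : (D : ℝ) ≤ 16 * lam * Lam * r)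
    {ι : Type*} (I : Finset ι) (g : ι → SimpleGraph α) (hcover : ∀ G, Q G → ∃ i ∈ I, g i ≤ G)
    (hI : I.card ≤ 2 ^ (n * Lam)) (he : ∀ i ∈ I, (edges F).card ≤ (edges (g i)).card) :
    ENNReal.ofReal ((Fintype.card α : ℝ) ^ 2 / (6144000 * ((lam : ℝ) * Lam) ^ 2)) ≤ R Q := by
  set m : ℕ := Fintype.card α with hm
  have hlamR : (1 : ℝ) ≤ lam := by exact_mod_cast hlam1
  have hLamR : (1 : ℝ) ≤ Lam := by exact_mod_cast hLam1
  have hnR : (1 : ℝ) ≤ n := by exact_mod_cast hn1
  have hr0 : (0 : ℝ) < r := by linarith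
  have hr1 : (32 : ℝ) ≤ r := by nlinarith
  have hqR : (q : ℝ) = 1500 * (lam * Lam) := by rw [hq]; push_cast; ring
  have hLL : (1 : ℝ) ≤ (lam : ℝ) * Lam := by nlinarith
  have hq1 : (1500 : ℝ) ≤ q := by rw [hqR]; linarith
  have hq0 : (0 : ℝ) < q := by linarith
  have hDR : (0 : ℝ) < D := by exact_mod_cast hD0
  have hmq' : (q : ℝ) * lam ≤ m / r := by
    rw [le_div_iff₀ hr0]; linarith [hmq]
  have hmbig : (48000 : ℝ) ≤ m := by
    have : (1500 : ℝ) * 32 * 1 ≤ (q : ℝ) * r * lam := by gcongr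
    linarith
  have hm0 : (0 : ℝ) < m := by linarith
  have hqm : (q : ℝ) ≤ m := by
    have : (q : ℝ) * 1 * 1 ≤ (q : ℝ) * r * lam := by
      gcongr
      linarith
    linarith
  -- parameters
  set κ : ℕ := ⌊r / 16⌋₊ with hκ
  set Bd : ℕ := ⌊6 * m / r⌋₊ with hBd
  set θ : ℕ := m / (16 * D) with hθ
  set b : ℕ := ⌊8 * m / (q * r)⌋₊ with hb
  set ell : ℕ := m / (4 * q) with hell
  have hκ1 : (κ : ℝ) ≤ r / 16 := Nat.floor_le (by positivity)
  have hκ2 : r / 16 < (κ : ℝ) + 1 := Nat.lt_floor_add_one _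
  have hBd1 : (Bd : ℝ) ≤ 6 * m / r := Nat.floor_le (by positivity)
  have hBd2 : 6 * m / r < (Bd : ℝ) + 1 := Nat.lt_floor_add_one _
  have hb1 : (b : ℝ) ≤ 8 * m / (q * r) := Nat.floor_le (by positivity)
  have hb2 : 8 * m / (q * r) < (b : ℝ) + 1 := Nat.lt_floor_add_one _
  have hθ1 : (θ : ℝ) * (16 * D) ≤ m := by
    exact_mod_cast Nat.div_mul_le_self m (16 * D)
  have hθ2 : (m : ℝ) < ((θ : ℝ) + 1) * (16 * D) := by
    have := Nat.lt_mul_div_succ m (show 0 < 16 * D by positivity)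
    rw [mul_comm] at this
    exact_mod_cast this
  have hell1 : (ell : ℝ) * (4 * q) ≤ m := by
    exact_mod_cast Nat.div_mul_le_self m (4 * q)
  have hqpos : 0 < q := by
    have : (0 : ℝ) < q := hq0
    exact_mod_cast this
  have hell2 : (m : ℝ) < ((ell : ℝ) + 1) * (4 * q) := by
    have := Nat.lt_mul_div_succ m (show 0 < 4 * q by positivity)
    rw [mul_comm] at this
    exact_mod_cast this
  have hm2R : (m : ℝ) < 2 ^ lam := by exact_mod_cast hm2
  have hexp3 : Real.exp 1 ≤ 2.7182818286 := Real.exp_one_lt_d9.le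
  have hexp0 : 0 < Real.exp 1 := Real.exp_pos 1
  -- the spread set
  have hκlam : 2 * lam ≤ κ + 1 := by
    have : (2 * lam : ℝ) < (κ : ℝ) + 1 := by linarith
    exact_mod_cast this.le
  have hchoose : ((D.choose (κ + 1) : ℕ) : ℝ) ≤ (q / 2 : ℝ) ^ (κ + 1) := by
    have := choose_mul_pow_le D (κ + 1) 1 (q / 2 : ℝ) (by norm_num) (by positivity) (by
      push_cast
      have h1 : (D : ℝ) ≤ 16 * lam * Lam * (16 * ((κ : ℝ) + 1)) := by
        refine hDr.trans ?_
        have h2 : r ≤ 16 * ((κ : ℝ) + 1) := by linarith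
        gcongr
      calc Real.exp 1 * (D : ℝ) * 1 ≤ 2.7182818286 * (16 * lam * Lam * (16 * ((κ : ℝ) + 1))) * 1 := by
            gcongr
        _ ≤ (q / 2 : ℝ) * ((κ : ℝ) + 1) := by
            rw [hqR]
            have h3 : 0 ≤ (lam : ℝ) * Lam * ((κ : ℝ) + 1) := by positivity
            nlinarith)
    simpa using this
  have hspread : Fintype.card α * (q * D.choose (κ + 1)) < q ^ (κ + 1) := by
    have h1 : (m : ℝ) * (q * (D.choose (κ + 1) : ℝ)) < (q : ℝ) ^ (κ + 1) := by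
      have h2 : (m : ℝ) * q < 2 ^ (κ + 1) := by
        calc (m : ℝ) * q ≤ m * m := by gcongr
          _ < 2 ^ lam * 2 ^ lam := by gcongr
          _ = 2 ^ (2 * lam) := by rw [← pow_add]; congr 1; ring
          _ ≤ 2 ^ (κ + 1) := pow_le_pow_right₀ (by norm_num) hκlam
      calc (m : ℝ) * (q * (D.choose (κ + 1) : ℝ)) ≤ (m : ℝ) * (q * (q / 2 : ℝ) ^ (κ + 1)) := by
            gcongr
        _ = ((m : ℝ) * q) * (q / 2 : ℝ) ^ (κ + 1) := by ring
        _ < 2 ^ (κ + 1) * (q / 2 : ℝ) ^ (κ + 1) := by gcongr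
        _ = (q : ℝ) ^ (κ + 1) := by rw [← mul_pow]; congr 1; ring
    exact_mod_cast h1
  obtain ⟨X, hX1, hX2⟩ := exists_spread F D κ q hqpos hD hspread
  have hX1R : (m : ℝ) ≤ q * (X.card : ℝ) := by exact_mod_cast hX1
  -- the conditions of the packing lemma
  have hc1 : ell + b * κ < X.card + 1 := by
    have h1 : (ell : ℝ) ≤ m / (4 * q) := by
      rw [le_div_iff₀ (by positivity)]; exact hell1
    have h2 : (b : ℝ) * κ ≤ m / (2 * q) := by
      calc (b : ℝ) * κ ≤ (8 * m / (q * r)) * (r / 16) := by gcongr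
        _ = m / (2 * q) := by field_simp; ring
    have h3 : (m : ℝ) / q ≤ X.card := by
      rw [div_le_iff₀ hq0]; linarith
    have h4 : (m : ℝ) / (4 * q) + m / (2 * q) ≤ m / q := by
      have : (m : ℝ) / (4 * q) + m / (2 * q) = (3 / 4) * (m / q) := by field_simp; ring
      rw [this]
      have : 0 ≤ (m : ℝ) / q := by positivity
      linarith
    have h5 : (ell : ℝ) + b * κ < (X.card : ℝ) + 1 := by linarith
    exact_mod_cast h5
  have hc2 : ell + 2 + (κ * Bd + D * θ) + θ * D < Fintype.card α := by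
    have h1 : (ell : ℝ) ≤ m / 6000 := by
      rw [le_div_iff₀ (by norm_num)]
      nlinarith [hell1, (Nat.cast_nonneg ell : (0 : ℝ) ≤ ell)]
    have h2 : (κ : ℝ) * Bd ≤ 3 * m / 8 := by
      calc (κ : ℝ) * Bd ≤ (r / 16) * (6 * m / r) := by gcongr
        _ = 3 * m / 8 := by field_simp; ring
    have h3 : (D : ℝ) * θ ≤ m / 16 := by linarith
    have h5 : (ell : ℝ) + 2 + (κ * Bd + D * θ) + θ * D < (m : ℝ) := by linarith
    exact_mod_cast h5
  -- the failure probabilities
  set ρ : ℝ := 1 / r with hρ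
  have hρ0 : 0 < ρ := by positivity
  have hρ1 : ρ ≤ 1 := by
    rw [hρ, div_le_one hr0]; linarith
  have hP1 : pr ρ (allPairs α) (fun N => Q (co N)) ≤ 1 / 3 := by
    refine (pr_property_le hρ0.le hρ1 I g hcover _ he).trans ?_
    set E : ℕ := (edges F).card with hE
    have h1 : (1 - ρ) ^ E ≤ Real.exp (-(2 * n * Lam)) := by
      calc (1 - ρ) ^ E ≤ (Real.exp (-ρ)) ^ E :=
            pow_le_pow_left₀ (by linarith) (by linarith [Real.add_one_le_exp (-ρ)]) _
        _ = Real.exp (E * (-ρ)) := by rw [← Real.exp_nat_mul]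
        _ = Real.exp (-(2 * n * Lam)) := by
            congr 1
            have h2 : (E : ℝ) = r * (2 * n * Lam) := by
              rw [hr]; field_simp
            rw [h2, hρ]; field_simp
    have h3 : (I.card : ℝ) ≤ 2 ^ (n * Lam) := by exact_mod_cast hI
    have h4 : Real.exp (-(2 * n * Lam)) = ((Real.exp 1) ^ 2)⁻¹ ^ (n * Lam) := by
      rw [← inv_pow, ← Real.exp_neg, ← pow_mul, ← Real.exp_nat_mul]
      congr 1
      push_cast
      ring
    have h5 : (6 : ℝ) ≤ (Real.exp 1) ^ 2 := by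
      have := Real.exp_one_gt_d9
      nlinarith
    calc (I.card : ℝ) * (1 - ρ) ^ E ≤ 2 ^ (n * Lam) * ((Real.exp 1) ^ 2)⁻¹ ^ (n * Lam) := by
          rw [← h4]; exact mul_le_mul h3 h1 (pow_nonneg (by linarith) _) (by positivity)
      _ = (2 * ((Real.exp 1) ^ 2)⁻¹) ^ (n * Lam) := by rw [mul_pow]
      _ ≤ (1 / 3) ^ (n * Lam) := by
          refine pow_le_pow_left₀ (by positivity) ?_ _
          have h6 : ((Real.exp 1) ^ 2)⁻¹ ≤ 6⁻¹ := inv_anti₀ (by norm_num) h5
          linarith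
      _ ≤ (1 / 3) ^ 1 := by
          refine pow_le_pow_of_le_one (by norm_num) (by norm_num) ?_
          exact Nat.mul_pos hn1 hLam1
      _ = 1 / 3 := by norm_num
  have hlam7 : (m : ℝ) * (1 / 2) ^ (8 * lam) ≤ 1 / 128 := by
    have h1 : (2 : ℝ) ^ lam * (1 / 2) ^ lam = 1 := by rw [← mul_pow]; norm_num
    have h2 : ((1 : ℝ) / 2) ^ (8 * lam) = (1 / 2) ^ lam * (1 / 2) ^ (7 * lam) := by
      rw [← pow_add]; congr 1; ring
    calc (m : ℝ) * (1 / 2) ^ (8 * lam) ≤ 2 ^ lam * (1 / 2) ^ (8 * lam) := by gcongr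
      _ = (1 / 2) ^ (7 * lam) := by rw [h2, ← mul_assoc, h1, one_mul]
      _ ≤ (1 / 2) ^ 7 := pow_le_pow_of_le_one (by norm_num) (by norm_num) (by omega)
      _ = 1 / 128 := by norm_num
  have hP2 : pr ρ (allPairs α) (fun N => ∃ v : α, Bd + 1 ≤ dgin N Finset.univ v) ≤ 1 / 128 := by
    refine (pr_degree_le hρ0.le hρ1 (Bd + 1) (1 / 2) (by norm_num) ?_).trans ?_
    · push_cast
      rw [hρ]
      have h1 : Real.exp 1 * (m : ℝ) * (1 / r) ≤ 3 * m / r := by
        rw [mul_one_div]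
        gcongr
        linarith
      have h2 : (3 : ℝ) * m / r = (1 / 2) * (6 * m / r) := by ring
      linarith
    · refine le_trans ?_ hlam7
      have h1 : 8 * lam ≤ Bd + 1 := by
        have h2 : (8 * lam : ℝ) ≤ (Bd : ℝ) + 1 := by
          have h3 : 6 * (m : ℝ) / r = 6 * (m / r) := by ring
          have h4 : (1500 : ℝ) * lam ≤ q * lam := by gcongr
          nlinarith
        exact_mod_cast h2
      have h5 : ((1 : ℝ) / 2) ^ (Bd + 1) ≤ (1 / 2) ^ (8 * lam) :=
        pow_le_pow_of_le_one (by norm_num) (by norm_num) h1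
      gcongr
  have hP3 : pr ρ (allPairs α) (fun N => ∃ L : Finset α, L.Nonempty ∧ L.card ≤ ell ∧
        ∀ u ∈ L, b < dgin N L u) ≤ 1 / 7 := by
    have hqr : 8 * (m : ℝ) / (q * r) = 8 * (m / (q * r)) := by ring
    have hmqr : (lam : ℝ) ≤ m / (q * r) := by
      rw [le_div_iff₀ (by positivity)]; linarith
    refine pr_dense_le hρ0.le hρ1 b ell (4 * lam) ?_ ?_ ?_
    · have : ((2 * (4 * lam) : ℕ) : ℝ) ≤ ((b + 1 : ℕ) : ℝ) := by
        push_cast; linarith
      exact_mod_cast this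
    · have h1 : (ell : ℝ) ≤ m / (4 * q) := by
        rw [le_div_iff₀ (by positivity)]; exact hell1
      have h2 : Real.exp 1 * (ell : ℝ) * ρ ≤ 4 * (m / (4 * q)) * (1 / r) := by
        rw [hρ]; gcongr; linarith
      have h3 : 4 * ((m : ℝ) / (4 * q)) * (1 / r) = m / (q * r) := by field_simp
      linarith
    · refine le_trans ?_ (hlam7.trans (by norm_num))
      have : ((1 : ℝ) / 4) ^ (4 * lam) = (1 / 2) ^ (8 * lam) := by
        have h8 : 8 * lam = 2 * (4 * lam) := by ring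
        rw [h8, pow_mul (1 / 2 : ℝ) 2]
        norm_num
      rw [this]
  -- the good inputs
  let Good : Finset (Sym2 α) → Prop := fun N => ¬ (Q (co N) ∨
    ((∃ v : α, Bd + 1 ≤ dgin N Finset.univ v) ∨
      (∃ L : Finset α, L.Nonempty ∧ L.card ≤ ell ∧ ∀ u ∈ L, b < dgin N L u)))
  have hGood : 1 / 2 ≤ pr ρ (allPairs α) Good := by
    have h1 := pr_not ρ (allPairs α) (fun N => Q (co N) ∨
      ((∃ v : α, Bd + 1 ≤ dgin N Finset.univ v) ∨
        (∃ L : Finset α, L.Nonempty ∧ L.card ≤ ell ∧ ∀ u ∈ L, b < dgin N L u)))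
    have h2 := pr_or_le hρ0.le hρ1 (allPairs α) (fun N => Q (co N)) (fun N =>
      ((∃ v : α, Bd + 1 ≤ dgin N Finset.univ v) ∨
        (∃ L : Finset α, L.Nonempty ∧ L.card ≤ ell ∧ ∀ u ∈ L, b < dgin N L u)))
    have h3 := pr_or_le hρ0.le hρ1 (allPairs α) (fun N =>
      (∃ v : α, Bd + 1 ≤ dgin N Finset.univ v)) (fun N =>
        (∃ L : Finset α, L.Nonempty ∧ L.card ≤ ell ∧ ∀ u ∈ L, b < dgin N L u))
    change 1 / 2 ≤ pr ρ (allPairs α) (fun N => ¬ (Q (co N) ∨
      ((∃ v : α, Bd + 1 ≤ dgin N Finset.univ v) ∨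
        (∃ L : Finset α, L.Nonempty ∧ L.card ≤ ell ∧ ∀ u ∈ L, b < dgin N L u))))
    rw [h1]
    linarith
  have hfinal := prod_bound (P := Q) hρ0 hρ1 Good (((θ : ℝ) + 1) * ((ell : ℝ) + 1) / 2)
    (by positivity) (fun N _ hN hQ => hN (Or.inl hQ)) (fun N _ hN N' hN' hQ' => by
      have h1 := pack_step hmono hinv hF D κ Bd θ b ell hD X hX2 hc1 hc2 N N' hN'
        (fun v => by
          by_contra hcon
          push Not at hcon
          exact hN (Or.inr (Or.inl ⟨v, hcon⟩)))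
        (fun L hL1 hL2 => by
          by_contra hcon
          push Not at hcon
          exact hN (Or.inr (Or.inr ⟨L, hL1, hL2, hcon⟩)))
        hQ'
      have h2 : ((θ : ℝ) + 1) * ((ell : ℝ) + 1) ≤ 2 * (N'.card : ℝ) := by exact_mod_cast h1
      linarith) hGood
  refine le_trans (ENNReal.ofReal_le_ofReal ?_) hfinal
  -- the final estimate
  have h1 : (m : ℝ) * m ≤ (((θ : ℝ) + 1) * ((ell : ℝ) + 1)) * (64 * (q * D)) := by
    calc (m : ℝ) * m ≤ (((θ : ℝ) + 1) * (16 * D)) * (((ell : ℝ) + 1) * (4 * q)) := by gcongr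
      _ = _ := by ring
  rw [hρ, div_le_div_iff₀ (by positivity) (by positivity)]
  have h2 : (m : ℝ) ^ 2 * (2 * (1 / r)) * r ≤ (((θ : ℝ) + 1) * ((ell : ℝ) + 1)) / 2 *
      (6144000 * ((lam : ℝ) * Lam) ^ 2) * r := by
    have h3 : (m : ℝ) ^ 2 * (2 * (1 / r)) * r = 2 * (m * m) := by field_simp
    rw [h3]
    have hT : 0 ≤ ((θ : ℝ) + 1) * ((ell : ℝ) + 1) := by positivity
    calc 2 * ((m : ℝ) * m) ≤ 2 * ((((θ : ℝ) + 1) * ((ell : ℝ) + 1)) * (64 * (q * D))) := by
          linarith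
      _ ≤ 2 * ((((θ : ℝ) + 1) * ((ell : ℝ) + 1)) * (64 * (q * (16 * lam * Lam * r)))) := by
          gcongr
      _ ≤ _ := by
          rw [hqR]
          have h4 : 2 * ((((θ : ℝ) + 1) * ((ell : ℝ) + 1)) * (64 * (1500 * (lam * Lam) *
            (16 * lam * Lam * r)))) = (((θ : ℝ) + 1) * ((ell : ℝ) + 1)) / 2 *
            (6144000 * ((lam : ℝ) * Lam) ^ 2) * r := by ring
          rw [h4]
  exact le_of_mul_le_mul_right h2 hr0

end Pool.Agent.KarpGP
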