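import Pool.Agent.KarpGP.PartTwo

/-!
Assembly of the second part.
-/

set_option autoImplicit false

set_option linter.unusedSectionVars false

open scoped ENNReal
open Classical

namespace Pool.Agent.KarpGP

universe u

variable {α : Type u} [Fintype α]

theorem edges_lt_of_lt {G H : SimpleGraph α} (h : G < H) : (edges G).card < (edges H).card := by
  refine Finset.card_lt_card ?_
  rw [Finset.ssubset_iff_subset_ne]
  refine ⟨fun e he => ?_, fun heq => ?_⟩
  · rw [mem_edges] at he ⊢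
    exact SimpleGraph.edgeSet_mono h.le he
  · apply h.not_ge
    rw [← SimpleGraph.edgeSet_subset_edgeSet]
    intro e he
    rw [← mem_edges] at he ⊢
    rw [heq]; exact he

theorem part_two {Q : SimpleGraph α → Prop} (hmono : Mono Q) (hinv : IsoInv Q)
    {F : SimpleGraph α} (hF : Q F) (hmin : ∀ G, Q G → (edges F).card ≤ (edges G).card)
    (D : ℕ) (hD0 : 0 < D) (hD : ∀ x, dg F x ≤ D) (n lam Lam s : ℕ)
    (hlam1 : 1 ≤ lam) (hLam1 : 1 ≤ Lam) (hn1 : 1 ≤ n)
    (hmn : Fintype.card α ≤ n) (hn2 : n ≤ 2 * Fintype.card α) (hn : n < 2 ^ lam)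
    (hs : n ≤ 8 * lam * s) (hsD : s * D ≤ (edges F).card) (h5 : n ≤ 5 * nonIso F)
    {ι : Type*} (I : Finset ι) (g : ι → SimpleGraph α) (hcover : ∀ G, Q G → ∃ i ∈ I, g i ≤ G)
    (hI : I.card ≤ 2 ^ (n * Lam)) (hIQ : ∀ i ∈ I, Q (g i)) :
    ENNReal.ofReal ((n : ℝ) ^ 2 / (25000000 * ((lam : ℝ) * Lam) ^ 2)) ≤ R Q := by
  set m : ℕ := Fintype.card α with hm
  set E : ℕ := (edges F).card with hE
  have hlamR : (1 : ℝ) ≤ lam := by exact_mod_cast hlam1
  have hLamR : (1 : ℝ) ≤ Lam := by exact_mod_cast hLam1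
  have hnR : (1 : ℝ) ≤ n := by exact_mod_cast hn1
  have hn2R : (n : ℝ) ≤ 2 * m := by exact_mod_cast hn2
  have hDR : (0 : ℝ) < D := by exact_mod_cast hD0
  have hLL : (1 : ℝ) ≤ (lam : ℝ) * Lam := by nlinarith
  have hmin' : ∀ G' : SimpleGraph α, G' < F → ¬ Q G' := by
    intro G' h1 h2
    have h3 := hmin G' h2
    have h4 := edges_lt_of_lt h1
    omega
  -- the certificate bound
  have hcert : ENNReal.ofReal (E : ℝ) ≤ R Q := card_edges_le_R hF hmin'
  have hEn : (n : ℝ) / 10 ≤ E := by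
    have h1 := nonIso_le F
    have h2 : n ≤ 10 * E := by omega
    have h3 : (n : ℝ) ≤ 10 * E := by exact_mod_cast h2
    linarith
  set r : ℝ := (E : ℝ) / (2 * n * Lam) with hr
  have hEr : (E : ℝ) = r * (2 * n * Lam) := by
    have hpos : (0 : ℝ) < 2 * n * Lam := by positivity
    rw [hr, div_mul_cancel₀ _ hpos.ne']
  have hr0 : 0 ≤ r := div_nonneg (Nat.cast_nonneg _) (by positivity)
  have hDr : (D : ℝ) ≤ 16 * lam * Lam * r := by
    have h1 : (n : ℝ) * D ≤ 8 * lam * (s * D : ℕ) := by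
      have : n * D ≤ 8 * lam * (s * D) := by
        rw [← mul_assoc]; exact Nat.mul_le_mul_right _ hs
      exact_mod_cast this
    have h2 : ((s * D : ℕ) : ℝ) ≤ E := by exact_mod_cast hsD
    have h3 : (n : ℝ) * D ≤ n * (16 * lam * Lam * r) := by
      calc (n : ℝ) * D ≤ 8 * lam * (s * D : ℕ) := h1
        _ ≤ 8 * lam * E := by gcongr
        _ = n * (16 * lam * Lam * r) := by rw [hEr]; ring
    exact le_of_mul_le_mul_left h3 (by linarith)
  by_cases hr32 : 32 * (lam : ℝ) ≤ r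
  · by_cases hmq : ((1500 * (lam * Lam) : ℕ) : ℝ) * r * lam ≤ (m : ℝ)
    · refine le_trans (ENNReal.ofReal_le_ofReal ?_)
        (random_case hmono hinv hF D hD0 hD n lam Lam _ r rfl hlam1 hLam1 hn1
          (lt_of_le_of_lt hmn hn) hr hr32 hmq hDr I g hcover hI
          (fun i hi => hmin _ (hIQ i hi)))
      rw [← hm, div_le_div_iff₀ (by positivity) (by positivity)]
      have h1 : (n : ℝ) ^ 2 ≤ 4 * (m : ℝ) ^ 2 := by nlinarith
      have h2 : 0 ≤ ((lam : ℝ) * Lam) ^ 2 := by positivity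
      nlinarith [mul_le_mul_of_nonneg_right h1 h2, mul_nonneg (sq_nonneg (m : ℝ)) h2]
    · push Not at hmq
      refine le_trans (ENNReal.ofReal_le_ofReal ?_) hcert
      rw [div_le_iff₀ (by positivity), hEr]
      push_cast at hmq
      -- `n * (2 m) / (1500 lam ^ 2) ≤ E`
      have h1 : (n : ℝ) * n ≤ n * (2 * (1500 * (lam * Lam) * r * lam)) := by
        have : (n : ℝ) ≤ 2 * (1500 * (lam * Lam) * r * lam) := by linarith
        gcongr
      have h2 : (n : ℝ) * (2 * (1500 * (lam * Lam) * r * lam)) =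
          (r * (2 * n * Lam)) * (1500 * (lam : ℝ) ^ 2) := by ring
      have h3 : (1500 * (lam : ℝ) ^ 2) ≤ 25000000 * ((lam : ℝ) * Lam) ^ 2 := by
        have h4 : (lam : ℝ) ^ 2 ≤ ((lam : ℝ) * Lam) ^ 2 := by
          have : (lam : ℝ) ≤ lam * Lam := by nlinarith
          gcongr
        have h5 : 0 ≤ (lam : ℝ) ^ 2 := by positivity
        nlinarith
      calc (n : ℝ) ^ 2 = n * n := by ring
        _ ≤ _ := h1
        _ = _ := h2
        _ ≤ _ := mul_le_mul_of_nonneg_left h3 (mul_nonneg hr0 (by positivity))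
  · push Not at hr32
    have hD2 : (D : ℝ) ≤ 512 * Lam * lam ^ 2 := by
      have h1 : 16 * (lam : ℝ) * Lam * r ≤ 16 * lam * Lam * (32 * lam) := by gcongr
      nlinarith
    by_cases hc : 4 * (D + 2) ≤ m
    · refine le_trans (ENNReal.ofReal_le_ofReal ?_)
        (search_real hinv hF hmin' D hD0 hD (by omega) hc)
      rw [← hm, div_le_div_iff₀ (by positivity) (by positivity)]
      have h1 : (n : ℝ) ^ 2 ≤ 4 * (m : ℝ) ^ 2 := by nlinarith
      have h2 : 60 * (D : ℝ) ≤ 30720 * ((lam : ℝ) * Lam) ^ 2 := by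
        have h3 : Lam * (lam : ℝ) ^ 2 ≤ ((lam : ℝ) * Lam) ^ 2 := by
          have h4 : ((lam : ℝ) * Lam) ^ 2 = (Lam * (lam : ℝ) ^ 2) * Lam := by ring
          rw [h4]
          have h5 : 0 ≤ Lam * (lam : ℝ) ^ 2 := by positivity
          nlinarith
        nlinarith
      calc (n : ℝ) ^ 2 * (60 * (D : ℝ)) ≤ (4 * (m : ℝ) ^ 2) * (30720 * ((lam : ℝ) * Lam) ^ 2) := by
            gcongr
        _ ≤ (m : ℝ) ^ 2 * (25000000 * ((lam : ℝ) * Lam) ^ 2) := by
            have h2 : 0 ≤ (m : ℝ) ^ 2 * ((lam : ℝ) * Lam) ^ 2 := by positivity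
            nlinarith
    · push Not at hc
      refine le_trans (ENNReal.ofReal_le_ofReal ?_) hcert
      refine le_trans ?_ hEn
      rw [div_le_div_iff₀ (by positivity) (by norm_num)]
      have h1 : (m : ℝ) ≤ 4 * (D + 2) := by exact_mod_cast hc.le
      have h3 : Lam * (lam : ℝ) ^ 2 ≤ ((lam : ℝ) * Lam) ^ 2 := by
        have h4 : ((lam : ℝ) * Lam) ^ 2 = (Lam * (lam : ℝ) ^ 2) * Lam := by ring
        rw [h4]
        have h5 : 0 ≤ Lam * (lam : ℝ) ^ 2 := by positivity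
        nlinarith
      have h6 : 1 ≤ ((lam : ℝ) * Lam) ^ 2 := by nlinarith
      have h7 : (n : ℝ) ≤ 5000 * ((lam : ℝ) * Lam) ^ 2 := by nlinarith
      calc (n : ℝ) ^ 2 * 10 = n * (10 * n) := by ring
        _ ≤ n * (10 * (5000 * ((lam : ℝ) * Lam) ^ 2)) := by gcongr
        _ ≤ _ := by
          have : 0 ≤ (n : ℝ) * ((lam : ℝ) * Lam) ^ 2 := by positivity
          nlinarith

end Pool.Agent.KarpGP
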