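import Mathlib

/-!
The product distribution on subsets of a finite set.
-/

set_option autoImplicit false

set_option linter.unusedSectionVars false

open Classical

namespace Pool.Agent.KarpGP

universe u

variable {E : Type u} [DecidableEq E]

/-- The probability of `N` when every element of `U` is chosen independently with
probability `ρ`. -/
noncomputable def wt (ρ : ℝ) (U N : Finset E) : ℝ := ρ ^ N.card * (1 - ρ) ^ (U.card - N.card)

theorem wt_nonneg {ρ : ℝ} (h0 : 0 ≤ ρ) (h1 : ρ ≤ 1) (U N : Finset E) : 0 ≤ wt ρ U N :=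
  mul_nonneg (pow_nonneg h0 _) (pow_nonneg (by linarith) _)

theorem sum_wt (ρ : ℝ) (U : Finset E) : ∑ N ∈ U.powerset, wt ρ U N = 1 := by
  unfold wt
  rw [Finset.sum_pow_mul_eq_add_pow]
  simp

/-- The probability of an event. -/
noncomputable def pr (ρ : ℝ) (U : Finset E) (p : Finset E → Prop) : ℝ :=
  ∑ N ∈ U.powerset.filter p, wt ρ U N

theorem pr_eq (ρ : ℝ) (U : Finset E) (p : Finset E → Prop) [DecidablePred p] :
    pr ρ U p = ∑ N ∈ U.powerset.filter p, wt ρ U N := by
  unfold pr
  congr!

theorem pr_nonneg {ρ : ℝ} (h0 : 0 ≤ ρ) (h1 : ρ ≤ 1) (U : Finset E) (p : Finset E → Prop) :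
    0 ≤ pr ρ U p := Finset.sum_nonneg fun N _ => wt_nonneg h0 h1 U N

theorem pr_mono {ρ : ℝ} (h0 : 0 ≤ ρ) (h1 : ρ ≤ 1) (U : Finset E) {p q : Finset E → Prop}
    (h : ∀ N ⊆ U, p N → q N) : pr ρ U p ≤ pr ρ U q := by
  refine Finset.sum_le_sum_of_subset_of_nonneg ?_ fun N _ _ => wt_nonneg h0 h1 U N
  intro N hN
  rw [Finset.mem_filter, Finset.mem_powerset] at hN ⊢
  exact ⟨hN.1, h N hN.1 hN.2⟩

theorem pr_or_le {ρ : ℝ} (h0 : 0 ≤ ρ) (h1 : ρ ≤ 1) (U : Finset E) (p q : Finset E → Prop) :
    pr ρ U (fun N => p N ∨ q N) ≤ pr ρ U p + pr ρ U q := by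
  rw [pr_eq, pr_eq, pr_eq, Finset.filter_or]
  rw [← Finset.sum_union_inter]
  have := Finset.sum_nonneg (s := U.powerset.filter p ∩ U.powerset.filter q)
    (f := fun N => wt ρ U N) fun N _ => wt_nonneg h0 h1 U N
  linarith

theorem pr_not (ρ : ℝ) (U : Finset E) (p : Finset E → Prop) :
    pr ρ U (fun N => ¬ p N) = 1 - pr ρ U p := by
  rw [pr_eq, pr_eq, ← sum_wt ρ U, ← Finset.sum_filter_add_sum_filter_not U.powerset p]
  ring

theorem pr_exists_le {ρ : ℝ} (h0 : 0 ≤ ρ) (h1 : ρ ≤ 1) (U : Finset E) {ι : Type*}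
    (s : Finset ι) (p : ι → Finset E → Prop) :
    pr ρ U (fun N => ∃ i ∈ s, p i N) ≤ ∑ i ∈ s, pr ρ U (p i) := by
  induction s using Finset.induction_on with
  | empty =>
    simp [pr]
  | insert a s ha ih =>
    rw [Finset.sum_insert ha]
    refine le_trans ?_ (add_le_add_right ih _)
    refine le_trans (pr_mono h0 h1 U ?_) (pr_or_le h0 h1 U _ _)
    rintro N - ⟨i, hi, hp⟩
    rcases Finset.mem_insert.1 hi with rfl | hi
    · exact Or.inl hp
    · exact Or.inr ⟨i, hi, hp⟩

/-- The probability that all elements of `A` are chosen. -/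
theorem pr_superset (ρ : ℝ) (U A : Finset E) (hA : A ⊆ U) :
    pr ρ U (fun N => A ⊆ N) = ρ ^ A.card := by
  rw [pr_eq]
  have h : ∑ N ∈ U.powerset.filter (fun N => A ⊆ N), wt ρ U N
      = ∑ M ∈ (U \ A).powerset, ρ ^ A.card * wt ρ (U \ A) M := by
    refine Finset.sum_nbij' (fun N => N \ A) (fun M => M ∪ A) ?_ ?_ ?_ ?_ ?_
    · intro N hN
      rw [Finset.mem_filter, Finset.mem_powerset] at hN
      rw [Finset.mem_powerset]
      exact Finset.sdiff_subset_sdiff hN.1 (Finset.Subset.refl _)
    · intro M hM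
      rw [Finset.mem_powerset] at hM
      rw [Finset.mem_filter, Finset.mem_powerset]
      exact ⟨Finset.union_subset (hM.trans Finset.sdiff_subset) hA, Finset.subset_union_right⟩
    · intro N hN
      rw [Finset.mem_filter] at hN
      exact Finset.sdiff_union_of_subset hN.2
    · intro M hM
      rw [Finset.mem_powerset] at hM
      rw [Finset.union_sdiff_right]
      exact Finset.sdiff_eq_self_of_disjoint
        (Finset.disjoint_left.2 fun x hx => (Finset.mem_sdiff.1 (hM hx)).2)
    · intro N hN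
      rw [Finset.mem_filter, Finset.mem_powerset] at hN
      unfold wt
      rw [Finset.card_sdiff_of_subset hN.2, Finset.card_sdiff_of_subset hA]
      have h1 := Finset.card_le_card hN.2
      have h2 := Finset.card_le_card hN.1
      have h3 : U.card - A.card - (N.card - A.card) = U.card - N.card := by omega
      rw [h3, ← mul_assoc, ← pow_add]
      congr 2
      omega
  rw [h, ← Finset.mul_sum, sum_wt, mul_one]

/-- The probability that no element of `A` is chosen. -/
theorem pr_disjoint (ρ : ℝ) (U A : Finset E) (hA : A ⊆ U) :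
    pr ρ U (fun N => Disjoint A N) = (1 - ρ) ^ A.card := by
  rw [pr_eq]
  have h : ∑ N ∈ U.powerset.filter (fun N => Disjoint A N), wt ρ U N
      = ∑ M ∈ (U \ A).powerset, (1 - ρ) ^ A.card * wt ρ (U \ A) M := by
    refine Finset.sum_nbij' (fun N => N) (fun M => M) ?_ ?_ ?_ ?_ ?_
    · intro N hN
      rw [Finset.mem_filter, Finset.mem_powerset] at hN
      rw [Finset.mem_powerset]
      intro x hx
      rw [Finset.mem_sdiff]
      exact ⟨hN.1 hx, fun hxA => Finset.disjoint_left.1 hN.2 hxA hx⟩
    · intro M hM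
      rw [Finset.mem_powerset] at hM
      rw [Finset.mem_filter, Finset.mem_powerset]
      exact ⟨hM.trans Finset.sdiff_subset, Finset.disjoint_left.2 fun x hxA hxM =>
        (Finset.mem_sdiff.1 (hM hxM)).2 hxA⟩
    · intro N _; rfl
    · intro M _; rfl
    · intro N hN
      rw [Finset.mem_filter, Finset.mem_powerset] at hN
      unfold wt
      have hN' : N ⊆ U \ A := by
        intro x hx
        rw [Finset.mem_sdiff]
        exact ⟨hN.1 hx, fun hxA => Finset.disjoint_left.1 hN.2 hxA hx⟩
      have h1 := Finset.card_le_card hN'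
      rw [Finset.card_sdiff_of_subset hA] at h1 ⊢
      have h2 := Finset.card_le_card hA
      have h3 : U.card - N.card = A.card + (U.card - A.card - N.card) := by omega
      rw [h3, pow_add]
      ring
  rw [h, ← Finset.mul_sum, sum_wt, mul_one]

/-- If whether `e` is asked does not depend on whether `e` is chosen, then the probability that
`e` is asked and chosen is `ρ` times the probability that it is asked. -/
theorem wald_one (ρ : ℝ) (U : Finset E) (e : E) (he : e ∈ U) (p : Finset E → Prop)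
    (hp : ∀ N ⊆ U, e ∉ N → (p N ↔ p (insert e N))) :
    pr ρ U (fun N => p N ∧ e ∈ N) = ρ * pr ρ U p := by
  -- split according to whether `e ∈ N`
  have hsplit : pr ρ U p = pr ρ U (fun N => p N ∧ e ∈ N) + pr ρ U (fun N => p N ∧ e ∉ N) := by
    rw [pr_eq, pr_eq, pr_eq]
    rw [← Finset.sum_filter_add_sum_filter_not (U.powerset.filter p) (fun N => e ∈ N)]
    rw [Finset.filter_filter, Finset.filter_filter]
  have hins : ∑ N ∈ U.powerset.filter (fun N => p N ∧ e ∈ N), wt ρ U N
      = ∑ M ∈ U.powerset.filter (fun N => p N ∧ e ∉ N), wt ρ U (insert e M) := by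
    refine Finset.sum_nbij' (fun N => N.erase e) (fun M => insert e M) ?_ ?_ ?_ ?_ ?_
    · intro N hN
      rw [Finset.mem_filter, Finset.mem_powerset] at hN ⊢
      refine ⟨(Finset.erase_subset _ _).trans hN.1, ?_, Finset.notMem_erase _ _⟩
      rw [hp _ ((Finset.erase_subset _ _).trans hN.1) (Finset.notMem_erase _ _),
        Finset.insert_erase hN.2.2]
      exact hN.2.1
    · intro M hM
      rw [Finset.mem_filter, Finset.mem_powerset] at hM ⊢
      refine ⟨Finset.insert_subset he hM.1, ?_, Finset.mem_insert_self _ _⟩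
      rw [← hp _ hM.1 hM.2.2]
      exact hM.2.1
    · intro N hN
      rw [Finset.mem_filter] at hN
      exact Finset.insert_erase hN.2.2
    · intro M hM
      rw [Finset.mem_filter] at hM
      exact Finset.erase_insert hM.2.2
    · intro N hN
      rw [Finset.mem_filter] at hN
      rw [Finset.insert_erase hN.2.2]
  have hins2 : ∀ M ∈ U.powerset.filter (fun N => p N ∧ e ∉ N),
      (1 - ρ) * wt ρ U (insert e M) = ρ * wt ρ U M := by
    intro M hM
    rw [Finset.mem_filter, Finset.mem_powerset] at hM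
    unfold wt
    rw [Finset.card_insert_of_notMem hM.2.2]
    have h1 : (insert e M).card ≤ U.card :=
      Finset.card_le_card (Finset.insert_subset he hM.1)
    rw [Finset.card_insert_of_notMem hM.2.2] at h1
    have h2 : U.card - M.card = (U.card - (M.card + 1)) + 1 := by omega
    rw [h2]
    ring
  have h3 : (1 - ρ) * pr ρ U (fun N => p N ∧ e ∈ N) = ρ * pr ρ U (fun N => p N ∧ e ∉ N) := by
    rw [pr_eq, pr_eq]
    rw [hins, Finset.mul_sum, Finset.mul_sum]
    exact Finset.sum_congr rfl hins2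
  rw [hsplit]
  linarith

/-- Wald's identity: the expected number of chosen elements among those asked is `ρ` times the
expected number of elements asked. -/
theorem wald (ρ : ℝ) (U : Finset E) (A : Finset E → Finset E)
    (hA : ∀ N ⊆ U, ∀ e ∈ U, e ∉ N → (e ∈ A N ↔ e ∈ A (insert e N))) :
    ∑ N ∈ U.powerset, wt ρ U N * ((A N ∩ N).card : ℝ)
      = ρ * ∑ N ∈ U.powerset, wt ρ U N * ((A N ∩ U).card : ℝ) := by
  have h1 : ∀ N ∈ U.powerset, wt ρ U N * ((A N ∩ N).card : ℝ)
      = ∑ e ∈ U, if (e ∈ A N ∧ e ∈ N) then wt ρ U N else 0 := by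
    intro N hN
    rw [Finset.mem_powerset] at hN
    have : A N ∩ N = U.filter (fun e => e ∈ A N ∧ e ∈ N) := by
      ext e
      rw [Finset.mem_inter, Finset.mem_filter]
      exact ⟨fun h => ⟨hN h.2, h⟩, fun h => h.2⟩
    rw [this, ← Finset.sum_filter, Finset.sum_const, nsmul_eq_mul, mul_comm]
  have h2 : ∀ N ∈ U.powerset, wt ρ U N * ((A N ∩ U).card : ℝ)
      = ∑ e ∈ U, if e ∈ A N then wt ρ U N else 0 := by
    intro N hN
    have : A N ∩ U = U.filter (fun e => e ∈ A N) := by
      ext e
      rw [Finset.mem_inter, Finset.mem_filter]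
      exact ⟨fun h => ⟨h.2, h.1⟩, fun h => ⟨h.2, h.1⟩⟩
    rw [this, ← Finset.sum_filter, Finset.sum_const, nsmul_eq_mul, mul_comm]
  rw [Finset.sum_congr rfl h1, Finset.sum_congr rfl h2, Finset.sum_comm,
    Finset.sum_comm (s := U.powerset) (t := U), Finset.mul_sum]
  refine Finset.sum_congr rfl fun e he => ?_
  rw [← Finset.sum_filter, ← Finset.sum_filter]
  have := wald_one ρ U e he (fun N => e ∈ A N) (fun N hN heN => hA N hN e he heN)
  rw [pr_eq, pr_eq] at this
  exact this

end Pool.Agent.KarpGP
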