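import Pool.Agent.KarpGP.Restrict

/-!
Union bounds for the product distribution on pairs of vertices.
-/

set_option autoImplicit false

set_option linter.unusedSectionVars false

open scoped ENNReal
open Classical

namespace Pool.Agent.KarpGP

universe u

/-- A bound for binomial tails. -/
theorem choose_mul_pow_le (N a : ℕ) (ρ c : ℝ) (hρ : 0 ≤ ρ) (hc : 0 ≤ c)
    (h : Real.exp 1 * N * ρ ≤ c * a) : (N.choose a : ℝ) * ρ ^ a ≤ c ^ a := by
  have h1 : (N.choose a : ℝ) ≤ (N : ℝ) ^ a / (a.factorial : ℝ) := Nat.choose_le_pow_div a N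
  have h2 : (a : ℝ) ^ a / (a.factorial : ℝ) ≤ Real.exp a :=
    Real.pow_div_factorial_le_exp (a : ℝ) (Nat.cast_nonneg _) a
  have hfac : (0 : ℝ) < (a.factorial : ℝ) := by exact_mod_cast Nat.factorial_pos a
  have hexp : Real.exp a = (Real.exp 1) ^ a := by
    rw [← Real.exp_nat_mul]; ring_nf
  have he : 0 < Real.exp 1 := Real.exp_pos 1
  have h3 : (Real.exp 1 * N * ρ) ^ a ≤ (c * a) ^ a :=
    pow_le_pow_left₀ (by positivity) h a
  calc (N.choose a : ℝ) * ρ ^ a ≤ (N : ℝ) ^ a / (a.factorial : ℝ) * ρ ^ a :=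
        mul_le_mul_of_nonneg_right h1 (by positivity)
    _ = (Real.exp 1 * N * ρ) ^ a / (a.factorial : ℝ) / (Real.exp 1) ^ a := by
        field_simp
        rw [mul_pow, mul_pow]
        ring
    _ ≤ (c * a) ^ a / (a.factorial : ℝ) / (Real.exp 1) ^ a := by gcongr
    _ = c ^ a * ((a : ℝ) ^ a / (a.factorial : ℝ)) / (Real.exp 1) ^ a := by
        rw [mul_pow]; ring
    _ ≤ c ^ a * (Real.exp 1) ^ a / (Real.exp 1) ^ a := by
        rw [hexp] at h2
        gcongr
    _ = c ^ a := by field_simp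

section
variable {E : Type u} [DecidableEq E]

theorem pr_inter_ge {ρ : ℝ} (h0 : 0 ≤ ρ) (h1 : ρ ≤ 1) (U A : Finset E) (hA : A ⊆ U) (a : ℕ) :
    pr ρ U (fun N => a ≤ (A ∩ N).card) ≤ (A.card.choose a : ℝ) * ρ ^ a := by
  have step : pr ρ U (fun N => a ≤ (A ∩ N).card) ≤
      pr ρ U (fun N => ∃ S ∈ A.powersetCard a, S ⊆ N) := by
    refine pr_mono h0 h1 U fun N _ hN => ?_
    obtain ⟨S, hS1, hS2⟩ := Finset.exists_subset_card_eq hN
    exact ⟨S, Finset.mem_powersetCard.2 ⟨hS1.trans Finset.inter_subset_left, hS2⟩,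
      hS1.trans Finset.inter_subset_right⟩
  refine step.trans ((pr_exists_le h0 h1 U _ _).trans ?_)
  have : ∀ S ∈ A.powersetCard a, pr ρ U (fun N => S ⊆ N) = ρ ^ a := by
    intro S hS
    rw [Finset.mem_powersetCard] at hS
    rw [pr_superset ρ U S (hS.1.trans hA), hS.2]
  rw [Finset.sum_congr rfl this, Finset.sum_const, Finset.card_powersetCard, nsmul_eq_mul]

end

variable {V : Type u} [Fintype V]

/-- The probability that the input has the property is at most the sum over minimal graphs. -/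
theorem pr_property_le {ρ : ℝ} (h0 : 0 ≤ ρ) (h1 : ρ ≤ 1) {Q : SimpleGraph V → Prop}
    {ι : Type*} (I : Finset ι) (g : ι → SimpleGraph V) (hcover : ∀ G, Q G → ∃ i ∈ I, g i ≤ G)
    (e : ℕ) (he : ∀ i ∈ I, e ≤ (edges (g i)).card) :
    pr ρ (allPairs V) (fun N => Q (co N)) ≤ (I.card : ℝ) * (1 - ρ) ^ e := by
  have step : pr ρ (allPairs V) (fun N => Q (co N)) ≤
      pr ρ (allPairs V) (fun N => ∃ i ∈ I, Disjoint (edges (g i)) N) := by
    refine pr_mono h0 h1 _ fun N _ hN => ?_
    obtain ⟨i, hi, hle⟩ := hcover _ hN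
    refine ⟨i, hi, Finset.disjoint_left.2 fun x hx hxN => ?_⟩
    rw [mem_edges] at hx
    have := SimpleGraph.edgeSet_mono hle hx
    rw [mem_co_edgeSet] at this
    exact this.1 hxN
  refine step.trans ((pr_exists_le h0 h1 _ _ _).trans ?_)
  refine (Finset.sum_le_card_nsmul _ _ ((1 - ρ) ^ e) fun i hi => ?_).trans ?_
  · rw [pr_disjoint]
    · exact pow_le_pow_of_le_one (by linarith) (by linarith) (he i hi)
    · intro x hx
      rw [mem_edges] at hx
      rw [mem_allPairs]
      exact SimpleGraph.not_isDiag_of_mem_edgeSet _ hx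
  · rw [nsmul_eq_mul]

/-- The pairs containing `v`. -/
noncomputable def star (v : V) : Finset (Sym2 V) :=
  (allPairs V).filter (fun e => v ∈ e)

theorem card_star_le (v : V) : (star v).card ≤ Fintype.card V := by
  have : star v ⊆ Finset.univ.image (fun w : V => s(v, w)) := by
    intro e he
    rw [star, Finset.mem_filter] at he
    obtain ⟨w, rfl⟩ := Sym2.mem_iff_exists.1 he.2
    exact Finset.mem_image_of_mem _ (Finset.mem_univ _)
  exact (Finset.card_le_card this).trans (Finset.card_image_le.trans (by simp))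

/-- The graph with the given edges. -/
def gr (N : Finset (Sym2 V)) : SimpleGraph V := SimpleGraph.fromEdgeSet {e | e ∈ N}

theorem gr_adj {N : Finset (Sym2 V)} {u v : V} : (gr N).Adj u v ↔ s(u, v) ∈ N ∧ u ≠ v := by
  simp [gr]

/-- The number of neighbours of `v` in `gr N` within `L`. -/
noncomputable def dgin (N : Finset (Sym2 V)) (L : Finset V) (v : V) : ℕ :=
  (L.filter (fun w => (gr N).Adj v w)).card

theorem dgin_le_star (N : Finset (Sym2 V)) (L : Finset V) (v : V) :
    dgin N L v ≤ (star v ∩ N).card := by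
  unfold dgin
  refine Finset.card_le_card_of_injOn (fun w => s(v, w)) ?_ ?_
  · intro w hw
    rw [Finset.mem_coe, Finset.mem_filter, gr_adj] at hw
    rw [Finset.mem_coe, Finset.mem_inter, star, Finset.mem_filter, mem_allPairs]
    exact ⟨⟨by simpa using hw.2.2, by simp⟩, hw.2.1⟩
  · intro w _ w' _ h
    simp only [Sym2.eq_iff] at h
    rcases h with ⟨-, h⟩ | ⟨h1, h2⟩
    · exact h
    · exact h2.trans h1

theorem pr_degree_le {ρ : ℝ} (h0 : 0 ≤ ρ) (h1 : ρ ≤ 1) (a : ℕ) (c : ℝ) (hc : 0 ≤ c)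
    (h : Real.exp 1 * (Fintype.card V : ℝ) * ρ ≤ c * a) :
    pr ρ (allPairs V) (fun N => ∃ v : V, a ≤ dgin N Finset.univ v)
      ≤ (Fintype.card V : ℝ) * c ^ a := by
  have step : pr ρ (allPairs V) (fun N => ∃ v : V, a ≤ dgin N Finset.univ v) ≤
      pr ρ (allPairs V) (fun N => ∃ v ∈ (Finset.univ : Finset V), a ≤ (star v ∩ N).card) := by
    refine pr_mono h0 h1 _ fun N _ hN => ?_
    obtain ⟨v, hv⟩ := hN
    exact ⟨v, Finset.mem_univ _, hv.trans (dgin_le_star N _ v)⟩
  refine step.trans ((pr_exists_le h0 h1 _ _ _).trans ?_)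
  refine (Finset.sum_le_card_nsmul _ _ (c ^ a) fun v _ => ?_).trans ?_
  · refine (pr_inter_ge h0 h1 _ _ (Finset.filter_subset _ _) a).trans ?_
    refine choose_mul_pow_le _ _ _ _ h0 hc (le_trans ?_ h)
    have : ((star v).card : ℝ) ≤ (Fintype.card V : ℝ) := by exact_mod_cast card_star_le v
    have he : 0 < Real.exp 1 := Real.exp_pos 1
    exact mul_le_mul_of_nonneg_right (mul_le_mul_of_nonneg_left this he.le) h0
  · rw [nsmul_eq_mul, Finset.card_univ]

/-- The pairs inside `L`. -/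
noncomputable def inner (L : Finset V) : Finset (Sym2 V) :=
  (allPairs V).filter (fun e => ∀ v ∈ e, v ∈ L)

theorem card_inner_le (L : Finset V) : (inner L).card ≤ L.card ^ 2 := by
  have : inner L ⊆ (L ×ˢ L).image (fun p : V × V => s(p.1, p.2)) := by
    intro e he
    rw [inner, Finset.mem_filter] at he
    induction e using Sym2.ind with
    | _ a b =>
      rw [Finset.mem_image]
      exact ⟨(a, b), Finset.mem_product.2 ⟨he.2 a (by simp), he.2 b (by simp)⟩, rfl⟩
  refine (Finset.card_le_card this).trans (Finset.card_image_le.trans ?_)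
  rw [Finset.card_product, sq]

theorem card_sigma_le_two (N : Finset (Sym2 V)) (L : Finset V) :
    ∑ u ∈ L, dgin N L u ≤ 2 * (inner L ∩ N).card := by
  have h1 : ∑ u ∈ L, dgin N L u = (L.sigma (fun u => L.filter (fun w => (gr N).Adj u w))).card := by
    rw [Finset.card_sigma]; rfl
  rw [h1]
  refine Finset.card_le_mul_card_image_of_maps_to (f := fun p : (_ : V) × V => s(p.1, p.2))
    (t := inner L ∩ N) ?_ 2 ?_
  · rintro ⟨u, w⟩ hp
    rw [Finset.mem_sigma, Finset.mem_filter, gr_adj] at hp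
    rw [Finset.mem_inter, inner, Finset.mem_filter, mem_allPairs]
    refine ⟨⟨by simpa using hp.2.2.2, ?_⟩, hp.2.2.1⟩
    intro v hv
    rcases Sym2.mem_iff.1 hv with rfl | rfl
    · exact hp.1
    · exact hp.2.1
  · intro e _
    induction e using Sym2.ind with
    | _ a b =>
      refine (Finset.card_le_card (t := {⟨a, b⟩, ⟨b, a⟩}) ?_).trans Finset.card_le_two
      rintro ⟨u, w⟩ hp
      rw [Finset.mem_filter] at hp
      have := hp.2
      simp only [Sym2.eq_iff] at this
      rw [Finset.mem_insert, Finset.mem_singleton]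
      rcases this with ⟨rfl, rfl⟩ | ⟨rfl, rfl⟩
      · exact Or.inl rfl
      · exact Or.inr rfl

/-- The probability that some small set spans a graph of large minimum degree. -/
theorem pr_dense_le {ρ : ℝ} (h0 : 0 ≤ ρ) (h1 : ρ ≤ 1) (b ell k : ℕ)
    (hk : 2 * k ≤ b + 1) (h : Real.exp 1 * (ell : ℝ) * ρ ≤ (b + 1 : ℝ) / 8)
    (hx : (Fintype.card V : ℝ) * (1 / 4) ^ k ≤ 1 / 8) :
    pr ρ (allPairs V) (fun N => ∃ L : Finset V, L.Nonempty ∧ L.card ≤ ell ∧
        ∀ u ∈ L, b < dgin N L u) ≤ 1 / 7 := by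
  -- the number of pairs
  let aL : Finset V → ℕ := fun L => ((b + 1) * L.card + 1) / 2
  have step : pr ρ (allPairs V) (fun N => ∃ L : Finset V, L.Nonempty ∧ L.card ≤ ell ∧
        ∀ u ∈ L, b < dgin N L u) ≤
      pr ρ (allPairs V) (fun N => ∃ L ∈ (Finset.univ : Finset (Finset V)).filter
        (fun L => L.Nonempty ∧ L.card ≤ ell), aL L ≤ (inner L ∩ N).card) := by
    refine pr_mono h0 h1 _ fun N _ hN => ?_
    obtain ⟨L, hL1, hL2, hL3⟩ := hN
    refine ⟨L, by simp [hL1, hL2], ?_⟩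
    have h2 := card_sigma_le_two N L
    have h3 : L.card * (b + 1) ≤ ∑ u ∈ L, dgin N L u := by
      have := Finset.card_nsmul_le_sum L (fun u => dgin N L u) (b + 1) (fun u hu => hL3 u hu)
      simpa using this
    have h4 : (b + 1) * L.card ≤ 2 * (inner L ∩ N).card := by rw [mul_comm]; exact h3.trans h2
    simp only [aL]
    omega
  refine step.trans ((pr_exists_le h0 h1 _ _ _).trans ?_)
  have hbound : ∀ L ∈ (Finset.univ : Finset (Finset V)).filter
      (fun L => L.Nonempty ∧ L.card ≤ ell),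
      pr ρ (allPairs V) (fun N => aL L ≤ (inner L ∩ N).card) ≤ ((1 / 4 : ℝ) ^ k) ^ L.card := by
    intro L hL
    rw [Finset.mem_filter] at hL
    obtain ⟨-, hL1, hL2⟩ := hL
    refine (pr_inter_ge h0 h1 _ _ (Finset.filter_subset _ _) _).trans ?_
    have haL : ((b + 1 : ℕ) : ℝ) * L.card ≤ 2 * (aL L : ℝ) := by
      have : (b + 1) * L.card ≤ 2 * aL L := by simp only [aL]; omega
      exact_mod_cast this
    have e1 : ((inner L).card.choose (aL L) : ℝ) * ρ ^ (aL L) ≤ (1 / 4 : ℝ) ^ (aL L) := by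
      refine choose_mul_pow_le _ _ _ _ h0 (by norm_num) ?_
      have hc : ((inner L).card : ℝ) ≤ (L.card : ℝ) ^ 2 := by exact_mod_cast card_inner_le L
      have he : 0 < Real.exp 1 := Real.exp_pos 1
      have hLe : (L.card : ℝ) ≤ ell := by exact_mod_cast hL2
      have hL0 : (0 : ℝ) ≤ L.card := Nat.cast_nonneg _
      calc Real.exp 1 * ((inner L).card : ℝ) * ρ ≤ Real.exp 1 * ((L.card : ℝ) ^ 2) * ρ := by gcongr
        _ = (Real.exp 1 * (L.card : ℝ) * ρ) * L.card := by ring
        _ ≤ (Real.exp 1 * (ell : ℝ) * ρ) * L.card := by gcongr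
        _ ≤ ((b + 1 : ℝ) / 8) * L.card := by gcongr
        _ ≤ 1 / 4 * (aL L : ℝ) := by push_cast at haL; linarith
    refine e1.trans ?_
    rw [← pow_mul]
    refine pow_le_pow_of_le_one (by norm_num) (by norm_num) ?_
    simp only [aL]
    have : 2 * (k * L.card) ≤ (b + 1) * L.card := by
      rw [← mul_assoc]; exact Nat.mul_le_mul_right _ hk
    omega
  refine (Finset.sum_le_sum hbound).trans ?_
  set x : ℝ := (1 / 4 : ℝ) ^ k with hxdef
  have hx0 : 0 ≤ x := by positivity
  have e2 : ∑ L ∈ (Finset.univ : Finset (Finset V)).filter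
      (fun L => L.Nonempty ∧ L.card ≤ ell), x ^ L.card ≤
      ∑ L ∈ (Finset.univ : Finset (Finset V)).erase ∅, x ^ L.card := by
    refine Finset.sum_le_sum_of_subset_of_nonneg ?_ fun L _ _ => by positivity
    intro L hL
    rw [Finset.mem_filter] at hL
    rw [Finset.mem_erase]
    exact ⟨hL.2.1.ne_empty, Finset.mem_univ _⟩
  refine e2.trans ?_
  have e3 : ∑ L ∈ (Finset.univ : Finset (Finset V)).erase ∅, x ^ L.card
      = (x + 1) ^ (Fintype.card V) - 1 := by
    have h5 := Finset.sum_pow_mul_eq_add_pow x 1 (Finset.univ : Finset V)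
    have h6 := Finset.sum_erase_add (Finset.univ : Finset (Finset V)) (fun L => x ^ L.card)
      (Finset.mem_univ (∅ : Finset V))
    simp only [Finset.card_empty, pow_zero] at h6
    simp only [one_pow, mul_one, Finset.powerset_univ, Finset.card_univ] at h5
    linarith
  rw [e3]
  have e4 : (x + 1) ^ (Fintype.card V) ≤ Real.exp ((Fintype.card V : ℝ) * x) := by
    rw [Real.exp_nat_mul]
    exact pow_le_pow_left₀ (by positivity) (Real.add_one_le_exp x) _
  have e5 : Real.exp ((Fintype.card V : ℝ) * x) ≤ Real.exp (1 / 8) := Real.exp_le_exp.2 hx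
  have e6 : Real.exp (1 / 8) ≤ 8 / 7 := by
    have h7 := Real.add_one_le_exp (-(1 / 8) : ℝ)
    have h8 : Real.exp (-(1 / 8)) = (Real.exp (1 / 8))⁻¹ := Real.exp_neg _
    rw [h8] at h7
    have h9 : 0 < Real.exp (1 / 8) := Real.exp_pos _
    have h10 : (7 / 8 : ℝ) ≤ (Real.exp (1 / 8))⁻¹ := by linarith
    rw [le_inv_comm₀ (by norm_num) h9] at h10
    norm_num at h10 ⊢
    linarith
  linarith

end Pool.Agent.KarpGP
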