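import Pool.Agent.KarpGP.Basic
import Pool.Agent.KarpGP.Product

/-!
Restricting a graph property by making a set of vertices dominating, certificate lower bounds
and the lower bound from a product distribution.
-/

set_option autoImplicit false

set_option linter.unusedSectionVars false

open scoped ENNReal
open Classical

namespace Pool.Agent.KarpGP

universe u

variable {V : Type u}

/-- A property of graphs is monotone if adding edges preserves it. -/
def Mono (P : SimpleGraph V → Prop) : Prop := ∀ G H : SimpleGraph V, G ≤ H → P G → P H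

/-- A property of graphs is closed under isomorphism. -/
def IsoInv (P : SimpleGraph V → Prop) : Prop :=
  ∀ G H : SimpleGraph V, Nonempty (G ≃g H) → P G → P H

/-- The graph in which all vertices of `Z` are adjacent to everything, and which is `F` on the
remaining vertices. -/
def join (Z : Finset V) (F : SimpleGraph {v : V // v ∉ Z}) : SimpleGraph V where
  Adj u v := u ≠ v ∧ ∀ (hu : u ∉ Z) (hv : v ∉ Z), F.Adj ⟨u, hu⟩ ⟨v, hv⟩
  symm := ⟨fun _ _ h => ⟨h.1.symm, fun hu hv => (h.2 hv hu).symm⟩⟩
  loopless := ⟨fun _ h => h.1 rfl⟩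

theorem join_mono (Z : Finset V) {F F' : SimpleGraph {v : V // v ∉ Z}} (h : F ≤ F') :
    join Z F ≤ join Z F' := fun _ _ huv => ⟨huv.1, fun hu hv => h (huv.2 hu hv)⟩

/-- The restricted property. -/
def PZ (P : SimpleGraph V → Prop) (Z : Finset V) : SimpleGraph {v : V // v ∉ Z} → Prop :=
  fun F => P (join Z F)

theorem Mono.pz {P : SimpleGraph V → Prop} (hP : Mono P) (Z : Finset V) : Mono (PZ P Z) :=
  fun _ _ h => hP _ _ (join_mono Z h)

theorem IsoInv.pz {P : SimpleGraph V → Prop} (hP : IsoInv P) (Z : Finset V) :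
    IsoInv (PZ P Z) := by
  rintro F F' ⟨φ⟩
  refine hP _ _ ⟨?_⟩
  refine ⟨Equiv.Perm.ofSubtype (p := fun v => v ∉ Z) φ.toEquiv, ?_⟩
  intro a b
  have key : ∀ a : V, (Equiv.Perm.ofSubtype (p := fun v => v ∉ Z) φ.toEquiv) a ∉ Z ↔ a ∉ Z :=
    fun a => Equiv.Perm.ofSubtype_apply_mem_iff_mem (p := fun v => v ∉ Z) φ.toEquiv a
  have app : ∀ (a : V) (ha : a ∉ Z) (ha' : (Equiv.Perm.ofSubtype (p := fun v => v ∉ Z)
      φ.toEquiv) a ∉ Z), (⟨_, ha'⟩ : {v : V // v ∉ Z}) = φ ⟨a, ha⟩ := by
    intro a ha ha'
    apply Subtype.ext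
    exact Equiv.Perm.ofSubtype_apply_of_mem (p := fun v => v ∉ Z) φ.toEquiv ha
  constructor
  · rintro ⟨h1, h2⟩
    refine ⟨fun hab => h1 (by rw [hab]), fun ha hb => ?_⟩
    have h3 := h2 ((key a).2 ha) ((key b).2 hb)
    rw [app a ha, app b hb] at h3
    exact φ.map_rel_iff.1 h3
  · rintro ⟨h1, h2⟩
    refine ⟨fun hab => h1 (Equiv.injective _ hab), fun ha hb => ?_⟩
    rw [app a ((key a).1 ha) ha, app b ((key b).1 hb) hb]
    exact φ.map_rel_iff.2 (h2 _ _)

/-- Restricting an algorithm: queries whose answer is known are skipped. -/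
noncomputable def DTree.restrict (Z : Finset V) : DTree V → DTree {v : V // v ∉ Z}
  | DTree.leaf b => DTree.leaf b
  | DTree.query u v t₀ t₁ =>
      if u = v then t₀.restrict Z
      else if h : u ∉ Z ∧ v ∉ Z then
        DTree.query ⟨u, h.1⟩ ⟨v, h.2⟩ (t₀.restrict Z) (t₁.restrict Z)
      else t₁.restrict Z

theorem DTree.restrict_spec (Z : Finset V) (T : DTree V) (F : SimpleGraph {v : V // v ∉ Z}) :
    (T.restrict Z).eval F = T.eval (join Z F) ∧ (T.restrict Z).cost F ≤ T.cost (join Z F) := by
  induction T with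
  | leaf b => simp [DTree.restrict, DTree.eval, DTree.cost]
  | query u v t₀ t₁ ih₀ ih₁ =>
    by_cases huv : u = v
    · have h1 : ¬ (join Z F).Adj u v := fun h => h.1 huv
      simp only [DTree.restrict, huv, if_true]
      rw [huv] at h1
      simp only [DTree.eval, DTree.cost, h1, if_false]
      exact ⟨ih₀.1, ih₀.2.trans (Nat.le_succ _)⟩
    · by_cases h : u ∉ Z ∧ v ∉ Z
      · simp only [DTree.restrict, huv, if_false, h, not_false_eq_true, and_self, dif_pos]
        by_cases hF : F.Adj ⟨u, h.1⟩ ⟨v, h.2⟩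
        · have h1 : (join Z F).Adj u v := ⟨huv, fun _ _ => hF⟩
          simp only [DTree.eval, DTree.cost, h1, hF, if_true]
          exact ⟨ih₁.1, Nat.add_le_add_right ih₁.2 1⟩
        · have h1 : ¬ (join Z F).Adj u v := fun hc => hF (hc.2 h.1 h.2)
          simp only [DTree.eval, DTree.cost, h1, hF, if_false]
          exact ⟨ih₀.1, Nat.add_le_add_right ih₀.2 1⟩
      · have h1 : (join Z F).Adj u v := ⟨huv, fun hu hv => absurd ⟨hu, hv⟩ h⟩
        simp only [DTree.restrict, huv, if_false, h, dif_neg, not_false_eq_true]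
        simp only [DTree.eval, DTree.cost, h1, if_true]
        exact ⟨ih₁.1, ih₁.2.trans (Nat.le_succ _)⟩

theorem R_PZ_le (P : SimpleGraph V → Prop) (Z : Finset V) : R (PZ P Z) ≤ R P := by
  refine le_iInf fun μ => le_iInf fun hμ => ?_
  refine (iInf_le_of_le (μ.map (DTree.restrict Z)) (iInf_le_of_le ?_ le_rfl)).trans ?_
  · intro T hT
    rw [PMF.support_map] at hT
    obtain ⟨T', hT', rfl⟩ := hT
    intro F
    rw [(DTree.restrict_spec Z T' F).1]
    exact hμ T' hT' (join Z F)
  · refine iSup_le fun F => (le_trans ?_ (le_iSup (fun G => expCost μ G) (join Z F)))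
    unfold expCost
    have h1 : ∀ T' : DTree {v : V // v ∉ Z}, (μ.map (DTree.restrict Z)) T' * (T'.cost F : ℝ≥0∞)
        = ∑' T : DTree V, (if T' = DTree.restrict Z T then μ T * (T'.cost F : ℝ≥0∞) else 0) := by
      intro T'
      rw [PMF.map_apply, ← ENNReal.tsum_mul_right]
      refine tsum_congr fun T => ?_
      split_ifs <;> simp
    rw [tsum_congr h1, ENNReal.tsum_comm]
    refine ENNReal.tsum_le_tsum fun T => ?_
    rw [tsum_eq_single (DTree.restrict Z T)]
    · rw [if_pos rfl]
      refine mul_le_mul_right ?_ _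
      exact_mod_cast (DTree.restrict_spec Z T F).2
    · intro T' hT'
      rw [if_neg hT']

/-! ### Certificates -/

variable [Fintype V]

/-- The edges of a graph as a finite set. -/
noncomputable def edges (G : SimpleGraph V) : Finset (Sym2 V) :=
  Finset.univ.filter (fun e => e ∈ G.edgeSet)

theorem mem_edges {G : SimpleGraph V} {e : Sym2 V} : e ∈ edges G ↔ e ∈ G.edgeSet := by
  simp [edges]

/-- All pairs of distinct vertices. -/
noncomputable def allPairs (V : Type u) [Fintype V] : Finset (Sym2 V) :=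
  Finset.univ.filter (fun e => ¬ e.IsDiag)

theorem mem_allPairs {e : Sym2 V} : e ∈ allPairs V ↔ ¬ e.IsDiag := by simp [allPairs]

/-- The graph whose non-edges are the pairs in `N`. -/
def co (N : Finset (Sym2 V)) : SimpleGraph V := SimpleGraph.fromEdgeSet {e | e ∉ N}

theorem co_adj {N : Finset (Sym2 V)} {u v : V} : (co N).Adj u v ↔ s(u, v) ∉ N ∧ u ≠ v := by
  simp [co]

theorem mem_co_edgeSet {N : Finset (Sym2 V)} {e : Sym2 V} :
    e ∈ (co N).edgeSet ↔ e ∉ N ∧ ¬ e.IsDiag := by
  simp [co, SimpleGraph.edgeSet_fromEdgeSet]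

/-- A minimal graph with the property must be seen completely. -/
theorem edges_subset_asked {P : SimpleGraph V → Prop} {T : DTree V} (hT : Computes T P)
    {G : SimpleGraph V} (hG : P G) (hmin : ∀ G' : SimpleGraph V, G' < G → ¬ P G') :
    edges G ⊆ T.asked G := by
  intro e he
  by_contra hc
  rw [mem_edges] at he
  have hlt : G.deleteEdges {e} < G := by
    refine lt_of_le_of_ne (SimpleGraph.deleteEdges_le _) ?_
    intro h
    have : e ∈ (G.deleteEdges {e}).edgeSet := by rw [h]; exact he
    rw [SimpleGraph.edgeSet_deleteEdges] at this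
    exact this.2 rfl
  have hag := T.agree G (G.deleteEdges {e}) (fun e' he' => by
    rw [SimpleGraph.edgeSet_deleteEdges]
    constructor
    · intro h
      refine ⟨h, ?_⟩
      intro h2
      rw [Set.mem_singleton_iff] at h2
      exact hc (h2 ▸ he')
    · exact fun h => h.1)
  have h1 : T.eval G = true := (hT G).2 hG
  rw [← hag.2.1] at h1
  exact hmin _ hlt ((hT _).1 h1)

/-- Lower bound from a single input. -/
theorem le_R_of_input {P : SimpleGraph V → Prop} (G : SimpleGraph V) (B : ℝ)
    (h : ∀ T : DTree V, Computes T P → B ≤ (T.cost G : ℝ)) : ENNReal.ofReal B ≤ R P := by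
  refine le_R_of_distribution_real (P := P) ({()} : Finset Unit) (fun _ => 1) (fun _ => G)
    (by simp) (by simp) B ?_
  intro T hT
  simpa using h T hT

theorem card_edges_le_R {P : SimpleGraph V → Prop} {G : SimpleGraph V} (hG : P G)
    (hmin : ∀ G' : SimpleGraph V, G' < G → ¬ P G') :
    ENNReal.ofReal ((edges G).card : ℝ) ≤ R P := by
  refine le_R_of_input G _ fun T hT => ?_
  exact_mod_cast (Finset.card_le_card (edges_subset_asked hT hG hmin)).trans (T.card_asked_le G)

/-- The pairs found to be non-edges certify that the property fails. -/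
theorem not_P_co_asked {P : SimpleGraph V → Prop} {T : DTree V} (hT : Computes T P)
    {N : Finset (Sym2 V)} (hN : ¬ P (co N)) : ¬ P (co (T.asked (co N) ∩ N)) := by
  have hag := T.agree (co N) (co (T.asked (co N) ∩ N)) (fun e he => by
    rw [mem_co_edgeSet, mem_co_edgeSet, Finset.mem_inter]
    tauto)
  intro hc
  apply hN
  rw [← hT, ← hag.2.1, hT]
  exact hc

/-- The lower bound from a product distribution on the non-edges. -/
theorem prod_bound {P : SimpleGraph V → Prop} {ρ : ℝ} (h0 : 0 < ρ) (h1 : ρ ≤ 1)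
    (Good : Finset (Sym2 V) → Prop) (M : ℝ) (hM : 0 ≤ M)
    (hG1 : ∀ N ⊆ allPairs V, Good N → ¬ P (co N))
    (hG2 : ∀ N ⊆ allPairs V, Good N → ∀ N' ⊆ N, ¬ P (co N') → M ≤ (N'.card : ℝ))
    (hG3 : 1 / 2 ≤ pr ρ (allPairs V) Good) :
    ENNReal.ofReal (M / (2 * ρ)) ≤ R P := by
  refine le_R_of_distribution_real (P := P) (allPairs V).powerset (fun N => wt ρ (allPairs V) N) co
    (fun N _ => wt_nonneg h0.le h1 _ _) (sum_wt _ _) _ ?_
  intro T hT
  -- the expected number of queries is at least the expected number of pairs asked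
  have e1 : ∑ N ∈ (allPairs V).powerset, wt ρ (allPairs V) N *
      (((T.asked (co N)) ∩ allPairs V).card : ℝ)
      ≤ ∑ N ∈ (allPairs V).powerset, wt ρ (allPairs V) N * (T.cost (co N) : ℝ) := by
    refine Finset.sum_le_sum fun N _ => mul_le_mul_of_nonneg_left ?_ (wt_nonneg h0.le h1 _ _)
    exact_mod_cast (Finset.card_le_card Finset.inter_subset_left).trans (T.card_asked_le _)
  refine le_trans ?_ e1
  have e2 := wald ρ (allPairs V) (fun N => T.asked (co N)) (by
    intro N hN e he heN
    constructor
    · intro hmem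
      by_contra hc
      have hag := T.agree (co (insert e N)) (co N) (fun e' he' => by
        rw [mem_co_edgeSet, mem_co_edgeSet, Finset.mem_insert]
        have : e' ≠ e := by intro h; subst h; exact hc he'
        tauto)
      rw [hag.1] at hmem
      exact hc hmem
    · intro hmem
      by_contra hc
      have hag := T.agree (co N) (co (insert e N)) (fun e' he' => by
        rw [mem_co_edgeSet, mem_co_edgeSet, Finset.mem_insert]
        have : e' ≠ e := by intro h; subst h; exact hc he'
        tauto)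
      rw [hag.1] at hmem
      exact hc hmem)
  have e3 : M / 2 ≤ ∑ N ∈ (allPairs V).powerset, wt ρ (allPairs V) N *
      (((T.asked (co N)) ∩ N).card : ℝ) := by
    calc M / 2 = M * (1 / 2) := by ring
      _ ≤ M * pr ρ (allPairs V) Good := mul_le_mul_of_nonneg_left hG3 hM
      _ = ∑ N ∈ (allPairs V).powerset.filter Good, wt ρ (allPairs V) N * M := by
          rw [pr_eq, Finset.mul_sum]
          refine Finset.sum_congr rfl fun N _ => mul_comm _ _
      _ ≤ ∑ N ∈ (allPairs V).powerset.filter Good, wt ρ (allPairs V) N *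
          (((T.asked (co N)) ∩ N).card : ℝ) := by
          refine Finset.sum_le_sum fun N hN =>
            mul_le_mul_of_nonneg_left ?_ (wt_nonneg h0.le h1 _ _)
          rw [Finset.mem_filter, Finset.mem_powerset] at hN
          exact hG2 N hN.1 hN.2 _ Finset.inter_subset_right
            (not_P_co_asked hT (hG1 N hN.1 hN.2))
      _ ≤ _ := by
          refine Finset.sum_le_sum_of_subset_of_nonneg (Finset.filter_subset _ _) fun N _ _ => ?_
          exact mul_nonneg (wt_nonneg h0.le h1 _ _) (Nat.cast_nonneg _)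
  rw [e2] at e3
  rw [div_le_iff₀ (by linarith)]
  linarith

end Pool.Agent.KarpGP
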