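import Pool.Agent.KarpGP.ThreeHalves
import Pool.Agent.KarpGP.MainContainment

/-!
The lower bounds in terms of the least size of a dominating clique.
-/

set_option autoImplicit false

set_option linter.unusedSectionVars false

open scoped ENNReal
open Classical

namespace Pool.Agent.KarpGP

variable {V : Type*} [Fintype V]

/-- The two bounds in terms of `t`. -/
theorem split_main {P : SimpleGraph V → Prop} (hP : Mono P) (hinv : IsoInv P) (htop : P ⊤)
    (hbot : ¬ P ⊥) (n : ℕ) (hn : Fintype.card V = n) (t : ℕ)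
    (ht : IsLeast {k : ℕ | ∃ T : Finset V, T.card = k ∧ P (dom T)} t) :
    ENNReal.ofReal ((t : ℝ) / n * max ((n : ℝ) * Real.sqrt n) (((n : ℝ) - t + 1) ^ 2) / 400)
      ≤ R P := by
  subst hn
  set n : ℕ := Fintype.card V with hndef
  obtain ⟨T, hT, hPT⟩ := ht.1
  have ht1 : 1 ≤ t := by
    rcases Nat.eq_zero_or_pos t with h | h
    · exfalso
      rw [h, Finset.card_eq_zero] at hT
      apply hbot
      have : dom T = ⊥ := by
        ext u v
        simp [dom, hT]
      rwa [this] at hPT
    · exact h
  have hnot : ∀ Z : Finset V, Z.card < t → ¬ P (dom Z) := fun Z hZ hPZ =>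
    absurd (ht.2 ⟨Z, rfl, hPZ⟩) (by omega)
  have htn : t ≤ n := by rw [← hT]; exact Finset.card_le_univ T
  have hcert := cert_bound' hP hinv t ht1 T hT hPT (fun Z hZ => hnot Z (by omega))
  rw [← hndef] at hcert
  have htR : (1 : ℝ) ≤ t := by exact_mod_cast ht1
  have htnR : (t : ℝ) ≤ n := by exact_mod_cast htn
  have hnR : (1 : ℝ) ≤ n := htR.trans htnR
  have hn0 : (0 : ℝ) < n := by linarith
  set m : ℝ := (n : ℝ) - t + 1 with hm
  have hm1 : 1 ≤ m := by rw [hm]; linarith
  have hmn : m ≤ n := by rw [hm]; linarith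
  have hs1 : 1 ≤ Real.sqrt n := by
    rw [← Real.sqrt_one]
    exact Real.sqrt_le_sqrt hnR
  have hsn : Real.sqrt n ≤ n := by
    rw [Real.sqrt_le_left (by linarith)]
    nlinarith
  have hq : (t : ℝ) / n ≤ 1 := (div_le_one hn0).2 htnR
  have hq0 : 0 ≤ (t : ℝ) / n := by positivity
  have hqn : (t : ℝ) / n * n = t := by field_simp
  rcases max_cases ((n : ℝ) * Real.sqrt n) (m ^ 2) with ⟨h, -⟩ | ⟨h, -⟩
  · rw [h]
    by_cases hbig : 10 * t ≤ 9 * n
    · refine le_trans (ENNReal.ofReal_le_ofReal ?_) hcert
      have h1 : (n : ℝ) / 10 ≤ m := by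
        have : (10 : ℝ) * t ≤ 9 * n := by exact_mod_cast hbig
        rw [hm]; linarith
      have h2 : (t : ℝ) / 10 ≤ min m (2 * t) := by
        refine le_min ?_ (by linarith)
        linarith
      have h3 : (n : ℝ) / 10 * (t / 10) ≤ m * min m (2 * t) := by
        refine mul_le_mul h1 h2 (by positivity) (by linarith)
      have h4 : (t : ℝ) / n * (n * Real.sqrt n) ≤ t * n := by
        calc (t : ℝ) / n * (n * Real.sqrt n) = (t : ℝ) / n * n * Real.sqrt n := by ring
          _ = t * Real.sqrt n := by rw [hqn]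
          _ ≤ t * n := by gcongr
      linarith
    · push Not at hbig
      by_cases hn1 : n = 1
      · refine le_trans (ENNReal.ofReal_le_ofReal ?_) hcert
        have h5 : (n : ℝ) = 1 := by exact_mod_cast hn1
        have h6 : (t : ℝ) = 1 := by
          have : t = 1 := by omega
          exact_mod_cast this
        have h7 : m = 1 := by rw [hm, h5, h6]; ring
        rw [h7, h5, h6]
        norm_num
      · have h3 := three_halves hP hinv htop n rfl (by omega) (fun S hS => hnot S (by omega))
        refine le_trans (ENNReal.ofReal_le_ofReal ?_) h3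
        have h4 : (t : ℝ) / n * (n * Real.sqrt n) ≤ n * Real.sqrt n := by
          have : 0 ≤ (n : ℝ) * Real.sqrt n := by positivity
          nlinarith
        have h5 : 0 ≤ (n : ℝ) * Real.sqrt n := by positivity
        linarith
  · rw [h]
    refine le_trans (ENNReal.ofReal_le_ofReal ?_) hcert
    have h1 : (t : ℝ) / n * m ≤ min m (2 * t) := by
      refine le_min (by nlinarith) ?_
      calc (t : ℝ) / n * m ≤ (t : ℝ) / n * n := by gcongr
        _ = t := hqn
        _ ≤ 2 * t := by linarith
    have h2 : m * ((t : ℝ) / n * m) ≤ m * min m (2 * t) := by gcongr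
    have h3 : 0 ≤ m * ((t : ℝ) / n * m) := by positivity
    have h4 : (t : ℝ) / n * m ^ 2 = m * ((t : ℝ) / n * m) := by ring
    rw [h4]
    linarith

end Pool.Agent.KarpGP
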