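import Pool.Agent.KarpGP.Cert

/-!
The exponent three halves for properties without small vertex covers.
-/

set_option autoImplicit false

set_option linter.unusedSectionVars false

open scoped ENNReal
open Classical

namespace Pool.Agent.KarpGP

universe u

variable {V : Type u} [Fintype V]

/-- In a minimal graph below an extremal one, every dominating vertex keeps many neighbours. -/
theorem dominating_degree {P : SimpleGraph V → Prop} (hP : Mono P) (hinv : IsoInv P)
    (Z : Finset V) (F : SimpleGraph {v : V // v ∉ Z}) (hF : PZ P Z F)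
    (hmin : (edges F).card = emin P Z.card) (G₀ : SimpleGraph V) (hG₀ : G₀ ≤ join Z F)
    (hPG₀ : P G₀) (s : V) (hs : s ∈ Z) (x : {v : V // v ∉ Z}) :
    dg F x ≤ (Finset.univ.filter (fun v => v ∉ Z ∧ G₀.Adj s v)).card := by
  set σ : Equiv.Perm V := Equiv.swap s x.1 with hσ
  set G₁ : SimpleGraph V := copyG G₀ σ with hG₁
  have hPG₁ : P G₁ := by
    refine hinv.perm hP σ (G := G₀) (G' := G₁) ?_ hPG₀
    intro u v huv
    rw [hG₁, copyG_adj, hσ, Equiv.swap_apply_self, Equiv.swap_apply_self]
    exact huv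
  have hPF' : PZ P Z (off Z G₁) := hP _ _ (le_join_off Z G₁) hPG₁
  have h1 := emin_le Z _ hPF'
  rw [← hmin] at h1
  have hsx : s ≠ x.1 := fun h => x.2 (h ▸ hs)
  -- the edges of the new graph
  set S := Finset.univ.filter (fun v => v ∉ Z ∧ G₀.Adj s v) with hS
  set A := (edges F).filter (fun e => x ∉ e) with hA
  set B := (Finset.univ.filter (fun y : {v : V // v ∉ Z} => G₀.Adj s y.1)).image
    (fun y => s(x, y)) with hB
  have hsub : edges (off Z G₁) ⊆ A ∪ B := by
    intro e he
    rw [mem_edges] at he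
    induction e using Sym2.ind with
    | _ a b =>
      have hab : G₁.Adj a.1 b.1 := he
      rw [hG₁, copyG_adj] at hab
      have he' : (off Z G₁).Adj a b := he
      have hne : a ≠ b := he'.ne
      have has : a.1 ≠ s := fun h => a.2 (h ▸ hs)
      have hbs : b.1 ≠ s := fun h => b.2 (h ▸ hs)
      rw [Finset.mem_union]
      by_cases hax : a = x
      · right
        have hbx : b.1 ≠ x.1 := fun h => hne (hax.trans (Subtype.ext h).symm)
        rw [hax, hσ, Equiv.swap_apply_right, Equiv.swap_apply_of_ne_of_ne hbs hbx] at hab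
        rw [hB, Finset.mem_image]
        exact ⟨b, by simp [hab], by rw [hax]⟩
      · by_cases hbx : b = x
        · right
          have hax' : a.1 ≠ x.1 := fun h => hax (Subtype.ext h)
          rw [hbx, hσ, Equiv.swap_apply_right, Equiv.swap_apply_of_ne_of_ne has hax'] at hab
          rw [hB, Finset.mem_image]
          exact ⟨a, by simp [hab.symm], by rw [hbx, Sym2.eq_swap]⟩
        · left
          have hax' : a.1 ≠ x.1 := fun h => hax (Subtype.ext h)
          have hbx' : b.1 ≠ x.1 := fun h => hbx (Subtype.ext h)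
          rw [hσ, Equiv.swap_apply_of_ne_of_ne has hax',
            Equiv.swap_apply_of_ne_of_ne hbs hbx'] at hab
          rw [hA, Finset.mem_filter, mem_edges]
          refine ⟨(hG₀ hab).2 a.2 b.2, ?_⟩
          rw [Sym2.mem_iff, not_or]
          exact ⟨fun h => hax h.symm, fun h => hbx h.symm⟩
  have h2 := Finset.card_le_card hsub
  have h3 := Finset.card_union_le A B
  have h4 : B.card ≤ S.card := by
    refine Finset.card_image_le.trans ?_
    refine Finset.card_le_card_of_injOn Subtype.val ?_ Subtype.val_injective.injOn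
    intro y hy
    rw [Finset.mem_coe, Finset.mem_filter] at hy
    rw [Finset.mem_coe, hS, Finset.mem_filter]
    exact ⟨Finset.mem_univ _, y.2, hy.2⟩
  have h5 : A.card + dg F x ≤ (edges F).card := by
    have h6 : dg F x ≤ ((edges F).filter (fun e => ¬ x ∉ e)).card := by
      unfold dg
      refine Finset.card_le_card_of_injOn (fun y => s(x, y)) ?_ ?_
      · intro y hy
        rw [Finset.mem_coe, Finset.mem_filter] at hy
        rw [Finset.mem_coe, Finset.mem_filter, mem_edges]
        exact ⟨hy.2, by simp⟩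
      · intro w _ w' _ h
        simp only [Sym2.eq_iff] at h
        rcases h with ⟨-, h⟩ | ⟨h1, h2⟩
        · exact h
        · exact h2.trans h1
    have h7 := Finset.card_filter_add_card_filter_not (s := edges F) (fun e => x ∉ e)
    rw [← hA] at h7
    exact (Nat.add_le_add_left h6 _).trans h7.le
  omega

/-- Minimal graphs have many edges. -/
theorem many_edges {P : SimpleGraph V → Prop} (hP : Mono P) (hinv : IsoInv P)
    (Z : Finset V) (F : SimpleGraph {v : V // v ∉ Z}) (hF : PZ P Z F)
    (hmin : (edges F).card = emin P Z.card) (x : {v : V // v ∉ Z}) :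
    ENNReal.ofReal ((Z.card : ℝ) * dg F x) ≤ R P := by
  obtain ⟨G₀, h1, h2, h3⟩ := exists_minimal (join Z F) hF
  refine le_trans (ENNReal.ofReal_le_ofReal ?_) (card_edges_le_R h2 h3)
  have h4 : (Z.sigma (fun s => Finset.univ.filter (fun v => v ∉ Z ∧ G₀.Adj s v))).card ≤
      (edges G₀).card := by
    refine Finset.card_le_card_of_injOn (fun p => s(p.1, p.2)) ?_ ?_
    · rintro ⟨s, v⟩ hp
      rw [Finset.mem_coe, Finset.mem_sigma, Finset.mem_filter] at hp
      rw [Finset.mem_coe, mem_edges]
      exact hp.2.2.2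
    · rintro ⟨s, v⟩ hp ⟨s', v'⟩ hp' heq
      rw [Finset.mem_coe, Finset.mem_sigma, Finset.mem_filter] at hp hp'
      simp only [Sym2.eq_iff] at heq
      rcases heq with ⟨rfl, rfl⟩ | ⟨rfl, rfl⟩
      · rfl
      · exact absurd hp.1 hp'.2.2.1
  rw [Finset.card_sigma] at h4
  have h5 := Finset.card_nsmul_le_sum Z
    (fun s => (Finset.univ.filter (fun v => v ∉ Z ∧ G₀.Adj s v)).card) (dg F x)
    (fun s hs => dominating_degree hP hinv Z F hF hmin G₀ h1 h2 s hs x)
  rw [smul_eq_mul] at h5
  exact_mod_cast h5.trans h4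

/-- The exponent three halves. -/
theorem three_halves {P : SimpleGraph V → Prop} (hP : Mono P) (hinv : IsoInv P) (htop : P ⊤)
    (n : ℕ) (hn : Fintype.card V = n) (hn2 : 2 ≤ n)
    (ht : ∀ S : Finset V, 10 * S.card ≤ 9 * n → ¬ P (dom S)) :
    ENNReal.ofReal ((n : ℝ) * Real.sqrt n / 64) ≤ R P := by
  subst hn
  set n : ℕ := Fintype.card V with hndef
  obtain ⟨Z, hZ, F, hF, hmin⟩ := emin_attained htop (n / 2) (by omega)
  have hcard : Fintype.card {v : V // v ∉ Z} = n - n / 2 := by rw [card_off Z, hZ]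
  have hnon : n ≤ 5 * nonIso F := by
    obtain ⟨S, hS1, hS2⟩ := cover_dom hP Z F hF
    by_contra hcon
    push Not at hcon
    apply ht S _ hS2
    omega
  rw [← hZ] at hmin
  -- the maximum degree
  have hne : (Finset.univ : Finset {v : V // v ∉ Z}).Nonempty := by
    rw [← Finset.card_pos, Finset.card_univ, hcard]; omega
  obtain ⟨x, -, hx⟩ := Finset.exists_max_image Finset.univ (fun v => dg F v) hne
  set D : ℕ := dg F x with hD
  have hDle : ∀ y, dg F y ≤ D := fun y => hx y (Finset.mem_univ y)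
  have hD0 : 0 < D := by
    have h1 : 0 < nonIso F := by omega
    unfold nonIso at h1
    obtain ⟨y, hy⟩ := Finset.card_pos.1 h1
    obtain ⟨w, hw⟩ := (Finset.mem_filter.1 hy).2
    refine lt_of_lt_of_le ?_ (hDle y)
    unfold dg
    exact Finset.card_pos.2 ⟨w, by simp [hw]⟩
  have hcert := many_edges hP hinv Z F hF hmin x
  rw [← hD, hZ] at hcert
  have hDR : (1 : ℝ) ≤ D := by exact_mod_cast hD0
  have hnR : (2 : ℝ) ≤ n := by exact_mod_cast hn2
  have hz : (n : ℝ) / 4 ≤ ((n / 2 : ℕ) : ℝ) := by
    have h1 : n ≤ 4 * (n / 2) := by omega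
    have h2 : (n : ℝ) ≤ 4 * ((n / 2 : ℕ) : ℝ) := by exact_mod_cast h1
    linarith
  have hcert' : ENNReal.ofReal ((n : ℝ) / 4 * D) ≤ R P := by
    refine le_trans (ENNReal.ofReal_le_ofReal ?_) hcert
    gcongr
  have hs0 : 0 ≤ Real.sqrt n := Real.sqrt_nonneg _
  have hsq : Real.sqrt n * Real.sqrt n = n := Real.mul_self_sqrt (by linarith)
  have hs1 : 1 ≤ Real.sqrt n := by
    rw [← Real.sqrt_one]
    exact Real.sqrt_le_sqrt (by linarith)
  by_cases hDs : Real.sqrt n ≤ 16 * D
  · refine le_trans (ENNReal.ofReal_le_ofReal ?_) hcert'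
    nlinarith
  · push Not at hDs
    -- the degrees are small
    have hc : 4 * (D + 2) ≤ Fintype.card {v : V // v ∉ Z} := by
      rw [hcard]
      have h1 : 16 * (D : ℝ) * (16 * D) < n := by
        calc 16 * (D : ℝ) * (16 * D) < Real.sqrt n * Real.sqrt n := by gcongr
          _ = n := hsq
      have h2 : 256 * (D * D) < n := by
        have : 256 * ((D : ℝ) * D) < n := by nlinarith
        exact_mod_cast this
      have h3 : D ≤ D * D := Nat.le_mul_of_pos_left D hD0
      omega
    have hsearch := search_real (hinv.pz Z) hF (fun G' hG' hPG' => by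
      have h1 := emin_le Z G' hPG'
      have h2 := edges_lt_of_lt hG'
      omega) D hD0 hDle (by omega) hc
    refine le_trans ?_ (hsearch.trans (R_PZ_le P Z))
    refine ENNReal.ofReal_le_ofReal ?_
    have hm : (n : ℝ) / 2 ≤ (Fintype.card {v : V // v ∉ Z} : ℝ) := by
      rw [hcard]
      have h1 : n ≤ 2 * (n - n / 2) := by omega
      have h2 : (n : ℝ) ≤ 2 * ((n - n / 2 : ℕ) : ℝ) := by exact_mod_cast h1
      linarith
    have hm2 : (n : ℝ) ^ 2 / 4 ≤ (Fintype.card {v : V // v ∉ Z} : ℝ) ^ 2 := by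
      have h0 : (0 : ℝ) ≤ (n : ℝ) / 2 := by positivity
      nlinarith
    rw [div_le_div_iff₀ (by norm_num) (by positivity)]
    have h5 : (n : ℝ) * Real.sqrt n * (60 * D) ≤ (n : ℝ) * Real.sqrt n * (60 / 16 * Real.sqrt n) := by
      have : 60 * (D : ℝ) ≤ 60 / 16 * Real.sqrt n := by linarith
      gcongr
    have h6 : (n : ℝ) * Real.sqrt n * (60 / 16 * Real.sqrt n) = 60 / 16 * (n : ℝ) ^ 2 := by
      calc (n : ℝ) * Real.sqrt n * (60 / 16 * Real.sqrt n)
          = 60 / 16 * n * (Real.sqrt n * Real.sqrt n) := by ring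
        _ = 60 / 16 * (n : ℝ) ^ 2 := by rw [hsq]; ring
    nlinarith

end Pool.Agent.KarpGP
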